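import Pool.Agent.TH597.HX.Stm

/-!
# Hardy inequality when only the pairwise distances in the block are bounded
-/

set_option autoImplicit false

namespace Pool.Agent.TH368.HX

open MeasureTheory Set
open scoped ENNReal InnerProductSpace
open Pool.Agent.H212R2.KLS (mu Bdd)
open Pool.Agent.H888R2.KT (LC St tw)
open Pool.Agent.TH594.KP
open Pool.Agent.TH597.HX (dev S_HARDY0)

variable {ι β : Type} [Fintype ι] [DecidableEq ι] [DecidableEq β]

theorem map_shift {κ : Type} [Fintype κ] (ρ : V κ → ℝ) (hm : Measurable ρ) (a : V κ) :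
    (mu (fun x => ρ (x + a))).map (fun x => x + a) = mu ρ := by
  have hT : MeasurePreserving (fun x : V κ => x + a) volume volume :=
    measurePreserving_add_right volume a
  ext s hs
  rw [Measure.map_apply (measurable_add_const a) hs]
  unfold mu
  rw [withDensity_apply _ hs, withDensity_apply _ (measurable_add_const a hs)]
  exact hT.setLIntegral_comp_preimage hs (f := fun x => ENNReal.ofReal (ρ x))
    hm.ennreal_ofReal

theorem mu_indicator {κ : Type} [Fintype κ] (ρ : V κ → ℝ) (U : Set (V κ))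
    (hU : MeasurableSet U) : mu (U.indicator ρ) = (mu ρ).restrict U := by
  rw [mu, mu, restrict_withDensity hU, ← withDensity_indicator hU]
  congr 1
  ext x
  by_cases hx : x ∈ U <;> simp [hx]

theorem mu_mono {κ : Type} [Fintype κ] (ρ w : V κ → ℝ) (h : ∀ x, w x ≤ ρ x) (U : Set (V κ)) :
    mu w U ≤ mu ρ U := by
  have : mu w ≤ mu ρ := withDensity_mono (ae_of_all _ fun x => ENNReal.ofReal_le_ofReal (h x))
  exact this U

/-- sum of the coordinates of the block -/
noncomputable def ms (b : ι → β) (s : β) (x : V (ι × Fin 1)) : ℝ := ∑ i ∈ Bs b s, x (i, 0)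

/-- the vector with all coordinates of the block equal to `t` -/
noncomputable def sh (b : ι → β) (s : β) (t : ℝ) : V (ι × Fin 1) :=
  WithLp.toLp 2 fun p => if b p.1 = s then t else 0

theorem b_swap (b : ι → β) (k l : ι) (h : b k = b l) (i : ι) :
    b (Equiv.swap k l i) = b i := by
  by_cases h2 : i = k
  · rw [h2, Equiv.swap_apply_left, h]
  · by_cases h3 : i = l
    · rw [h3, Equiv.swap_apply_right, h]
    · rw [Equiv.swap_apply_of_ne_of_ne h2 h3]

theorem sh_apply (b : ι → β) (s : β) (t : ℝ) (p : ι × Fin 1) :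
    sh b s t p = if b p.1 = s then t else 0 := rfl

theorem swp_sh (b : ι → β) (s : β) (t : ℝ) (k l : ι) (h : b k = b l) :
    swp k l (sh b s t) = sh b s t := by
  ext p
  rw [swp_apply, sh_apply, sh_apply]
  simp only [b_swap b k l h]

theorem ms_swp (b : ι → β) (s : β) (k l : ι) (h : b k = b l) (x : V (ι × Fin 1)) :
    ms b s (swp k l x) = ms b s x := by
  unfold ms
  refine Finset.sum_equiv (Equiv.swap k l) (fun i => ?_) (fun i _ => ?_)
  · rw [mem_Bs, mem_Bs, b_swap b k l h]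
  · rw [swp_apply]

theorem ms_add_sh (b : ι → β) (s : β) (t : ℝ) (x : V (ι × Fin 1)) :
    ms b s (x + sh b s t) = ms b s x + (Bs b s).card * t := by
  unfold ms
  have h1 : ∀ i ∈ Bs b s, (x + sh b s t) (i, 0) = x (i, 0) + t := by
    intro i hi
    rw [PiLp.add_apply, sh_apply, if_pos ((mem_Bs b s i).1 hi)]
  rw [Finset.sum_congr rfl h1, Finset.sum_add_distrib, Finset.sum_const, nsmul_eq_mul]

theorem dev_add_sh (b : ι → β) (s : β) (t : ℝ) (x : V (ι × Fin 1)) :
    dev b s (x + sh b s t) = dev b s x := by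
  unfold dev
  have h1 : ∀ i ∈ Bs b s, (x + sh b s t) (i, 0) = x (i, 0) + t := by
    intro i hi
    rw [PiLp.add_apply, sh_apply, if_pos ((mem_Bs b s i).1 hi)]
  refine Finset.sum_congr rfl fun i hi => Finset.sum_congr rfl fun j hj => ?_
  rw [h1 i hi, h1 j hj]
  congr 1
  ring

theorem ms_cont (b : ι → β) (s : β) : Continuous (ms b s) := by
  unfold ms
  fun_prop

theorem norm_P1 (i : ι) (x : V (ι × Fin 1)) : ‖P i x‖ = |x (i, 0)| := by
  rw [EuclideanSpace.norm_eq]
  simp only [Finset.univ_unique, Fin.default_eq_zero, Finset.sum_singleton, P_apply,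
    Real.norm_eq_abs, sq_abs]
  exact Real.sqrt_sq_eq_abs _

/-- the sum of the sizes is bounded by the distances and the mean -/
theorem sum_le (b : ι → β) (s : β) (x : V (ι × Fin 1)) :
    (Bs b s).card * ∑ i ∈ Bs b s, ‖P i x‖ ≤ dev b s x + (Bs b s).card * |ms b s x| := by
  unfold dev
  have h2 : ((Bs b s).card : ℝ) * |ms b s x| = ∑ i ∈ Bs b s, |ms b s x| := by
    rw [Finset.sum_const, nsmul_eq_mul]
  rw [h2, ← Finset.sum_add_distrib, Finset.mul_sum]
  refine Finset.sum_le_sum fun i _ => ?_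
  rw [norm_P1]
  have h3 : ((Bs b s).card : ℝ) * x (i, 0) =
      ∑ j ∈ Bs b s, (x (i, 0) - x (j, 0)) + ms b s x := by
    unfold ms
    rw [← Finset.sum_add_distrib]
    simp
  have h4 : ((Bs b s).card : ℝ) * |x (i, 0)| = |((Bs b s).card : ℝ) * x (i, 0)| := by
    rw [abs_mul, Nat.abs_cast]
  rw [h4, h3]
  refine (abs_add_le _ _).trans ?_
  exact add_le_add (Finset.abs_sum_le_sum_abs _ _) le_rfl

/-- the slices -/
def Rz (b : ι → β) (s : β) (w : ℝ) (z : ℤ) : Set (V (ι × Fin 1)) := {x | ⌊ms b s x / w⌋ = z}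

theorem Rz_meas (b : ι → β) (s : β) (w : ℝ) (z : ℤ) : MeasurableSet (Rz b s w z) := by
  have h1 : Measurable fun x : V (ι × Fin 1) => ⌊ms b s x / w⌋ :=
    Int.measurable_floor.comp ((ms_cont b s).measurable.div_const w)
  exact h1 (measurableSet_singleton z)

theorem Rz_convex (b : ι → β) (s : β) {w : ℝ} (z : ℤ) :
    Convex ℝ (Rz b s w z) := by
  intro x hx y hy t t' ht ht' htt
  have hx' : ⌊ms b s x / w⌋ = z := hx
  have hy' : ⌊ms b s y / w⌋ = z := hy
  show ⌊ms b s (t • x + t' • y) / w⌋ = z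
  rw [Int.floor_eq_iff] at hx' hy' ⊢
  have h1 : ms b s (t • x + t' • y) / w = t * (ms b s x / w) + t' * (ms b s y / w) := by
    have h2 : ms b s (t • x + t' • y) = t * ms b s x + t' * ms b s y := by
      unfold ms
      rw [Finset.mul_sum, Finset.mul_sum, ← Finset.sum_add_distrib]
      refine Finset.sum_congr rfl fun i _ => ?_
      simp
    rw [h2]
    ring
  rw [h1]
  have h3 : t' = 1 - t := by linarith
  rw [h3] at ht' ⊢
  constructor
  · nlinarith [mul_le_mul_of_nonneg_left hx'.1 ht, mul_le_mul_of_nonneg_left hy'.1 ht']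
  · rcases ht.eq_or_lt with h4 | h4
    · rw [← h4]
      linarith [hy'.2]
    · have h5 := mul_lt_mul_of_pos_left hx'.2 h4
      have h6 := mul_le_mul_of_nonneg_left hy'.2.le ht'
      nlinarith

theorem slice {b : ι → β} {ρ : V (ι × Fin 1) → ℝ} (hS : GD (GG (Fin 1) b) ρ) (hL : LC ρ) (a : ℝ)
    (ha : 0 < a) (k l : ι) (hkl : k ≠ l) (hb : b k = b l)
    (hsupp : ∀ x, ρ x ≠ 0 → dev b (b k) x ≤ a * ((Bs b (b k)).card : ℝ) ^ 2)
    (f : V (ι × Fin 1) → ℝ) (hf : ContDiff ℝ 1 f) (hodd : ∀ x, f (swp k l x) = - f x) (z : ℤ) :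
    ∫ x in Rz b (b k) ((Bs b (b k)).card * a) z, f x ^ 2 ∂(mu ρ) ≤
      16 * cH * a ^ 2 *
        ∫ x in Rz b (b k) ((Bs b (b k)).card * a) z, ‖fderiv ℝ f x‖ ^ 2 ∂(mu ρ) := by
  obtain ⟨s, hs⟩ : ∃ s, s = b k := ⟨_, rfl⟩
  have hsk : s = b k := hs
  have hN : (0 : ℝ) < (Bs b s).card := by
    have h : 0 < (Bs b s).card := Finset.card_pos.2 ⟨k, (mem_Bs b s k).2 hs.symm⟩
    exact_mod_cast h
  have hSp : Sp b k = Bs b s := by rw [hs]; rfl
  rw [← hs] at hsupp ⊢
  obtain ⟨N, hNd⟩ : ∃ N : ℝ, N = (Bs b s).card := ⟨_, rfl⟩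
  rw [← hNd] at hN hsupp ⊢
  have hw : 0 < N * a := mul_pos hN ha
  obtain ⟨U, hU⟩ : ∃ U, U = Rz b s (N * a) z := ⟨_, rfl⟩
  have hUm : MeasurableSet U := by rw [hU]; exact Rz_meas b s _ z
  have hUc : Convex ℝ U := by rw [hU]; exact Rz_convex b s z
  have hUi : ∀ g ∈ GG (Fin 1) b, ∀ x, g x ∈ U ↔ x ∈ U := by
    rintro g ⟨k', l', h', rfl⟩ x
    rw [hU]
    show ⌊ms b s (swp k' l' x) / (N * a)⌋ = z ↔ ⌊ms b s x / (N * a)⌋ = z
    rw [ms_swp b s k' l' h']
  rw [← hU]
  have hres : mu (U.indicator ρ) = (mu ρ).restrict U := mu_indicator ρ U hUm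
  rw [← hres]
  by_cases hz : mu (U.indicator ρ) = 0
  · rw [hz]
    simp
  have hD : GD (GG (Fin 1) b) (U.indicator ρ) := gd_indicator hS U hUc hUm hUi
  obtain ⟨v, hv⟩ : ∃ v, v = sh b s (((z : ℝ) + 1 / 2) * a) := ⟨_, rfl⟩
  have hvf : ∀ k' l', b k' = b l' → swp k' l' v = v := fun k' l' h => by
    rw [hv]
    exact swp_sh b s _ k' l' h
  have hvg : ∀ g ∈ GG (Fin 1) b, g v = v := by
    rintro g ⟨k', l', h', rfl⟩
    exact hvf k' l' h'
  obtain ⟨ρ', hρ'⟩ : ∃ ρ' : V (ι × Fin 1) → ℝ, ρ' = fun y => U.indicator ρ (y + v) := ⟨_, rfl⟩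
  have hD' : GD (GG (Fin 1) b) ρ' := by
    rw [hρ']
    exact gd_trans hD v hvg
  have hmap : (mu ρ').map (fun x => x + v) = mu (U.indicator ρ) := by
    rw [hρ']
    exact map_shift (U.indicator ρ) hD.meas v
  have hemb : MeasurableEmbedding (fun x : V (ι × Fin 1) => x + v) := measurableEmbedding_addRight v
  have hI : ∀ g : V (ι × Fin 1) → ℝ,
      ∫ x, g x ∂(mu (U.indicator ρ)) = ∫ x, g (x + v) ∂(mu ρ') := by
    intro g
    conv_lhs => rw [← hmap]
    exact hemb.integral_map g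
  have hle : ∀ x, U.indicator ρ x ≤ ρ x := fun x => Set.indicator_le_self' (fun _ _ => hS.nonneg _) x
  have hL' : LC ρ' := by
    refine ⟨hD'.nonneg, hD'.meas, hD'.logc, ?_, ?_, ?_⟩
    · obtain ⟨R, hR⟩ := hL.bdd
      refine ⟨R + ‖v‖, fun x hx => ?_⟩
      have h1 : R < ‖x + v‖ := by
        have h2 : ‖x‖ ≤ ‖x + v‖ + ‖v‖ := by
          have h3 := norm_sub_le (x + v) v
          rwa [add_sub_cancel_right] at h3
        linarith
      rw [hρ']
      show U.indicator ρ (x + v) = 0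
      exact le_antisymm ((hle _).trans_eq (hR _ h1)) (hD.nonneg _)
    · have h1 : mu ρ' univ = mu (U.indicator ρ) univ := by
        rw [← hmap, Measure.map_apply (measurable_add_const v) MeasurableSet.univ, preimage_univ]
      rw [h1]
      exact ne_top_of_le_ne_top hL.fin (mu_mono ρ (U.indicator ρ) hle univ)
    · intro h0
      apply hz
      rw [← hmap, h0, Measure.map_zero]
  have hsupp' : ∀ y, ρ' y ≠ 0 → ∑ i ∈ Sp b k, ‖P i y‖ ≤ 2 * a * (Sp b k).card := by
    intro y hy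
    rw [hρ'] at hy
    have hy' : U.indicator ρ (y + v) ≠ 0 := hy
    have hmem : y + v ∈ U := by
      by_contra h
      exact hy' (indicator_of_notMem h _)
    rw [indicator_of_mem hmem] at hy'
    have h1 := hsupp _ hy'
    rw [hv, dev_add_sh] at h1
    rw [hU, hv] at hmem
    have h2 : ⌊ms b s (y + sh b s (((z : ℝ) + 1 / 2) * a)) / (N * a)⌋ = z := hmem
    rw [Int.floor_eq_iff, ms_add_sh, ← hNd, le_div_iff₀ hw, div_lt_iff₀ hw] at h2
    have h3 : |ms b s y| ≤ N * a := by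
      rw [abs_le]
      constructor
      · nlinarith [h2.1]
      · nlinarith [h2.2]
    have h4 := sum_le b s y
    rw [← hNd] at h4
    rw [hSp, ← hNd]
    have h5 : N * ∑ i ∈ Bs b s, ‖P i y‖ ≤ N * (2 * a * N) := by
      have h6 := mul_le_mul_of_nonneg_left h3 hN.le
      calc N * ∑ i ∈ Bs b s, ‖P i y‖ ≤ dev b s y + N * |ms b s y| := h4
        _ ≤ a * N ^ 2 + N * (N * a) := add_le_add h1 h6
        _ = N * (2 * a * N) := by ring
    exact le_of_mul_le_mul_left h5 hN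
  have hf' : ContDiff ℝ 1 fun x => f (x + v) := hf.comp (contDiff_id.add contDiff_const)
  have hodd' : ∀ x, f (swp k l x + v) = - f (x + v) := by
    intro x
    rw [← hodd, map_add, hvf k l hb]
  have hH := hardy hD' hL' (2 * a) (by positivity) k l hkl hb hsupp' (fun x => f (x + v)) hf' hodd'
  rw [hI, hI]
  have hfd : ∀ x, fderiv ℝ (fun x => f (x + v)) x = fderiv ℝ f (x + v) := by
    intro x
    rw [fderiv_comp_add_right]
  simp only [hfd] at hH
  refine hH.trans (le_of_eq ?_)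
  rw [Fintype.card_fin]
  push_cast
  ring

theorem hardy0 : S_HARDY0 := by
  refine ⟨16 * cH, ?_, ?_⟩
  · unfold cH
    norm_num
  intro ι β _ _ _ _ b ρ hS hL a ha k l hkl hb hsupp f hf hodd
  obtain ⟨w, hw⟩ : ∃ w : ℝ, w = (Bs b (b k)).card * a := ⟨_, rfl⟩
  have hun : ⋃ z : ℤ, Rz b (b k) w z = univ := by
    ext x
    simp only [mem_iUnion, mem_univ, iff_true]
    exact ⟨_, rfl⟩
  have hdj : Pairwise (Function.onFun Disjoint fun z : ℤ => Rz b (b k) w z) := by
    intro z z' hzz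
    refine Set.disjoint_left.2 fun x hx hx' => hzz ?_
    have h1 : ⌊ms b (b k) x / w⌋ = z := hx
    have h2 : ⌊ms b (b k) x / w⌋ = z' := hx'
    rw [← h1, ← h2]
  have hi1 : Integrable (fun x => f x ^ 2) (mu ρ) :=
    Pool.Agent.H888R2.KT.N9x.int_cont hL (hf.continuous.pow 2)
  have hi2 : Integrable (fun x => ‖fderiv ℝ f x‖ ^ 2) (mu ρ) :=
    Pool.Agent.H888R2.KT.N9x.int_cont hL ((hf.continuous_fderiv one_ne_zero).norm.pow 2)
  have hs1 := hasSum_integral_iUnion (μ := mu ρ) (f := fun x => f x ^ 2)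
    (fun z : ℤ => Rz_meas b (b k) w z) hdj hi1.integrableOn
  have hs2 := hasSum_integral_iUnion (μ := mu ρ) (f := fun x => ‖fderiv ℝ f x‖ ^ 2)
    (fun z : ℤ => Rz_meas b (b k) w z) hdj hi2.integrableOn
  rw [hun, Measure.restrict_univ] at hs1 hs2
  refine hasSum_le (fun z => ?_) hs1 (hs2.mul_left (16 * cH * a ^ 2))
  rw [hw]
  exact slice hS hL a ha k l hkl hb hsupp f hf hodd z

end Pool.Agent.TH368.HX

namespace Pool.Agent.TH368

theorem hardy0 : Pool.Agent.TH597.HX.S_HARDY0 := HX.hardy0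

end Pool.Agent.TH368
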