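import Pool.Agent.TH37.SD.Stmts2

/-!
# MP_41f637_al: the word is not a law (helper368)
-/

set_option autoImplicit false

namespace Pool.Agent.TH368.SDE2

open Pool.Agent.TH37.SD

lemma nrm_one {G : Type} [Group G] (p : ℕ) (m : G) : nrm p 1 m = m ^ p := by
  unfold nrm
  simp

lemma wv_one {G : Type} [Group G] (p : ℕ) (x u : G) :
    wv p (fun _ => 1) x u =
      u ^ (p ^ 7) * x ^ p * (u ^ (p ^ 7))⁻¹ * (x ^ p)⁻¹ := by
  unfold wv
  simp only [nrm_one, ← pow_mul]
  have : p ^ 2 * p * p * p * p * p = p ^ 7 := by ring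
  rw [this]

/-- the base element -/
def bas {C : Type} [Group C] (f : C → ℂ) : WR C := ⟨fun c => Multiplicative.ofAdd (f c), 1⟩

lemma bas_pow {C : Type} [Group C] (f : C → ℂ) (n : ℕ) :
    (bas f) ^ n = bas (fun c => (n : ℂ) * f c) := by
  induction n with
  | zero =>
    rw [pow_zero]
    ext c
    · simp [bas]
    · simp [bas]
  | succ n ih =>
    rw [pow_succ, ih]
    ext c
    · simp only [bas, RegularWreathProduct.mul_left, Pi.mul_apply, inv_one, one_mul]
      rw [← ofAdd_add]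
      congr 1
      push_cast
      rw [add_mul, one_mul]
    · simp [bas]

lemma comm_left {C : Type} [Group C] (f : C → ℂ) (z : C) :
    Multiplicative.toAdd ((bas f * RegularWreathProduct.inl z * (bas f)⁻¹ *
      (RegularWreathProduct.inl z : WR C)⁻¹).left z) = f z - f 1 := by
  simp [bas, sub_eq_add_neg]

section

variable (p : ℕ) (ω : ℂ)

/-- the character -/
noncomputable def ch (c : ZMod (p ^ 2)) : ℂ := ω ^ c.val

lemma ch_add (hp : 0 < p) (hω : ω ^ (p ^ 2) = 1) (a b : ZMod (p ^ 2)) :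
    ch p ω (a + b) = ch p ω a * ch p ω b := by
  have : NeZero (p ^ 2) := ⟨by positivity⟩
  unfold ch
  rw [ZMod.val_add, ← pow_add]
  exact (pow_eq_pow_mod _ hω).symm

lemma val_p (hp : 1 < p) : ((p : ℕ) : ZMod (p ^ 2)).val = p := by
  apply ZMod.val_cast_of_lt
  nlinarith

end

theorem at_z (p : ℕ) (hp : p.Prime) :
    AT p (Multiplicative.ofAdd ((p : ℕ) : ZMod (p ^ 2))) := by
  have : NeZero (p ^ 2) := ⟨pow_ne_zero _ hp.ne_zero⟩
  refine ⟨fun a => mul_comm _ _, ?_, ?_, ?_⟩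
  · rw [← ofAdd_nsmul]
    have : (p • ((p : ℕ) : ZMod (p ^ 2))) = 0 := by
      rw [nsmul_eq_mul, ← Nat.cast_mul, ← pow_two]
      exact ZMod.natCast_self (p ^ 2)
    rw [this]
    rfl
  · intro h
    have h2 : ((p : ℕ) : ZMod (p ^ 2)) = 0 := by
      have := congrArg Multiplicative.toAdd h
      simpa using this
    have h3 := val_p p hp.one_lt
    rw [h2, ZMod.val_zero] at h3
    exact hp.ne_zero h3.symm
  · intro a ha
    obtain ⟨n, rfl⟩ : ∃ n : ZMod (p ^ 2), Multiplicative.ofAdd n = a := ⟨Multiplicative.toAdd a, rfl⟩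
    refine ⟨(n.val : ℤ), ?_, ?_⟩
    · rw [← ofAdd_nsmul, zpow_natCast, ← ofAdd_nsmul]
      congr 1
      rw [nsmul_eq_mul, nsmul_eq_mul, ZMod.natCast_zmod_val, mul_comm]
    · intro hd
      apply ha
      have hd2 : p ∣ n.val := by exact_mod_cast hd
      obtain ⟨k, hk⟩ := hd2
      rw [Subgroup.mem_zpowers_iff]
      refine ⟨(k : ℤ), ?_⟩
      rw [zpow_natCast, ← ofAdd_nsmul]
      congr 1
      rw [nsmul_eq_mul, ← Nat.cast_mul, mul_comm, ← hk, ZMod.natCast_zmod_val]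

theorem sol : Pool.Agent.TH37.SD.SolStmt := by
  intro p hp h3 ζ hζ
  obtain ⟨ω, hω⟩ := IsAlgClosed.exists_pow_nat_eq ζ hp.pos
  have hω2 : ω ^ (p ^ 2) = 1 := by
    rw [pow_two, pow_mul, hω, hζ.pow_eq_one]
  refine ⟨Multiplicative (ZMod (p ^ 2)), inferInstance,
    Multiplicative.ofAdd ((p : ℕ) : ZMod (p ^ 2)), at_z p hp,
    RegularWreathProduct.inl (Multiplicative.ofAdd 1),
    bas (fun c => ch p ω (Multiplicative.toAdd c)), ?_, ?_, ?_⟩
  · intro x
    simp
  · intro x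
    simp only [bas, toAdd_ofAdd, toAdd_mul]
    rw [ch_add p ω hp.pos hω2]
    congr 1
    unfold ch
    rw [val_p p hp.one_lt, hω]
  · rw [wv_one, bas_pow, ← map_pow, ← ofAdd_nsmul, nsmul_eq_mul, mul_one]
    intro h
    have h2 := comm_left (fun c : Multiplicative (ZMod (p ^ 2)) =>
      ((p ^ 7 : ℕ) : ℂ) * ch p ω (Multiplicative.toAdd c))
      (Multiplicative.ofAdd ((p : ℕ) : ZMod (p ^ 2)))
    rw [h] at h2
    simp only [RegularWreathProduct.one_left, Pi.one_apply, toAdd_one, toAdd_ofAdd] at h2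
    have e1 : ch p ω ((p : ℕ) : ZMod (p ^ 2)) = ζ := by
      unfold ch
      rw [val_p p hp.one_lt, hω]
    have e2 : ch p ω 0 = 1 := by
      unfold ch
      simp
    rw [e1, e2] at h2
    have h4 : ((p ^ 7 : ℕ) : ℂ) * (ζ - 1) = 0 := by
      rw [mul_sub, ← h2]
    rcases mul_eq_zero.mp h4 with h5 | h5
    · have : (p ^ 7 : ℕ) = 0 := by exact_mod_cast h5
      exact pow_ne_zero 7 hp.ne_zero this
    · have h6 : ζ = 1 := sub_eq_zero.mp h5
      exact hζ.ne_one hp.one_lt h6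

end Pool.Agent.TH368.SDE2
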