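import Pool.Agent.TH368.GKSound2
import Pool.Agent.TH368.GKC10a
import Pool.Agent.TH368.GKC10b
import Pool.Agent.TH368.GKC10c
import Pool.Agent.TH368.GKC10d
import Pool.Agent.TH368.GKC10e

set_option autoImplicit false
set_option maxRecDepth 100000

namespace Pool.Agent.TH368.GK.D10

open Pool.Agent.TH368.GK

def e1 : Fin 11 → ℕ := ![7, 7, 7, 7, 7, 7, 7, 7, 7, 7, 7]
def e2 : Fin 11 → ℕ := ![7, 7, 7, 7, 7, 7, 7, 7, 7, 7, 7]

lemma rowsOK : ∀ r ∈ rows, pk (unl 11 r.1) = r.1 ∧ allLt 2048 (unl 11 r.1) = true ∧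
      r.2.1 + 4194304 * 11264 = 4194304 * ∑ c, dg r.1 c := by decide +kernel

lemma rowsPos : ∀ r ∈ rows, 11264 < ∑ c, dg r.1 c := by decide +kernel

lemma rowsZ : ∀ r ∈ rows, ∃ r' ∈ rows, r.2.2 = r'.1 := by decide +kernel

lemma rowsCore : ∀ x c : Fin 11, dg (rows[(x : ℕ)]?.getD (0, 0, 0)).1 c = if c = x then 1025 else 1024 := by
  decide +kernel

lemma rowsLen : rows.length = 121 := by decide +kernel

lemma rowsAll : ∀ i j, i < j → ∀ r r', rows[i]? = some r → rows[j]? = some r' →
      ∃ c, pairChk D1 D2 ONES DC rows i j r.1 r' c = true := by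
  intro i j hij r r' hr hr'
  have hj : j < 121 := by
    by_contra hcon
    rw [List.getElem?_eq_none (by rw [rowsLen]; omega)] at hr'
    exact absurd hr' (by simp)
  rcases Nat.lt_or_ge i 3 with h0 | h0
  · exact block_sound D1 D2 ONES DC rows certs0 0 3 ok0 len0 i (by omega) (by omega) j hij r r' hr hr'
  rcases Nat.lt_or_ge i 6 with h1 | h1
  · exact block_sound D1 D2 ONES DC rows certs1 3 3 ok1 len1 i (by omega) (by omega) j hij r r' hr hr'
  rcases Nat.lt_or_ge i 10 with h2 | h2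
  · exact block_sound D1 D2 ONES DC rows certs2 6 4 ok2 len2 i (by omega) (by omega) j hij r r' hr hr'
  rcases Nat.lt_or_ge i 22 with h3 | h3
  · exact block_sound D1 D2 ONES DC rows certs3 10 12 ok3 len3 i (by omega) (by omega) j hij r r' hr hr'
  exact block_sound D1 D2 ONES DC rows certs4 22 99 ok4 len4 i (by omega) (by omega) j hij r r' hr hr'

/-- the coefficient vectors -/
def aa (t : ℕ) (c : Fin 11) : ℤ := (dg (rows[t]?.getD (0, 0, 0)).1 c : ℤ) - 1024

theorem good : Good (fun c => (e1 c : ℤ) - 7) (fun c => (e2 c : ℤ) - 7) aa :=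
  good_of (by decide +kernel) (by decide +kernel) (by decide +kernel) (by decide +kernel) (by decide +kernel)
    (by decide +kernel) (by decide +kernel) (by decide +kernel) rowsLen rowsOK rowsPos rowsZ rowsCore rowsAll

end Pool.Agent.TH368.GK.D10
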