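import Mathlib

set_option autoImplicit false

namespace Pool.Agent.TH368.GK

open Set Filter Topology

abbrev E (n : ℕ) := EuclideanSpace ℝ (Fin n)

/-! ### epsilon lemmas -/

lemma ev_lt {a b c d : ℝ} (h : a < b) : ∀ᶠ ε in 𝓝[>] (0:ℝ), a + ε * c < b + ε * d := by
  have h1 : Tendsto (fun ε : ℝ => (a + ε * c) - (b + ε * d)) (𝓝[>] 0) (𝓝 ((a + 0 * c) - (b + 0 * d))) := by
    apply Tendsto.mono_left _ nhdsWithin_le_nhds
    apply Continuous.tendsto
    fun_prop
  have h2 : (a + 0 * c) - (b + 0 * d) < 0 := by linarith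
  filter_upwards [h1.eventually (gt_mem_nhds h2)] with ε hε
  linarith

lemma ev_lt' {a b c d : ℝ} (h : a ≤ b) (h2 : c < d) : ∀ᶠ ε in 𝓝[>] (0:ℝ), a + ε * c < b + ε * d := by
  filter_upwards [self_mem_nhdsWithin] with ε hε
  have : (0:ℝ) < ε := hε
  nlinarith

lemma ev_ne {a c : ℝ} (h : c ≠ 0) : ∀ᶠ ε in 𝓝[>] (0:ℝ), a + ε * c ≠ 0 := by
  by_cases ha : a = 0
  · filter_upwards [self_mem_nhdsWithin] with ε hε
    have : (0:ℝ) < ε := hε
    simp [ha, this.ne', h]
  · have h1 : Tendsto (fun ε : ℝ => (a + ε * c)) (𝓝[>] 0) (𝓝 ((a + 0 * c))) := by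
      apply Tendsto.mono_left _ nhdsWithin_le_nhds
      apply Continuous.tendsto
      fun_prop
    have h2 : (a + 0 * c) ≠ 0 := by simpa using ha
    exact h1.eventually_ne h2

lemma generic_functional {n : ℕ} {κ : Type*} [Finite κ] (v : κ → E n) :
    ∃ g : E n →L[ℝ] ℝ, ∀ i, v i ≠ 0 → g (v i) ≠ 0 := by
  classical
  obtain ⟨f, hf⟩ := Module.exists_dual_forall_apply_ne_zero (K := ℝ) (fun i : {i : κ // v i ≠ 0} => v i.1)
    (fun i => i.2)
  refine ⟨LinearMap.toContinuousLinearMap f, fun i hi => ?_⟩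
  exact hf ⟨i, hi⟩

/-! ### faces of the convex hull of a finite family -/

variable {n : ℕ} {ι : Type*}

/-- linear functional bounded on the family is bounded on the hull -/
lemma hull_le (φ : ι → E n) (A : Set ι) (l : E n →L[ℝ] ℝ) (M : ℝ) (h : ∀ i ∈ A, l (φ i) ≤ M)
    {x : E n} (hx : x ∈ convexHull ℝ (φ '' A)) : l x ≤ M := by
  have : convexHull ℝ (φ '' A) ⊆ {x | l x ≤ M} := by
    apply convexHull_min
    · rintro _ ⟨i, hi, rfl⟩; exact h i hi
    · exact convex_halfSpace_le l.isLinear M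
  exact this hx

lemma hull_lt (φ : ι → E n) (A : Set ι) (l : E n →L[ℝ] ℝ) (M : ℝ) (h : ∀ i ∈ A, l (φ i) < M)
    {x : E n} (hx : x ∈ convexHull ℝ (φ '' A)) : l x < M := by
  have : convexHull ℝ (φ '' A) ⊆ {x | l x < M} := by
    apply convexHull_min
    · rintro _ ⟨i, hi, rfl⟩; exact h i hi
    · exact convex_halfSpace_lt l.isLinear M
  exact this hx

/-- the face of the hull of a finite family cut out by a functional -/
lemma face_eq [Fintype ι] (φ : ι → E n) (A : Set ι) (l : E n →L[ℝ] ℝ) (M : ℝ)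
    (hA : A.Nonempty)
    (h1 : ∀ i ∈ A, l (φ i) = M) (h2 : ∀ i ∉ A, l (φ i) < M) :
    {x ∈ convexHull ℝ (Set.range φ) | ∀ y ∈ convexHull ℝ (Set.range φ), l y ≤ l x}
      = convexHull ℝ (φ '' A) := by
  classical
  have hle : ∀ y ∈ convexHull ℝ (Set.range φ), l y ≤ M := by
    intro y hy
    rw [← Set.image_univ] at hy
    apply hull_le φ univ l M _ hy
    intro i _
    by_cases hi : i ∈ A
    · exact (h1 i hi).le
    · exact (h2 i hi).le
  apply Set.Subset.antisymm
  · rintro x ⟨hx, hmax⟩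
    obtain ⟨i0, hi0⟩ := hA
    have hxM : M ≤ l x := by
      rw [← h1 i0 hi0]
      exact hmax _ (subset_convexHull ℝ _ ⟨i0, rfl⟩)
    rw [convexHull_range_eq_exists_affineCombination] at hx
    obtain ⟨s, w, hw0, hw1, rfl⟩ := hx
    rw [Finset.affineCombination_eq_linear_combination s φ w hw1] at hxM ⊢
    have hzero : ∀ i ∈ s, i ∉ A → w i = 0 := by
      by_contra hcon
      push Not at hcon
      obtain ⟨j, hj, hjA, hwj⟩ := hcon
      have hwj' : 0 < w j := lt_of_le_of_ne (hw0 j hj) (Ne.symm hwj)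
      have : l (∑ i ∈ s, w i • φ i) < M := by
        rw [map_sum]
        calc ∑ i ∈ s, l (w i • φ i) = ∑ i ∈ s, w i * l (φ i) := by
              apply Finset.sum_congr rfl; intros; simp
          _ < ∑ i ∈ s, w i * M := by
              apply Finset.sum_lt_sum
              · intro i hi
                apply mul_le_mul_of_nonneg_left _ (hw0 i hi)
                by_cases hiA : i ∈ A
                · exact (h1 i hiA).le
                · exact (h2 i hiA).le
              · exact ⟨j, hj, mul_lt_mul_of_pos_left (h2 j hjA) hwj'⟩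
          _ = M := by rw [← Finset.sum_mul, hw1, one_mul]
      linarith
    -- now rewrite as combination over A
    have hsum : ∑ i ∈ s with i ∈ A, w i = 1 := by
      rw [← hw1]
      rw [Finset.sum_filter]
      apply Finset.sum_congr rfl
      intro i hi
      by_cases hiA : i ∈ A
      · simp [hiA]
      · simp [hiA, hzero i hi hiA]
    have heq : ∑ i ∈ s, w i • φ i = ∑ i ∈ s with i ∈ A, w i • φ i := by
      rw [Finset.sum_filter]
      apply Finset.sum_congr rfl
      intro i hi
      by_cases hiA : i ∈ A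
      · simp [hiA]
      · simp [hiA, hzero i hi hiA]
    rw [heq]
    apply (convex_convexHull ℝ (φ '' A)).sum_mem
    · intro i hi
      exact hw0 i (Finset.mem_filter.1 hi).1
    · exact hsum
    · intro i hi
      exact subset_convexHull ℝ _ ⟨i, (Finset.mem_filter.1 hi).2, rfl⟩
  · intro x hx
    have hxr : x ∈ convexHull ℝ (Set.range φ) :=
      convexHull_mono (Set.image_subset_range _ _) hx
    refine ⟨hxr, fun y hy => ?_⟩
    have hxM : M ≤ l x := by
      have := hull_le φ A (-l) (-M) (by intro i hi; simp [h1 i hi]) hx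
      simpa using this
    exact (hle y hy).trans hxM

end Pool.Agent.TH368.GK
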