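import Mathlib
import Pool.Agent.TH368.GKFaces

set_option autoImplicit false

namespace Pool.Agent.TH368.GK

open Set Filter Topology

variable {n : ℕ} {ι : Type*}

/-- vertices and edges of a graph as a poset of finsets -/
abbrev FG [DecidableEq ι] (G : SimpleGraph ι) :=
  {A : Finset ι // (∃ i, A = {i}) ∨ (∃ i j, G.Adj i j ∧ A = {i, j})}

abbrev Faces1 (n : ℕ) (C : Set (E n)) :=
  {F : Set (E n) // F.Nonempty ∧ IsExposed ℝ C F ∧ Module.finrank ℝ (vectorSpan ℝ F) ≤ 1}

lemma vectorSpan_hull (s : Set (E n)) : vectorSpan ℝ (convexHull ℝ s) = vectorSpan ℝ s := by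
  rw [← direction_affineSpan, affineSpan_convexHull, direction_affineSpan]

lemma not_between (φ : ι → E n) (i j k : ι) (hij : i ≠ j) (hkj : k ≠ j)
    (V : ∃ l : E n →L[ℝ] ℝ, ∀ t, t ≠ j → l (φ t) < l (φ j)) : ¬ Wbtw ℝ (φ i) (φ j) (φ k) := by
  rintro ⟨t, ⟨ht0, ht1⟩, ht⟩
  obtain ⟨l, hl⟩ := V
  have h1 := hl i hij
  have h2 := hl k hkj
  have h3 : l (φ j) = (1 - t) * l (φ i) + t * l (φ k) := by
    rw [← ht, AffineMap.lineMap_apply]
    simp only [vsub_eq_sub, vadd_eq_add, map_add, map_smul, map_sub, smul_eq_mul]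
    ring
  rcases eq_or_lt_of_le ht0 with h | h
  · rw [← h] at h3; linarith
  · nlinarith

theorem faces_iso [Fintype ι] [DecidableEq ι] (G : SimpleGraph ι) (φ : ι → E n)
    (V : ∀ i, ∃ l : E n →L[ℝ] ℝ, ∀ t, t ≠ i → l (φ t) < l (φ i))
    (Ed : ∀ i j, G.Adj i j → ∃ l : E n →L[ℝ] ℝ, l (φ i) = l (φ j) ∧
      ∀ t, t ≠ i → t ≠ j → l (φ t) < l (φ i))
    (NE : ∀ i j, i ≠ j → ¬ G.Adj i j → ¬ ∃ l : E n →L[ℝ] ℝ, l (φ i) = l (φ j) ∧
      ∀ t, t ≠ i → t ≠ j → l (φ t) < l (φ i)) :
    Nonempty (Faces1 n (convexHull ℝ (Set.range φ)) ≃o FG G) := by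
  classical
  have hface : ∀ A : FG G, ∃ l : E n →L[ℝ] ℝ, ∃ M : ℝ, (∀ i ∈ A.1, l (φ i) = M) ∧ ∀ i ∉ A.1, l (φ i) < M := by
    rintro ⟨A, ⟨i, rfl⟩ | ⟨i, j, hij, rfl⟩⟩
    · obtain ⟨l, hl⟩ := V i
      refine ⟨l, l (φ i), ?_, ?_⟩
      · intro t ht; rw [Finset.mem_singleton] at ht; rw [ht]
      · intro t ht; rw [Finset.mem_singleton] at ht; exact hl t ht
    · obtain ⟨l, hl1, hl⟩ := Ed i j hij
      refine ⟨l, l (φ i), ?_, ?_⟩
      · intro t ht; rw [Finset.mem_insert, Finset.mem_singleton] at ht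
        rcases ht with rfl | rfl
        · rfl
        · exact hl1.symm
      · intro t ht; rw [Finset.mem_insert, Finset.mem_singleton] at ht
        push Not at ht
        exact hl t ht.1 ht.2
  have hne : ∀ A : FG G, (A.1 : Set ι).Nonempty := by
    rintro ⟨A, ⟨i, rfl⟩ | ⟨i, j, hij, rfl⟩⟩
    · exact ⟨i, by simp⟩
    · exact ⟨i, by simp⟩
  have hrank : ∀ A : FG G, Module.finrank ℝ (vectorSpan ℝ (convexHull ℝ (φ '' (A.1 : Set ι)))) ≤ 1 := by
    rintro ⟨A, ⟨i, rfl⟩ | ⟨i, j, hij, rfl⟩⟩
    · rw [vectorSpan_hull, ← collinear_iff_finrank_le_one]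
      simp [collinear_singleton]
    · rw [vectorSpan_hull, ← collinear_iff_finrank_le_one]
      rw [Finset.coe_pair, Set.image_pair]
      exact collinear_pair ℝ _ _
  let f : FG G → Faces1 n (convexHull ℝ (Set.range φ)) := fun A =>
    ⟨convexHull ℝ (φ '' (A.1 : Set ι)), by
      refine ⟨((hne A).image φ).convexHull, ?_, hrank A⟩
      intro _
      obtain ⟨l, M, h1, h2⟩ := hface A
      exact ⟨l, (face_eq φ (A.1 : Set ι) l M (hne A) h1 h2).symm⟩⟩
  have hinj : ∀ A B : FG G, f A ≤ f B ↔ A ≤ B := by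
    intro A B
    constructor
    · intro h i hi
      by_contra hiB
      have hx : φ i ∈ convexHull ℝ (φ '' (B.1 : Set ι)) := by
        have h' : convexHull ℝ (φ '' (A.1 : Set ι)) ⊆ convexHull ℝ (φ '' (B.1 : Set ι)) := h
        exact h' (subset_convexHull ℝ _ ⟨i, hi, rfl⟩)
      obtain ⟨l, hl⟩ := V i
      have := hull_lt φ (B.1 : Set ι) l (l (φ i)) (fun t ht => hl t (fun h => hiB (h ▸ ht))) hx
      exact lt_irrefl _ this
    · intro h
      show convexHull ℝ (φ '' (A.1 : Set ι)) ⊆ convexHull ℝ (φ '' (B.1 : Set ι))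
      apply convexHull_mono
      apply Set.image_mono
      exact_mod_cast h
  have hsurj : Function.Surjective f := by
    rintro ⟨F, hF, hexp, hfr⟩
    obtain ⟨l, hl⟩ := hexp hF
    have hιne : Nonempty ι := by
      obtain ⟨x, hx⟩ := hF
      rw [hl] at hx
      by_contra hcon
      rw [not_nonempty_iff] at hcon
      have : convexHull ℝ (Set.range φ) = ∅ := by simpa using hcon
      rw [this] at hx
      exact hx.1
    obtain ⟨m, hm⟩ := Finite.exists_max (fun i => l (φ i))
    set M := l (φ m) with hM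
    set A : Finset ι := Finset.univ.filter (fun i => l (φ i) = M) with hA
    have hAne : (A : Set ι).Nonempty := ⟨m, by simp [hA, hM]⟩
    have hFA : F = convexHull ℝ (φ '' (A : Set ι)) := by
      rw [hl]
      apply face_eq φ (A : Set ι) l M hAne
      · intro i hi; simpa [hA] using hi
      · intro i hi
        have : l (φ i) ≠ M := by simpa [hA] using hi
        exact lt_of_le_of_ne (hm i) this
    have hcol : Collinear ℝ (φ '' (A : Set ι)) := by
      rw [collinear_iff_finrank_le_one, ← vectorSpan_hull, ← hFA]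
      exact hfr
    have h3 : ∀ i ∈ A, ∀ j ∈ A, ∀ k ∈ A, i ≠ j → j ≠ k → i ≠ k → False := by
      intro i hi j hj k hk hij hjk hik
      have hc : Collinear ℝ ({φ i, φ j, φ k} : Set (E n)) := by
        apply hcol.subset
        intro x hx
        simp only [Set.mem_insert_iff, Set.mem_singleton_iff] at hx
        rcases hx with rfl | rfl | rfl
        · exact ⟨i, hi, rfl⟩
        · exact ⟨j, hj, rfl⟩
        · exact ⟨k, hk, rfl⟩
      rcases hc.wbtw_or_wbtw_or_wbtw with h | h | h
      · exact not_between φ i j k hij hjk.symm (V j) h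
      · exact not_between φ j k i hjk hik (V k) h
      · exact not_between φ k i j hik.symm hij.symm (V i) h
    obtain ⟨i0, hi0⟩ := hAne
    by_cases hsing : ∀ j ∈ A, j = i0
    · have hAeq : A = {i0} := by
        ext j; constructor
        · intro hj; rw [Finset.mem_singleton]; exact hsing j hj
        · intro hj; rw [Finset.mem_singleton] at hj; rw [hj]; exact hi0
      refine ⟨⟨A, Or.inl ⟨i0, hAeq⟩⟩, ?_⟩
      apply Subtype.ext
      exact hFA.symm
    · push Not at hsing
      obtain ⟨j0, hj0, hne0⟩ := hsing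
      have hAeq : A = {i0, j0} := by
        ext j; constructor
        · intro hj
          rw [Finset.mem_insert, Finset.mem_singleton]
          by_contra hcon
          push Not at hcon
          exact h3 i0 hi0 j0 hj0 j hj hne0.symm (Ne.symm hcon.2) (Ne.symm hcon.1)
        · intro hj
          rw [Finset.mem_insert, Finset.mem_singleton] at hj
          rcases hj with rfl | rfl
          · exact hi0
          · exact hj0
      have hadj : G.Adj i0 j0 := by
        by_contra hcon
        apply NE i0 j0 hne0.symm hcon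
        have e1 : l (φ i0) = M := by simpa [hA] using hi0
        have e2 : l (φ j0) = M := by simpa [hA] using hj0
        refine ⟨l, by rw [e1, e2], ?_⟩
        intro t ht1 ht2
        rw [e1]
        have : t ∉ A := by rw [hAeq]; simp [ht1, ht2]
        have : l (φ t) ≠ M := by simpa [hA] using this
        exact lt_of_le_of_ne (hm t) this
      refine ⟨⟨A, Or.inr ⟨i0, j0, hadj, hAeq⟩⟩, ?_⟩
      apply Subtype.ext
      exact hFA.symm
  have hinj' : Function.Injective f := by
    intro A B h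
    apply le_antisymm
    · exact (hinj A B).1 (le_of_eq h)
    · exact (hinj B A).1 (le_of_eq h.symm)
  refine ⟨OrderIso.symm ⟨Equiv.ofBijective f ⟨hinj', hsurj⟩, ?_⟩⟩
  intro A B
  exact hinj A B

end Pool.Agent.TH368.GK
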