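import Mathlib
import Pool.Agent.TH368.GKIso

set_option autoImplicit false

namespace Pool.Agent.TH368.GK

open Set Filter Topology

variable {n : ℕ} {ι : Type*}

/-- the data on a realization of `G` as the graph of a full dimensional polytope used in the proof -/
structure Real9 (n : ℕ) {ι : Type*} (G : SimpleGraph ι) (φ : ι → E n) : Prop where
  V : ∀ i, ∃ l : E n →L[ℝ] ℝ, ∀ t, t ≠ i → l (φ t) < l (φ i)
  Ed : ∀ i j, G.Adj i j → ∃ l : E n →L[ℝ] ℝ, l (φ i) = l (φ j) ∧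
      ∀ t, t ≠ i → t ≠ j → l (φ t) < l (φ i)
  LP : ∀ i (c : E n →L[ℝ] ℝ), (∃ t, c (φ i) < c (φ t)) → ∃ j, G.Adj i j ∧ c (φ i) < c (φ j)
  Span : ∀ c : E n →L[ℝ] ℝ, (∀ i j, c (φ i) = c (φ j)) → c = 0

section

variable (R : Finset (E n))

lemma hullR_eq : convexHull ℝ (R : Set (E n)) = convexHull ℝ ((fun x : E n => x) '' (R : Set (E n))) := by
  simp

/-- face of `conv R` cut out by a functional -/
lemma faceR (l : E n →L[ℝ] ℝ) (M : ℝ) (A : Set (E n)) (hAR : A ⊆ R) (hA : A.Nonempty)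
    (h1 : ∀ x ∈ A, l x = M) (h2 : ∀ x ∈ R, x ∉ A → l x < M) :
    {x ∈ convexHull ℝ (R : Set (E n)) | ∀ y ∈ convexHull ℝ (R : Set (E n)), l y ≤ l x}
      = convexHull ℝ A := by
  have hr : Set.range (fun x : (R : Set (E n)) => (x : E n)) = (R : Set (E n)) := Subtype.range_coe
  have := face_eq (fun x : (R : Set (E n)) => (x : E n)) {x | (x : E n) ∈ A} l M
    (by obtain ⟨a, ha⟩ := hA; exact ⟨⟨a, hAR ha⟩, ha⟩)
    (by rintro ⟨x, hx⟩ hxA; exact h1 x hxA)
    (by rintro ⟨x, hx⟩ hxA; exact h2 x hx hxA)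
  rw [hr] at this
  rw [this]
  congr 1
  ext x
  constructor
  · rintro ⟨y, hy, rfl⟩; exact hy
  · intro hx; exact ⟨⟨x, hAR hx⟩, hx, rfl⟩

lemma maxR (hR : R.Nonempty) (l : E n →L[ℝ] ℝ) : ∃ m ∈ R, ∀ x ∈ R, l x ≤ l m :=
  R.exists_max_image (fun x => l x) hR

lemma hullR_le (l : E n →L[ℝ] ℝ) (M : ℝ) (h : ∀ x ∈ R, l x ≤ M) {x : E n}
    (hx : x ∈ convexHull ℝ (R : Set (E n))) : l x ≤ M := by
  rw [hullR_eq] at hx
  exact hull_le (fun x : E n => x) (R : Set (E n)) l M (fun x hx => h x hx) hx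

lemma R_of_exposed {l : E n →L[ℝ] ℝ} {F : Set (E n)}
    (hl : F = {x ∈ convexHull ℝ (R : Set (E n)) | ∀ y ∈ convexHull ℝ (R : Set (E n)), l y ≤ l x})
    (hF : F.Nonempty) : R.Nonempty := by
  obtain ⟨x, hx⟩ := hF
  rw [hl] at hx
  by_contra hcon
  rw [Finset.not_nonempty_iff_eq_empty] at hcon
  subst hcon
  simp at hx

/-- every nonempty exposed face contains an exposed point of R -/
lemma exists_vertex {F : Set (E n)} (hF : F.Nonempty) (hexp : IsExposed ℝ (convexHull ℝ (R : Set (E n))) F) :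
    ∃ r ∈ R, r ∈ F ∧ IsExposed ℝ (convexHull ℝ (R : Set (E n))) {r} := by
  classical
  obtain ⟨l, hl⟩ := hexp hF
  have hRne := R_of_exposed R hl hF
  obtain ⟨m, hmR, hm⟩ := maxR R hRne l
  obtain ⟨g, hg⟩ := generic_functional (fun p : R × R => (p.1 : E n) - (p.2 : E n))
  set A := R.filter (fun x => l x = l m) with hA
  obtain ⟨r, hrA, hr⟩ := A.exists_max_image (fun x => g x) ⟨m, by simp [hA, hmR]⟩
  have hrR : r ∈ R := (Finset.mem_filter.1 hrA).1
  have hrm : l r = l m := (Finset.mem_filter.1 hrA).2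
  have hlt : ∀ᶠ ε in 𝓝[>] (0:ℝ), ∀ x ∈ R, x ≠ r → l x + ε * g x < l r + ε * g r := by
    rw [Filter.eventually_all_finset]
    intro x hx
    by_cases hxr : x = r
    · simp [hxr]
    · by_cases hxA : x ∈ A
      · have h1 : l x = l m := (Finset.mem_filter.1 hxA).2
        have h2 : g x < g r := by
          apply lt_of_le_of_ne (hr x hxA)
          intro h
          have := hg (⟨x, hx⟩, ⟨r, hrR⟩) (by simpa [sub_eq_zero] using hxr)
          apply this
          simp [h]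
        filter_upwards [ev_lt' (a := l x) (b := l r) (by rw [h1, hrm]) h2] with ε hε _
        exact hε
      · have h1 : l x ≠ l m := by simpa [hA, hx] using hxA
        have h2 : l x < l r := by rw [hrm]; exact lt_of_le_of_ne (hm x hx) h1
        filter_upwards [ev_lt (c := g x) (d := g r) h2] with ε hε _
        exact hε
  obtain ⟨ε, hε⟩ := hlt.exists
  refine ⟨r, hrR, ?_, ?_⟩
  · rw [hl]
    refine ⟨subset_convexHull ℝ _ hrR, fun y hy => ?_⟩
    exact hullR_le R l (l r) (fun x hx => by rw [hrm]; exact hm x hx) hy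
  · intro _
    refine ⟨l + ε • g, ?_⟩
    rw [faceR R (l + ε • g) (l r + ε * g r) {r} (by simpa using hrR) ⟨r, rfl⟩]
    · simp
    · intro x hx; rw [Set.mem_singleton_iff] at hx; subst hx; simp
    · intro x hx hxr
      simpa using hε x hx (by simpa using hxr)

/-- functional exposing a vertex -/
lemma vertex_functional {v : E n} (hexp : IsExposed ℝ (convexHull ℝ (R : Set (E n))) {v}) :
    v ∈ R ∧ ∃ h : E n →L[ℝ] ℝ, ∀ x ∈ R, x ≠ v → h x < h v := by
  obtain ⟨r, hrR, hrv, _⟩ := exists_vertex R (Set.singleton_nonempty v) hexp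
  rw [Set.mem_singleton_iff] at hrv
  subst hrv
  refine ⟨hrR, ?_⟩
  obtain ⟨h, hh⟩ := hexp (Set.singleton_nonempty r)
  refine ⟨h, fun x hx hxr => ?_⟩
  have hr : r ∈ ({r} : Set (E n)) := rfl
  have hr2 := hr
  rw [hh] at hr2
  have h1 : h x ≤ h r := hr2.2 x (subset_convexHull ℝ _ hx)
  rcases lt_or_eq_of_le h1 with h2 | h2
  · exact h2
  · exfalso
    apply hxr
    have : x ∈ ({r} : Set (E n)) := by
      rw [hh]
      refine ⟨subset_convexHull ℝ _ hx, fun y hy => ?_⟩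
      rw [h2]; exact hr2.2 y hy
    exact this

end

end Pool.Agent.TH368.GK
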