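import Mathlib
import Pool.Agent.TH368.GKReal

set_option autoImplicit false

namespace Pool.Agent.TH368.GK

open Set Filter Topology

variable {n : ℕ} {ι : Type*}

/-- the pivoting lemma: at a vertex `v` which does not maximize `c`, there is a one dimensional
exposed face through `v` along which `c` strictly increases -/
lemma pivot (R : Finset (E n)) {v : E n} (hv : v ∈ R) (h0 : E n →L[ℝ] ℝ)
    (hh0 : ∀ x ∈ R, x ≠ v → h0 x < h0 v) (c : E n →L[ℝ] ℝ) (hc : ∃ x ∈ R, c v < c x) :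
    ∃ F : Set (E n), v ∈ F ∧ IsExposed ℝ (convexHull ℝ (R : Set (E n))) F ∧
      Module.finrank ℝ (vectorSpan ℝ F) ≤ 1 ∧ (∀ x ∈ R, x ∈ F → x ≠ v → c v < c x) ∧
      ∃ x ∈ R, x ∈ F ∧ x ≠ v := by
  classical
  set U := R.filter (fun x => c v < c x) with hU
  have hUne : U.Nonempty := by
    obtain ⟨x, hx, hcx⟩ := hc
    exact ⟨x, by simp [hU, hx, hcx]⟩
  have hUR : ∀ x ∈ U, x ∈ R := fun x hx => (Finset.mem_filter.1 hx).1
  have hUc : ∀ x ∈ U, c v < c x := fun x hx => (Finset.mem_filter.1 hx).2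
  -- direction of x from v normalised by c
  let d : E n → E n := fun x => (c x - c v)⁻¹ • (x - v)
  obtain ⟨g, hg⟩ := generic_functional (fun p : U × U => d p.1 - d p.2)
  have h1 : ∀ᶠ ε in 𝓝[>] (0:ℝ), ∀ x ∈ R, x ≠ v → h0 x + ε * g x < h0 v + ε * g v := by
    rw [Filter.eventually_all_finset]
    intro x hx
    by_cases hxv : x = v
    · simp [hxv]
    · filter_upwards [ev_lt (c := g x) (d := g v) (hh0 x hx hxv)] with ε hε _
      exact hε
  have h2 : ∀ᶠ ε in 𝓝[>] (0:ℝ), ∀ p ∈ U ×ˢ U, d p.1 - d p.2 ≠ 0 →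
      h0 (d p.1 - d p.2) + ε * g (d p.1 - d p.2) ≠ 0 := by
    rw [Filter.eventually_all_finset]
    rintro ⟨x, y⟩ hxy
    rw [Finset.mem_product] at hxy
    by_cases hd : d x - d y = 0
    · simp [hd]
    · filter_upwards [ev_ne (a := h0 (d x - d y)) (hg (⟨x, hxy.1⟩, ⟨y, hxy.2⟩) hd)] with ε hε _
      exact hε
  obtain ⟨ε, hε1, hε2⟩ := (h1.and h2).exists
  set h : E n →L[ℝ] ℝ := h0 + ε • g with hh
  have hv1 : ∀ x ∈ R, x ≠ v → h x < h v := by
    intro x hx hxv
    simpa [hh] using hε1 x hx hxv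
  have hv2 : ∀ x ∈ U, ∀ y ∈ U, h (d x) = h (d y) → d x = d y := by
    intro x hx y hy hxy
    by_contra hcon
    have := hε2 (x, y) (Finset.mem_product.2 ⟨hx, hy⟩) (sub_ne_zero.2 hcon)
    apply this
    have : h (d x - d y) = 0 := by rw [map_sub, hxy, sub_self]
    simpa [hh] using this
  -- maximize h (d x) over U (it is negative)
  obtain ⟨r, hrU, hr⟩ := U.exists_max_image (fun x => h (d x)) hUne
  set t : ℝ := - h (d r) with ht
  have hdx : ∀ x ∈ U, h (d x) = (c x - c v)⁻¹ * (h x - h v) := by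
    intro x _; simp [d]
  have hneg : ∀ x ∈ U, h (d x) < 0 := by
    intro x hx
    rw [hdx x hx]
    have h3 : 0 < c x - c v := sub_pos.2 (hUc x hx)
    have h4 : h x - h v < 0 := by
      have : x ≠ v := by
        rintro rfl
        exact lt_irrefl _ (hUc x hx)
      have := hv1 x (hUR x hx) this
      linarith
    exact mul_neg_of_pos_of_neg (inv_pos.2 h3) h4
  have htpos : 0 < t := by rw [ht]; have := hneg r hrU; linarith
  set l : E n →L[ℝ] ℝ := h + t • c with hl
  have hlx : ∀ x, l x = h x + t * c x := by intro x; simp [hl]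
  have hkey : ∀ x ∈ U, l x - l v = (c x - c v) * (h (d x) + t) := by
    intro x hx
    rw [hdx x hx, hlx, hlx]
    have h3 : c x - c v ≠ 0 := (sub_pos.2 (hUc x hx)).ne'
    field_simp
    ring
  have hnotU : ∀ x ∈ R, x ∉ U → x ≠ v → l x < l v := by
    intro x hx hxU hxv
    have h3 : ¬ c v < c x := by simpa [hU, hx] using hxU
    push Not at h3
    have h4 := hv1 x hx hxv
    rw [hlx, hlx]
    nlinarith
  set A : Set (E n) := {x | x = v ∨ (x ∈ U ∧ h (d x) = h (d r))} with hA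
  have hAR : A ⊆ (R : Set (E n)) := by
    rintro x (rfl | ⟨hx, _⟩)
    · exact hv
    · exact hUR x hx
  have hAne : A.Nonempty := ⟨v, Or.inl rfl⟩
  have hA1 : ∀ x ∈ A, l x = l v := by
    rintro x (rfl | ⟨hx, hx2⟩)
    · rfl
    · have := hkey x hx
      rw [hx2, ht] at this
      simp at this
      linarith
  have hA2 : ∀ x ∈ R, x ∉ A → l x < l v := by
    intro x hx hxA
    have hxv : x ≠ v := fun h => hxA (Or.inl h)
    by_cases hxU : x ∈ U
    · have h3 : h (d x) ≠ h (d r) := fun h => hxA (Or.inr ⟨hxU, h⟩)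
      have h4 : h (d x) < h (d r) := lt_of_le_of_ne (hr x hxU) h3
      have h5 := hkey x hxU
      have h6 : 0 < c x - c v := sub_pos.2 (hUc x hxU)
      have h7 : h (d x) + t < 0 := by rw [ht]; linarith
      nlinarith
    · exact hnotU x hx hxU hxv
  have hface := faceR R l (l v) A hAR hAne hA1 hA2
  refine ⟨convexHull ℝ A, subset_convexHull ℝ _ (Or.inl rfl), ?_, ?_, ?_, ?_⟩
  · intro _
    exact ⟨l, hface.symm⟩
  · rw [vectorSpan_hull, ← collinear_iff_finrank_le_one, collinear_iff_of_mem (p₀ := v) (Or.inl rfl)]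
    refine ⟨d r, ?_⟩
    rintro x (rfl | ⟨hx, hx2⟩)
    · exact ⟨0, by simp⟩
    · refine ⟨c x - c v, ?_⟩
      have h3 : d x = d r := hv2 x hx r hrU hx2
      rw [← h3]
      have h4 : c x - c v ≠ 0 := (sub_pos.2 (hUc x hx)).ne'
      simp only [d, vadd_eq_add]
      rw [smul_smul, mul_inv_cancel₀ h4, one_smul, sub_add_cancel]
  · intro x hx hxF hxv
    have hxA : x ∈ A := by
      by_contra hcon
      have h3 := hA2 x hx hcon
      have h4 : l v ≤ l x := by
        have : x ∈ {x ∈ convexHull ℝ (R : Set (E n)) | ∀ y ∈ convexHull ℝ (R : Set (E n)), l y ≤ l x} := by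
          rw [hface]; exact hxF
        exact this.2 v (subset_convexHull ℝ _ hv)
      linarith
    rcases hxA with h3 | ⟨h3, _⟩
    · exact absurd h3 hxv
    · exact hUc x h3
  · refine ⟨r, hUR r hrU, subset_convexHull ℝ _ (Or.inr ⟨hrU, rfl⟩), ?_⟩
    rintro rfl
    exact lt_irrefl _ (hUc r hrU)

theorem real_of_iso [Fintype ι] [DecidableEq ι] [Nonempty ι] (G : SimpleGraph ι) (R : Finset (E n))
    (hspan : affineSpan ℝ (R : Set (E n)) = ⊤)
    (e : FG G ≃o Faces1 n (convexHull ℝ (R : Set (E n)))) :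
    ∃ φ : ι → E n, Real9 n G φ := by
  classical
  have hsing : ∀ i : ι, ∃ r : E n, (e ⟨{i}, Or.inl ⟨i, rfl⟩⟩).1 = {r} ∧
      IsExposed ℝ (convexHull ℝ (R : Set (E n))) {r} := by
    intro i
    set A : FG G := ⟨{i}, Or.inl ⟨i, rfl⟩⟩ with hA
    obtain ⟨r, hrR, hrF, hrexp⟩ := exists_vertex R (e A).2.1 (e A).2.2.1
    let Fr : Faces1 n (convexHull ℝ (R : Set (E n))) := ⟨{r}, Set.singleton_nonempty r, hrexp, by
      rw [← collinear_iff_finrank_le_one]; exact collinear_singleton ℝ r⟩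
    have h1 : Fr ≤ e A := by
      show ({r} : Set (E n)) ⊆ (e A).1
      simpa using hrF
    have h2 : e.symm Fr ≤ A := by
      rw [← e.symm_apply_apply A]
      exact e.symm.monotone h1
    have h3 : e.symm Fr = A := by
      apply Subtype.ext
      have h4 : (e.symm Fr).1 ⊆ {i} := h2
      have h5 : (e.symm Fr).1.Nonempty := by
        rcases (e.symm Fr).2 with ⟨j, hj⟩ | ⟨j, k, _, hj⟩ <;> rw [hj] <;> simp
      rcases Finset.subset_singleton_iff.1 h4 with h6 | h6
      · rw [h6] at h5; simp at h5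
      · exact h6
    refine ⟨r, ?_, hrexp⟩
    rw [← h3, e.apply_symm_apply]
  choose φ hφ hφexp using hsing
  have hφR : ∀ i, φ i ∈ R := fun i => (vertex_functional R (hφexp i)).1
  have hinj : Function.Injective φ := by
    intro i j hij
    have h1 : e ⟨{i}, Or.inl ⟨i, rfl⟩⟩ = e ⟨{j}, Or.inl ⟨j, rfl⟩⟩ := by
      apply Subtype.ext
      rw [hφ, hφ, hij]
    have h2 := e.injective h1
    have h3 : ({i} : Finset ι) = {j} := congrArg Subtype.val h2
    simpa using h3
  have hmem : ∀ (i : ι) (A : FG G), φ i ∈ (e A).1 ↔ i ∈ A.1 := by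
    intro i A
    have h1 : (e ⟨{i}, Or.inl ⟨i, rfl⟩⟩ ≤ e A) ↔ φ i ∈ (e A).1 := by
      show (e ⟨{i}, Or.inl ⟨i, rfl⟩⟩).1 ⊆ (e A).1 ↔ _
      rw [hφ]; simp
    rw [← h1, e.le_iff_le]
    show ({i} : Finset ι) ⊆ A.1 ↔ _
    simp
  have hLP : ∀ i (c : E n →L[ℝ] ℝ), (∃ x ∈ R, c (φ i) < c x) → ∃ j, G.Adj i j ∧ c (φ i) < c (φ j) := by
    intro i c hc
    obtain ⟨_, h0, hh0⟩ := vertex_functional R (hφexp i)
    obtain ⟨F, hvF, hFexp, hFfr, hFc, x, hxR, hxF, hxv⟩ := pivot R (hφR i) h0 hh0 c hc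
    let F' : Faces1 n (convexHull ℝ (R : Set (E n))) := ⟨F, ⟨_, hvF⟩, hFexp, hFfr⟩
    have h1 : i ∈ (e.symm F').1 := by
      rw [← hmem, e.apply_symm_apply]; exact hvF
    have h2 : (e.symm F').1 ≠ {i} := by
      intro hcon
      have h3 : e.symm F' = ⟨{i}, Or.inl ⟨i, rfl⟩⟩ := Subtype.ext hcon
      have h4 : F' = e ⟨{i}, Or.inl ⟨i, rfl⟩⟩ := by rw [← h3, e.apply_symm_apply]
      have h5 : F = {φ i} := by
        have := congrArg Subtype.val h4
        rw [hφ] at this
        exact this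
      rw [h5] at hxF
      exact hxv hxF
    rcases (e.symm F').2 with ⟨j, hj⟩ | ⟨j, k, hjk, hj⟩
    · rw [hj, Finset.mem_singleton] at h1
      exact absurd (by rw [hj, h1]) h2
    · have hj' : φ j ∈ F := by
        have := (hmem j (e.symm F')).2 (by rw [hj]; simp)
        rwa [e.apply_symm_apply] at this
      have hk' : φ k ∈ F := by
        have := (hmem k (e.symm F')).2 (by rw [hj]; simp)
        rwa [e.apply_symm_apply] at this
      rw [hj, Finset.mem_insert, Finset.mem_singleton] at h1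
      rcases h1 with rfl | rfl
      · exact ⟨k, hjk, hFc _ (hφR k) hk' (fun h => hjk.ne (hinj h).symm)⟩
      · exact ⟨j, hjk.symm, hFc _ (hφR j) hj' (fun h => hjk.ne (hinj h))⟩
  refine ⟨φ, ?_, ?_, ?_, ?_⟩
  · intro i
    obtain ⟨_, h, hh⟩ := vertex_functional R (hφexp i)
    exact ⟨h, fun t ht => hh _ (hφR t) (fun h => ht (hinj h))⟩
  · intro i j hij
    set A : FG G := ⟨{i, j}, Or.inr ⟨i, j, hij, rfl⟩⟩ with hA
    obtain ⟨l, hl⟩ := (e A).2.2.1 (e A).2.1
    have hi : φ i ∈ (e A).1 := (hmem i A).2 (by simp [hA])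
    have hj : φ j ∈ (e A).1 := (hmem j A).2 (by simp [hA])
    have hi' := hi
    have hj' := hj
    rw [hl] at hi' hj'
    refine ⟨l, le_antisymm (hj'.2 _ hi'.1) (hi'.2 _ hj'.1), ?_⟩
    intro t hti htj
    have ht : φ t ∉ (e A).1 := by
      rw [hmem]; simp [hA, hti, htj]
    have htR := subset_convexHull ℝ (R : Set (E n)) (hφR t)
    rcases lt_or_eq_of_le (hi'.2 _ htR) with h | h
    · exact h
    · exfalso
      apply ht
      rw [hl]
      exact ⟨htR, fun y hy => by rw [h]; exact hi'.2 y hy⟩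
  · rintro i c ⟨t, ht⟩
    exact hLP i c ⟨φ t, hφR t, ht⟩
  · intro c hc
    obtain ⟨i0⟩ := (inferInstance : Nonempty ι)
    have h1 : ∀ x ∈ R, c x ≤ c (φ i0) := by
      intro x hx
      by_contra hcon
      push Not at hcon
      obtain ⟨j, _, hj⟩ := hLP i0 c ⟨x, hx, hcon⟩
      have := hc i0 j
      linarith
    have h2 : ∀ x ∈ R, c (φ i0) ≤ c x := by
      intro x hx
      by_contra hcon
      push Not at hcon
      obtain ⟨j, _, hj⟩ := hLP i0 (-c) ⟨x, hx, by simpa using hcon⟩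
      have := hc i0 j
      simp at hj
      linarith
    have h3 : ∀ x ∈ (R : Set (E n)), c x = c (φ i0) := fun x hx => le_antisymm (h1 x hx) (h2 x hx)
    have h4 : ∀ x ∈ affineSpan ℝ (R : Set (E n)), c x = c (φ i0) := by
      intro x hx
      have : affineSpan ℝ (R : Set (E n)) ≤ (AffineSubspace.mk' (φ i0) (LinearMap.ker (c : E n →ₗ[ℝ] ℝ))) := by
        rw [affineSpan_le]
        intro y hy
        rw [SetLike.mem_coe, AffineSubspace.mem_mk']
        simp [h3 y hy]
      have h5 := this hx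
      rw [AffineSubspace.mem_mk'] at h5
      simp at h5
      linarith
    rw [hspan] at h4
    ext x
    have h5 := h4 x (AffineSubspace.mem_top ℝ _ _)
    have h6 := h4 0 (AffineSubspace.mem_top ℝ _ _)
    simp at h6
    simp [h5, ← h6]

end Pool.Agent.TH368.GK
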