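import Mathlib
import Pool.Agent.TH368.GKReal2

set_option autoImplicit false

namespace Pool.Agent.TH368.GK

open Set Filter Topology

variable {n : ℕ} {ι : Type*}

lemma Real9.max_mem [Fintype ι] {G : SimpleGraph ι} {φ : ι → E n} (hR : Real9 n G φ) (K S : Set ι)
    (hcl : ∀ k ∈ K, ∀ j, G.Adj k j → j ∈ K ∨ j ∈ S) {i m : ι} (hi : i ∈ K)
    (c : E n →L[ℝ] ℝ) (h1 : ∀ s ∈ S, c (φ s) < c (φ i)) (hm : ∀ t, t ≠ m → c (φ t) < c (φ m)) :
    m ∈ K := by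
  classical
  obtain ⟨k, hkK, hk⟩ := (Finset.univ.filter (fun t => t ∈ K)).exists_max_image (fun t => c (φ t))
    ⟨i, by simp [hi]⟩
  have hkK' : k ∈ K := by simpa using hkK
  have hki : c (φ i) ≤ c (φ k) := hk i (by simp [hi])
  by_cases hkm : k = m
  · rw [← hkm]; exact hkK'
  · obtain ⟨j, hj, hcj⟩ := hR.LP k c ⟨m, hm k hkm⟩
    rcases hcl k hkK' j hj with h | h
    · have := hk j (by simp [h])
      linarith
    · have := h1 j h
      linarith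

theorem Real9.sep [Fintype ι] {G : SimpleGraph ι} {φ : ι → E n} (hR : Real9 n G φ) (K S : Set ι)
    (hcl : ∀ k ∈ K, ∀ j, G.Adj k j → j ∈ K ∨ j ∈ S) {i i' : ι} (hi : i ∈ K)
    (hi' : i' ∉ K) (hi'S : i' ∉ S)
    (c : E n →L[ℝ] ℝ) (h1 : ∀ s ∈ S, c (φ s) < c (φ i)) (h2 : ∀ s ∈ S, c (φ s) ≤ c (φ i')) :
    False := by
  classical
  have hinj : Function.Injective φ := by
    intro a b hab
    by_contra hne
    obtain ⟨l, hl⟩ := hR.V b
    have := hl a hne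
    rw [hab] at this
    exact lt_irrefl _ this
  obtain ⟨h, hh⟩ := hR.V i'
  have e1 : ∀ᶠ ε in 𝓝[>] (0:ℝ), ∀ s : ι, s ∈ S → c (φ s) + ε * h (φ s) < c (φ i) + ε * h (φ i) := by
    rw [Filter.eventually_all]
    intro s
    by_cases hs : s ∈ S
    · filter_upwards [ev_lt (c := h (φ s)) (d := h (φ i)) (h1 s hs)] with ε hε _
      exact hε
    · simp [hs]
  have e2 : ∀ᶠ ε in 𝓝[>] (0:ℝ), ∀ s : ι, s ∈ S → c (φ s) + ε * h (φ s) < c (φ i') + ε * h (φ i') := by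
    rw [Filter.eventually_all]
    intro s
    by_cases hs : s ∈ S
    · have hne : s ≠ i' := fun hcon => hi'S (hcon ▸ hs)
      filter_upwards [ev_lt' (h2 s hs) (hh s hne)] with ε hε _
      exact hε
    · simp [hs]
  obtain ⟨ε, hε1, hε2⟩ := (e1.and e2).exists
  set c1 : E n →L[ℝ] ℝ := c + ε • h with hc1
  have k1 : ∀ s ∈ S, c1 (φ s) < c1 (φ i) := by intro s hs; simpa [hc1] using hε1 s hs
  have k2 : ∀ s ∈ S, c1 (φ s) < c1 (φ i') := by intro s hs; simpa [hc1] using hε2 s hs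
  obtain ⟨g, hg⟩ := generic_functional (fun p : ι × ι => φ p.1 - φ p.2)
  have e3 : ∀ᶠ ε in 𝓝[>] (0:ℝ), ∀ s : ι, s ∈ S → c1 (φ s) + ε * g (φ s) < c1 (φ i) + ε * g (φ i) := by
    rw [Filter.eventually_all]
    intro s
    by_cases hs : s ∈ S
    · filter_upwards [ev_lt (c := g (φ s)) (d := g (φ i)) (k1 s hs)] with ε hε _
      exact hε
    · simp [hs]
  have e4 : ∀ᶠ ε in 𝓝[>] (0:ℝ), ∀ s : ι, s ∈ S → c1 (φ s) + ε * g (φ s) < c1 (φ i') + ε * g (φ i') := by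
    rw [Filter.eventually_all]
    intro s
    by_cases hs : s ∈ S
    · filter_upwards [ev_lt (c := g (φ s)) (d := g (φ i')) (k2 s hs)] with ε hε _
      exact hε
    · simp [hs]
  have e5 : ∀ᶠ ε in 𝓝[>] (0:ℝ), ∀ p : ι × ι, p.1 ≠ p.2 →
      c1 (φ p.1 - φ p.2) + ε * g (φ p.1 - φ p.2) ≠ 0 := by
    rw [Filter.eventually_all]
    rintro ⟨a, b⟩
    by_cases hab : a = b
    · simp [hab]
    · have : φ a - φ b ≠ 0 := sub_ne_zero.2 (fun h => hab (hinj h))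
      filter_upwards [ev_ne (a := c1 (φ a - φ b)) (hg (a, b) this)] with ε hε _
      exact hε
  obtain ⟨δ, ⟨hδ3, hδ4⟩, hδ5⟩ := ((e3.and e4).and e5).exists
  set c2 : E n →L[ℝ] ℝ := c1 + δ • g with hc2
  have m1 : ∀ s ∈ S, c2 (φ s) < c2 (φ i) := by intro s hs; simpa [hc2] using hδ3 s hs
  have m2 : ∀ s ∈ S, c2 (φ s) < c2 (φ i') := by intro s hs; simpa [hc2] using hδ4 s hs
  have m3 : ∀ a b, a ≠ b → c2 (φ a) ≠ c2 (φ b) := by
    intro a b hab hcon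
    apply hδ5 (a, b) hab
    have : c2 (φ a - φ b) = 0 := by rw [map_sub, hcon, sub_self]
    simpa [hc2] using this
  obtain ⟨m, _, hm⟩ := Finset.univ.exists_max_image (fun t => c2 (φ t)) ⟨i, Finset.mem_univ i⟩
  have hm' : ∀ t, t ≠ m → c2 (φ t) < c2 (φ m) := by
    intro t ht
    exact lt_of_le_of_ne (hm t (Finset.mem_univ t)) (m3 t m ht)
  have hmK : m ∈ K := hR.max_mem K S hcl hi c2 m1 hm'
  have hmK' : m ∈ {t | t ∉ K ∧ t ∉ S} := by
    apply hR.max_mem {t | t ∉ K ∧ t ∉ S} S _ (i := i') ⟨hi', hi'S⟩ c2 m2 hm'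
    rintro k ⟨hkK, hkS⟩ j hj
    by_cases hjS : j ∈ S
    · exact Or.inr hjS
    · left
      refine ⟨fun hjK => ?_, hjS⟩
      rcases hcl j hjK k hj.symm with h | h
      · exact hkK h
      · exact hkS h
  exact hmK'.1 hmK

end Pool.Agent.TH368.GK
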