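import Mathlib
import Pool.Agent.TH368.GKSep

set_option autoImplicit false

namespace Pool.Agent.TH368.GK

/-- vertices: core vertices `c x`, gadget apexes `z x`, and the second level vertices `w x j` -/
inductive Vx
  | c (x : Fin 11)
  | z (x : Fin 11)
  | w (x : Fin 11) (j : Fin 9)
  deriving DecidableEq, Fintype

/-- the nine offsets 1,2,3,5,6,7,8,9,10 -/
def off (j : Fin 9) : Fin 11 := if j.val < 3 then Fin.ofNat 11 (j.val + 1) else Fin.ofNat 11 (j.val + 2)

def adjB : Vx → Vx → Bool
  | .c x, .c y => x != y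
  | .c u, .z x => u != x
  | .z x, .c u => u != x
  | .c u, .w x j => u != x && u != x + off j
  | .w x j, .c u => u != x && u != x + off j
  | .z x, .w x' _ => x == x'
  | .w x' _, .z x => x == x'
  | .z _, .z _ => false
  | .w _ _, .w _ _ => false

def GG : SimpleGraph Vx where
  Adj a b := adjB a b = true
  symm := by
    constructor
    intro a b h
    have hs : adjB b a = adjB a b := by
      cases a <;> cases b <;> first | rfl | exact bne_comm
    rw [hs]; exact h
  loopless := by
    constructor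
    intro a h
    cases a <;> simp [adjB] at h

lemma off_ne (j : Fin 9) : off j ≠ 0 := by revert j; decide
lemma off_surj : ∀ d : Fin 11, d ≠ 0 → d ≠ 4 → ∃ j, off j = d := by decide
lemma off_inj : ∀ i j : Fin 9, off i = off j → i = j := by decide

lemma adj_cc {x y : Fin 11} : GG.Adj (.c x) (.c y) ↔ x ≠ y := by simp [GG, adjB]
lemma adj_zc {x y : Fin 11} : GG.Adj (.z x) (.c y) ↔ y ≠ x := by simp [GG, adjB]
lemma adj_wc {x y : Fin 11} {j : Fin 9} : GG.Adj (.w x j) (.c y) ↔ y ≠ x ∧ y ≠ x + off j := by simp [GG, adjB]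
lemma adj_wz {x y : Fin 11} {j : Fin 9} : GG.Adj (.w x j) (.z y) ↔ y = x := by simp [GG, adjB]
lemma adj_zw {x y : Fin 11} {j : Fin 9} : GG.Adj (.z y) (.w x j) ↔ y = x := by simp [GG, adjB]
lemma adj_zz {x y : Fin 11} : ¬ GG.Adj (.z x) (.z y) := by simp [GG, adjB]
lemma adj_ww {x y : Fin 11} {i j : Fin 9} : ¬ GG.Adj (.w x i) (.w y j) := by simp [GG, adjB]

end Pool.Agent.TH368.GK
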