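import Mathlib
import Pool.Agent.TH368.GKGraph

set_option autoImplicit false

namespace Pool.Agent.TH368.GK

open Set Filter Topology Vx

/-- the gadget component of `x` -/
def AA (x : Fin 11) : Set Vx := {v | v = .z x ∨ ∃ j, v = .w x j}

def Core : Set Vx := {v | ∃ u, v = .c u}

def Sx (x : Fin 11) : Set Vx := {v | ∃ u, u ≠ x ∧ v = .c u}

lemma clos_core (x : Fin 11) : ∀ k ∈ AA x, ∀ j, GG.Adj k j → j ∈ AA x ∨ j ∈ Core := by
  rintro k (rfl | ⟨i, rfl⟩) j hj
  · cases j with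
    | c u => right; exact ⟨u, rfl⟩
    | z y => exact absurd hj adj_zz
    | w y i => left; right; rw [adj_zw] at hj; subst hj; exact ⟨i, rfl⟩
  · cases j with
    | c u => right; exact ⟨u, rfl⟩
    | z y => left; left; rw [adj_wz] at hj; subst hj; rfl
    | w y i => exact absurd hj adj_ww

lemma clos_Sx (x : Fin 11) : ∀ k ∈ AA x, ∀ j, GG.Adj k j → j ∈ AA x ∨ j ∈ Sx x := by
  rintro k (rfl | ⟨i, rfl⟩) j hj
  · cases j with
    | c u => right; rw [adj_zc] at hj; exact ⟨u, hj, rfl⟩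
    | z y => exact absurd hj adj_zz
    | w y i => left; right; rw [adj_zw] at hj; subst hj; exact ⟨i, rfl⟩
  · cases j with
    | c u => right; rw [adj_wc] at hj; exact ⟨u, hj.1, rfl⟩
    | z y => left; left; rw [adj_wz] at hj; subst hj; rfl
    | w y i => exact absurd hj adj_ww

lemma AA_disj {x y : Fin 11} (hxy : x ≠ y) {v : Vx} (hv : v ∈ AA y) : v ∉ AA x := by
  rintro (rfl | ⟨i, rfl⟩)
  · rcases hv with h | ⟨j, h⟩
    · injection h with h; exact hxy h
    · injection h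
  · rcases hv with h | ⟨j, h⟩
    · injection h
    · injection h with h; exact hxy h

lemma AA_not_core {x : Fin 11} {v : Vx} (hv : v ∈ AA x) : v ∉ Core := by
  rintro ⟨u, rfl⟩
  rcases hv with h | ⟨j, h⟩ <;> injection h

variable {φ : Vx → E 9}

/-- two different gadgets are never both beyond a hyperplane bounding the core -/
lemma gadget_sep (hR : Real9 9 GG φ) {x y : Fin 11} (hxy : x ≠ y) {v v' : Vx} (hv : v ∈ AA x) (hv' : v' ∈ AA y)
    (l : E 9 →L[ℝ] ℝ) (h1 : ∀ u, l (φ (c u)) < l (φ v)) (h2 : ∀ u, l (φ (c u)) ≤ l (φ v')) : False := by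
  apply hR.sep (AA x) Core (clos_core x) hv (AA_disj hxy hv') (AA_not_core hv') l
  · rintro _ ⟨u, rfl⟩; exact h1 u
  · rintro _ ⟨u, rfl⟩; exact h2 u

/-- the gadget at `x` and the vertex `c x` are never both beyond -/
lemma gadget_sep_x (hR : Real9 9 GG φ) {x : Fin 11} {v : Vx} (hv : v ∈ AA x)
    (l : E 9 →L[ℝ] ℝ) (h1 : ∀ u, u ≠ x → l (φ (c u)) < l (φ v))
    (h2 : ∀ u, u ≠ x → l (φ (c u)) ≤ l (φ (c x))) : False := by
  apply hR.sep (AA x) (Sx x) (clos_Sx x) hv (i' := .c x) _ _ l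
  · rintro _ ⟨u, hu, rfl⟩; exact h1 u hu
  · rintro _ ⟨u, hu, rfl⟩; exact h2 u hu
  · rintro (h | ⟨j, h⟩) <;> injection h
  · rintro ⟨u, hu, h⟩; injection h with h; exact hu h.symm

lemma exists_off_plane (hR : Real9 9 GG φ) (l : E 9 →L[ℝ] ℝ) (κ : ℝ) (hl : l ≠ 0)
    (hc : ∀ u, l (φ (c u)) = κ) (x : Fin 11) : ∃ v ∈ AA x, l (φ v) ≠ κ := by
  by_contra hcon
  push Not at hcon
  have hz : l (φ (z x)) = κ := hcon _ (Or.inl rfl)
  have hw : ∀ j, l (φ (w x j)) = κ := fun j => hcon _ (Or.inr ⟨j, rfl⟩)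
  have hex : ∃ t, l (φ t) ≠ κ := by
    by_contra h
    push Not at h
    exact hl (hR.Span l (fun i j => by rw [h i, h j]))
  obtain ⟨t, ht⟩ := hex
  have key : ∀ j, GG.Adj (w x 0) j → l (φ j) = κ := by
    intro j hj
    cases j with
    | c u => exact hc u
    | z y => rw [adj_wz] at hj; subst hj; exact hz
    | w y i => exact absurd hj adj_ww
  rcases lt_or_gt_of_ne ht with h | h
  · obtain ⟨j, hj, hlt⟩ := hR.LP (w x 0) (-l) ⟨t, by simpa [hw 0] using h⟩
    have := key j hj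
    simp [hw 0, this] at hlt
  · obtain ⟨j, hj, hlt⟩ := hR.LP (w x 0) l ⟨t, by simpa [hw 0] using h⟩
    have := key j hj
    simp [hw 0, this] at hlt

lemma core_spans (hR : Real9 9 GG φ) (l : E 9 →L[ℝ] ℝ) (κ : ℝ) (hc : ∀ u, l (φ (c u)) = κ) : l = 0 := by
  by_contra hl
  obtain ⟨v0, hv0, h0⟩ := exists_off_plane hR l κ hl hc 0
  obtain ⟨v1, hv1, h1⟩ := exists_off_plane hR l κ hl hc 1
  obtain ⟨v2, hv2, h2⟩ := exists_off_plane hR l κ hl hc 2
  have pos : ∀ {x y : Fin 11} (_ : x ≠ y) {v v' : Vx} (_ : v ∈ AA x) (_ : v' ∈ AA y),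
      κ < l (φ v) → κ < l (φ v') → False := by
    intro x y hxy v v' hv hv' h h'
    exact gadget_sep hR hxy hv hv' l (fun u => by rw [hc u]; exact h) (fun u => by rw [hc u]; exact h'.le)
  have neg : ∀ {x y : Fin 11} (_ : x ≠ y) {v v' : Vx} (_ : v ∈ AA x) (_ : v' ∈ AA y),
      l (φ v) < κ → l (φ v') < κ → False := by
    intro x y hxy v v' hv hv' h h'
    exact gadget_sep hR hxy hv hv' (-l) (fun u => by simp [hc u, h]) (fun u => by simp [hc u, h'.le])
  rcases lt_or_gt_of_ne h0 with a0 | a0 <;> rcases lt_or_gt_of_ne h1 with a1 | a1 <;>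
    rcases lt_or_gt_of_ne h2 with a2 | a2
  · exact neg (by decide) hv0 hv1 a0 a1
  · exact neg (by decide) hv0 hv1 a0 a1
  · exact neg (by decide) hv0 hv2 a0 a2
  · exact pos (by decide) hv1 hv2 a1 a2
  · exact neg (by decide) hv1 hv2 a1 a2
  · exact pos (by decide) hv0 hv2 a0 a2
  · exact pos (by decide) hv0 hv1 a0 a1
  · exact pos (by decide) hv0 hv1 a0 a1

/-- the lifting map -/
noncomputable def Lmap (p : Fin 11 → E 9) : (Fin 11 → ℝ) →ₗ[ℝ] (E 9 × ℝ) :=
  LinearMap.prod (∑ u, LinearMap.smulRight (LinearMap.proj u) (p u)) (∑ u, LinearMap.proj u)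

lemma Lmap_apply (p : Fin 11 → E 9) (a : Fin 11 → ℝ) : Lmap p a = (∑ u, a u • p u, ∑ u, a u) := by
  simp [Lmap, LinearMap.sum_apply]

lemma Lmap_surj (hR : Real9 9 GG φ) : Function.Surjective (Lmap (fun u => φ (c u))) := by
  rw [← LinearMap.range_eq_top]
  by_contra hne
  obtain ⟨g, hg0, hg⟩ := Submodule.exists_le_ker_of_lt_top _ (lt_top_iff_ne_top.2 hne)
  let l : E 9 →L[ℝ] ℝ := LinearMap.toContinuousLinearMap (g ∘ₗ LinearMap.inl ℝ (E 9) ℝ)
  have hl : ∀ v, l v = g (v, 0) := fun v => rfl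
  have hgs : ∀ v s, g (v, s) = l v + s * g (0, 1) := by
    intro v s
    rw [hl]
    have : ((v, s) : E 9 × ℝ) = (v, 0) + s • ((0 : E 9), (1 : ℝ)) := by ext <;> simp
    rw [this, map_add, map_smul, smul_eq_mul]
  have hc : ∀ u, l (φ (c u)) = - g (0, 1) := by
    intro u
    have h1 : g (Lmap (fun u => φ (c u)) (Pi.single u 1)) = 0 := by
      have : Lmap (fun u => φ (c u)) (Pi.single u 1) ∈ LinearMap.range (Lmap (fun u => φ (c u))) := ⟨_, rfl⟩
      exact hg this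
    rw [Lmap_apply] at h1
    have h2 : ∑ x, (Pi.single u (1:ℝ) : Fin 11 → ℝ) x • φ (c x) = φ (c u) := by
      simp [Pi.single_apply]
    have h3 : ∑ x, (Pi.single u (1:ℝ) : Fin 11 → ℝ) x = 1 := by
      simp [Pi.single_apply]
    rw [h2, h3, hgs] at h1
    linarith
  have hl0 := core_spans hR l _ hc
  apply hg0
  have hg1 : g (0, 1) = 0 := by
    have := hc 0
    rw [hl0] at this
    simp at this
    linarith
  ext v
  · have h1 : l v = 0 := by rw [hl0]; simp
    have : g (v, 0) = 0 := by rw [hgs, hg1, h1]; simp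
    simpa using this
  · simpa using hg1

lemma exists_nu (hR : Real9 9 GG φ) : ∃ ν : Fin 11 → ℝ, ν ≠ 0 ∧ Lmap (fun u => φ (c u)) ν = 0 ∧
    ∀ a, Lmap (fun u => φ (c u)) a = 0 → ∃ t : ℝ, t • ν = a := by
  have h1 := LinearMap.finrank_range_add_finrank_ker (Lmap (fun u => φ (c u)))
  rw [LinearMap.range_eq_top.2 (Lmap_surj hR), finrank_top] at h1
  simp at h1
  have h2 : Module.finrank ℝ (LinearMap.ker (Lmap (fun u => φ (c u)))) = 1 := by omega
  obtain ⟨⟨ν, hν⟩, hν0, hνspan⟩ := finrank_eq_one_iff'.1 h2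
  refine ⟨ν, fun h => hν0 (Subtype.ext h), hν, fun a ha => ?_⟩
  obtain ⟨t, ht⟩ := hνspan ⟨a, ha⟩
  exact ⟨t, congrArg Subtype.val ht⟩

/-- affine functionals with prescribed values on the core -/
lemma exists_affine (hR : Real9 9 GG φ) {ν : Fin 11 → ℝ}
    (hν : ∀ a, Lmap (fun u => φ (c u)) a = 0 → ∃ t : ℝ, t • ν = a) (h : Fin 11 → ℝ)
    (horth : ∑ u, h u * ν u = 0) :
    ∃ (l : E 9 →L[ℝ] ℝ) (κ : ℝ), ∀ a : Fin 11 → ℝ, ∀ v, Lmap (fun u => φ (c u)) a = (v, 1) →
      l v + κ = ∑ u, h u * a u := by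
  obtain ⟨s, hs⟩ := (Lmap (fun u => φ (c u))).exists_rightInverse_of_surjective
    (LinearMap.range_eq_top.2 (Lmap_surj hR))
  let H : (Fin 11 → ℝ) →ₗ[ℝ] ℝ := ∑ u, h u • LinearMap.proj u
  have hH : ∀ a, H a = ∑ u, h u * a u := by intro a; simp [H, LinearMap.sum_apply]
  let g : (E 9 × ℝ) →ₗ[ℝ] ℝ := H ∘ₗ s
  refine ⟨LinearMap.toContinuousLinearMap (g ∘ₗ LinearMap.inl ℝ (E 9) ℝ), g (0, 1), ?_⟩
  intro a v hav
  have e1 : (LinearMap.toContinuousLinearMap (g ∘ₗ LinearMap.inl ℝ (E 9) ℝ)) v + g (0, 1) = g (v, 1) := by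
    have : ((v, 1) : E 9 × ℝ) = (v, 0) + ((0 : E 9), (1 : ℝ)) := by ext <;> simp
    rw [this, map_add]
    rfl
  rw [e1, ← hav, ← hH]
  have e2 : Lmap (fun u => φ (c u)) (s (Lmap (fun u => φ (c u)) a)) = Lmap (fun u => φ (c u)) a := by
    have := congrArg (fun f => f (Lmap (fun u => φ (c u)) a)) hs
    simpa using this
  have e3 : Lmap (fun u => φ (c u)) (s (Lmap (fun u => φ (c u)) a) - a) = 0 := by
    rw [map_sub, e2, sub_self]
  obtain ⟨t, ht⟩ := hν _ e3
  have e4 : s (Lmap (fun u => φ (c u)) a) = a + t • ν := by rw [ht]; abel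
  show H (s (Lmap (fun u => φ (c u)) a)) = H a
  rw [e4, map_add, map_smul, hH ν, horth]
  simp

/-- barycentric coordinates with respect to the core without `x` -/
structure Bary (φ : Vx → E 9) (ν : Fin 11 → ℝ) (x : Fin 11) (l : Fin 11 → (E 9 →L[ℝ] ℝ)) (κ : Fin 11 → ℝ) : Prop where
  hx : ∀ v, l x v + κ x = 0
  h1 : ∀ y, y ≠ x → l y (φ (c y)) + κ y = 1
  h0 : ∀ y u, u ≠ x → u ≠ y → l y (φ (c u)) + κ y = 0
  hpx : ∀ y, y ≠ x → l y (φ (c x)) + κ y = - ν y / ν x
  rep1 : ∀ v, ∑ u, (l u v + κ u) = 1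
  rep : ∀ v, ∑ u, (l u v + κ u) • φ (c u) = v

lemma Lmap_single (p : Fin 11 → E 9) (u : Fin 11) : Lmap p (Pi.single u 1) = (p u, 1) := by
  rw [Lmap_apply]
  ext
  · simp [Pi.single_apply]
  · simp [Pi.single_apply]

lemma exists_bary (hR : Real9 9 GG φ) {ν : Fin 11 → ℝ} (hν0 : Lmap (fun u => φ (c u)) ν = 0)
    (hν : ∀ a, Lmap (fun u => φ (c u)) a = 0 → ∃ t : ℝ, t • ν = a) (x : Fin 11) (hx : ν x ≠ 0) :
    ∃ l κ, Bary φ ν x l κ := by
  classical
  -- h y u
  let h : Fin 11 → Fin 11 → ℝ := fun y u =>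
    if y = x then 0 else if u = y then 1 else if u = x then - ν y / ν x else 0
  have horth : ∀ y, ∑ u, h y u * ν u = 0 := by
    intro y
    by_cases hy : y = x
    · simp [h, hy]
    · have : ∀ u, h y u * ν u = (if u = y then ν y else 0) + (if u = x then - ν y else 0) := by
        intro u
        simp only [h, hy, if_false]
        by_cases h1 : u = y
        · subst h1; simp [hy]
        · by_cases h2 : u = x
          · subst h2; simp only [h1, if_false, if_true]; field_simp; ring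
          · simp [h1, h2]
      simp only [this, Finset.sum_add_distrib]
      simp
  choose l κ hl using fun y => exists_affine hR hν (h y) (horth y)
  have hval : ∀ y u, l y (φ (c u)) + κ y = h y u := by
    intro y u
    rw [hl y (Pi.single u 1) (φ (c u)) (Lmap_single _ u)]
    simp [Pi.single_apply]
  have hrep : ∀ v, ∃ a : Fin 11 → ℝ, a x = 0 ∧ Lmap (fun u => φ (c u)) a = (v, 1) ∧
      ∀ y, l y v + κ y = a y := by
    intro v
    obtain ⟨a, ha⟩ := Lmap_surj hR (v, 1)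
    set a' : Fin 11 → ℝ := a - (a x / ν x) • ν with ha'
    have h1 : a' x = 0 := by simp [ha', hx]
    have h2 : Lmap (fun u => φ (c u)) a' = (v, 1) := by
      rw [ha', map_sub, map_smul, hν0, ha]; simp
    refine ⟨a', h1, h2, ?_⟩
    intro y
    rw [hl y a' v h2]
    by_cases hy : y = x
    · simp [h, hy, h1]
    · have : ∀ u, h y u * a' u = if u = y then a' y else 0 := by
        intro u
        simp only [h, hy, if_false]
        by_cases h1' : u = y
        · subst h1'; simp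
        · by_cases h2' : u = x
          · subst h2'; simp [h1', h1]
          · simp [h1', h2']
      simp [this]
  refine ⟨l, κ, ?_, ?_, ?_, ?_, ?_, ?_⟩
  · intro v
    obtain ⟨a, ha, _, hay⟩ := hrep v
    rw [hay x, ha]
  · intro y hy
    rw [hval]; simp [h, hy]
  · intro y u hux huy
    rw [hval]; simp [h, hux, huy]
  · intro y hy
    rw [hval]; simp [h, hy, Ne.symm hy]
  · intro v
    obtain ⟨a, ha, hL, hay⟩ := hrep v
    simp only [hay]
    rw [Lmap_apply] at hL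
    exact congrArg Prod.snd hL
  · intro v
    obtain ⟨a, ha, hL, hay⟩ := hrep v
    simp only [hay]
    rw [Lmap_apply] at hL
    exact congrArg Prod.fst hL

end Pool.Agent.TH368.GK
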