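import Mathlib
import Pool.Agent.TH368.GKLin

set_option autoImplicit false

namespace Pool.Agent.TH368.GK

open Set Filter Topology Vx

variable {φ : Vx → E 9} {ν : Fin 11 → ℝ} {x : Fin 11} {l : Fin 11 → (E 9 →L[ℝ] ℝ)} {κ : Fin 11 → ℝ}

lemma Real9.inj {n : ℕ} {ι : Type*} {G : SimpleGraph ι} {φ : ι → E n} (hR : Real9 n G φ) :
    Function.Injective φ := by
  intro a b hab
  by_contra hne
  obtain ⟨l, hl⟩ := hR.V b
  have := hl a hne
  rw [hab] at this
  exact lt_irrefl _ this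

/-- values on the core -/
lemma Bary.nonneg (B : Bary φ ν x l κ) (y u : Fin 11) (hu : u ≠ x) : 0 ≤ l y (φ (c u)) + κ y := by
  by_cases h : u = y
  · subst h; rw [B.h1 u hu]; norm_num
  · rw [B.h0 y u hu h]

lemma own_sign (hR : Real9 9 GG φ) (B : Bary φ ν x l κ) {v : Vx} (hv : v ∈ AA x) {y : Fin 11} (hy : y ≠ x)
    (hneg : l y (φ v) + κ y < 0) : ν y / ν x < 0 := by
  by_contra h
  push Not at h
  apply gadget_sep_x hR hv (-(l y))
  · intro u hu
    have := B.nonneg y u hu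
    simp; linarith
  · intro u hu
    have h1 := B.nonneg y u hu
    have h2 := B.hpx y hy
    have h3 : - ν y / ν x = - (ν y / ν x) := by ring
    simp; linarith

def Txy (x y : Fin 11) : Set Vx := {v | v = .z x ∨ ∃ u, u ≠ x ∧ u ≠ y ∧ v = .c u}
def Tx (x : Fin 11) : Set Vx := {v | v = .z x ∨ ∃ u, u ≠ x ∧ v = .c u}

lemma clos_W (x : Fin 11) (j : Fin 9) : ∀ k ∈ ({w x j} : Set Vx), ∀ t, GG.Adj k t →
    t ∈ ({w x j} : Set Vx) ∨ t ∈ Txy x (x + off j) := by
  rintro k hk t ht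
  rw [Set.mem_singleton_iff] at hk
  subst hk
  cases t with
  | c u => rw [adj_wc] at ht; exact Or.inr (Or.inr ⟨u, ht.1, ht.2, rfl⟩)
  | z y => rw [adj_wz] at ht; subst ht; exact Or.inr (Or.inl rfl)
  | w y i => exact absurd ht adj_ww

lemma clos_W' (x : Fin 11) (j : Fin 9) : ∀ k ∈ ({w x j} : Set Vx), ∀ t, GG.Adj k t →
    t ∈ ({w x j} : Set Vx) ∨ t ∈ Tx x := by
  intro k hk t ht
  rcases clos_W x j k hk t ht with h | h | ⟨u, hu, _, h⟩
  · exact Or.inl h
  · exact Or.inr (Or.inl h)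
  · exact Or.inr (Or.inr ⟨u, hu, h⟩)

lemma sepW (hR : Real9 9 GG φ) (x : Fin 11) (j : Fin 9) (L : E 9 →L[ℝ] ℝ)
    (h1 : L (φ (z x)) < L (φ (w x j))) (h2 : ∀ u, u ≠ x → L (φ (c u)) < L (φ (w x j)))
    (h3 : L (φ (z x)) ≤ L (φ (c (x + off j)))) (h4 : ∀ u, u ≠ x → L (φ (c u)) ≤ L (φ (c (x + off j)))) : False := by
  apply hR.sep {w x j} (Txy x (x + off j)) (clos_W x j) (i := w x j) rfl (i' := c (x + off j)) _ _ L
  · rintro s (rfl | ⟨u, hu, _, rfl⟩)
    · exact h1
    · exact h2 u hu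
  · rintro s (rfl | ⟨u, hu, _, rfl⟩)
    · exact h3
    · exact h4 u hu
  · simp
  · rintro (h | ⟨u, hu, hu2, h⟩)
    · injection h
    · injection h with h; exact hu2 h.symm

lemma sepWW (hR : Real9 9 GG φ) (x : Fin 11) {i j : Fin 9} (hij : i ≠ j) (L : E 9 →L[ℝ] ℝ)
    (h1 : L (φ (z x)) < L (φ (w x j))) (h2 : ∀ u, u ≠ x → L (φ (c u)) < L (φ (w x j)))
    (h3 : L (φ (z x)) ≤ L (φ (w x i))) (h4 : ∀ u, u ≠ x → L (φ (c u)) ≤ L (φ (w x i))) : False := by
  apply hR.sep {w x j} (Tx x) (clos_W' x j) (i := w x j) rfl (i' := w x i) _ _ L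
  · rintro s (rfl | ⟨u, hu, rfl⟩)
    · exact h1
    · exact h2 u hu
  · rintro s (rfl | ⟨u, hu, rfl⟩)
    · exact h3
    · exact h4 u hu
  · simp [hij]
  · rintro (h | ⟨u, hu, h⟩) <;> injection h

section gadget

variable (hR : Real9 9 GG φ) (B : Bary φ ν x l κ)

/-- coordinates of the apex -/
noncomputable def mu (φ : Vx → E 9) (x : Fin 11) (l : Fin 11 → (E 9 →L[ℝ] ℝ)) (κ : Fin 11 → ℝ) (u : Fin 11) : ℝ :=
  l u (φ (z x)) + κ u

noncomputable def be (φ : Vx → E 9) (x : Fin 11) (l : Fin 11 → (E 9 →L[ℝ] ℝ)) (κ : Fin 11 → ℝ) (j : Fin 9)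
    (u : Fin 11) : ℝ := l u (φ (w x j)) + κ u


include B in
lemma mu_x : (mu φ x l κ) x = 0 := B.hx _

include B in
lemma be_x (j : Fin 9) : (be φ x l κ) j x = 0 := B.hx _

lemma off_add_ne (x : Fin 11) (j : Fin 9) : x + off j ≠ x := by
  intro h
  exact off_ne j (by simpa using h)

include hR B in
lemma cell_mem {j : Fin 9} {m o : Fin 11} (hn : (mu φ x l κ) m < 0) (ho : 0 < (mu φ x l κ) o)
    (hcell : (mu φ x l κ) o * (be φ x l κ) j m - (mu φ x l κ) m * (be φ x l κ) j o < 0) : m = x + off j ∨ o = x + off j := by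
  by_contra hcon
  push Not at hcon
  have hmx : m ≠ x := by rintro rfl; rw [mu_x B] at hn; exact lt_irrefl _ hn
  have hox : o ≠ x := by rintro rfl; rw [mu_x B] at ho; exact lt_irrefl _ ho
  have hmo : m ≠ o := by rintro rfl; linarith
  set L : E 9 →L[ℝ] ℝ := (mu φ x l κ) m • l o - (mu φ x l κ) o • l m with hL
  set k : ℝ := (mu φ x l κ) m * κ o - (mu φ x l κ) o * κ m with hk
  have hLv : ∀ v, L v + k = (mu φ x l κ) m * (l o v + κ o) - (mu φ x l κ) o * (l m v + κ m) := by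
    intro v; simp [hL, hk]; ring
  have hz : L (φ (z x)) + k = 0 := by
    rw [hLv]; show (mu φ x l κ) m * (mu φ x l κ) o - (mu φ x l κ) o * (mu φ x l κ) m = 0; ring
  have hw : 0 < L (φ (w x j)) + k := by
    rw [hLv]; show 0 < (mu φ x l κ) m * (be φ x l κ) j o - (mu φ x l κ) o * (be φ x l κ) j m; linarith
  have hc : ∀ u, u ≠ x → L (φ (c u)) + k ≤ 0 := by
    intro u hu
    rw [hLv]
    have h1 := B.nonneg o u hu
    have h2 := B.nonneg m u hu
    nlinarith
  have hy : L (φ (c (x + off j))) + k = 0 := by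
    rw [hLv, B.h0 o _ (off_add_ne x j) (Ne.symm hcon.2), B.h0 m _ (off_add_ne x j) (Ne.symm hcon.1)]
    ring
  apply sepW hR x j L
  · linarith
  · intro u hu; have := hc u hu; linarith
  · linarith
  · intro u hu; have := hc u hu; linarith

include hR B in
lemma z_mem {j : Fin 9} {o : Fin 11} (hox : o ≠ x) (ho : 0 ≤ (mu φ x l κ) o) (hneg : (be φ x l κ) j o < 0) : o = x + off j := by
  by_contra hcon
  have hz : l o (φ (z x)) + κ o = (mu φ x l κ) o := rfl
  have hw : l o (φ (w x j)) + κ o = (be φ x l κ) j o := rfl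
  have hy : l o (φ (c (x + off j))) + κ o = 0 := B.h0 o _ (off_add_ne x j) (Ne.symm hcon)
  apply sepW hR x j (-(l o))
  · simp; linarith
  · intro u hu; have := B.nonneg o u hu; simp; linarith
  · simp; linarith
  · intro u hu; have := B.nonneg o u hu; simp; linarith

include hR B in
lemma cell_disj {i j : Fin 9} (hij : i ≠ j) {m o : Fin 11} (hn : (mu φ x l κ) m < 0) (ho : 0 < (mu φ x l κ) o)
    (hi : (mu φ x l κ) o * (be φ x l κ) i m - (mu φ x l κ) m * (be φ x l κ) i o < 0) (hj : (mu φ x l κ) o * (be φ x l κ) j m - (mu φ x l κ) m * (be φ x l κ) j o < 0) : False := by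
  set L : E 9 →L[ℝ] ℝ := (mu φ x l κ) m • l o - (mu φ x l κ) o • l m with hL
  set k : ℝ := (mu φ x l κ) m * κ o - (mu φ x l κ) o * κ m with hk
  have hLv : ∀ v, L v + k = (mu φ x l κ) m * (l o v + κ o) - (mu φ x l κ) o * (l m v + κ m) := by
    intro v; simp [hL, hk]; ring
  have hz : L (φ (z x)) + k = 0 := by
    rw [hLv]; show (mu φ x l κ) m * (mu φ x l κ) o - (mu φ x l κ) o * (mu φ x l κ) m = 0; ring
  have hw : 0 < L (φ (w x j)) + k := by
    rw [hLv]; show 0 < (mu φ x l κ) m * (be φ x l κ) j o - (mu φ x l κ) o * (be φ x l κ) j m; linarith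
  have hw' : 0 < L (φ (w x i)) + k := by
    rw [hLv]; show 0 < (mu φ x l κ) m * (be φ x l κ) i o - (mu φ x l κ) o * (be φ x l κ) i m; linarith
  have hc : ∀ u, u ≠ x → L (φ (c u)) + k ≤ 0 := by
    intro u hu
    rw [hLv]
    have h1 := B.nonneg o u hu
    have h2 := B.nonneg m u hu
    nlinarith
  apply sepWW hR x hij L
  · linarith
  · intro u hu; have := hc u hu; linarith
  · linarith
  · intro u hu; have := hc u hu; linarith

lemma exists_s (a : Fin 11 → ℝ) (N O : Finset (Fin 11)) (lo : ℝ) (hlo : ∀ o ∈ O, lo ≤ a o)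
    (h : ∀ m ∈ N, ∀ o ∈ O, a m ≤ a o) : ∃ s, lo ≤ s ∧ (∀ m ∈ N, a m ≤ s) ∧ (∀ o ∈ O, s ≤ a o) := by
  rcases N.eq_empty_or_nonempty with rfl | hN
  · exact ⟨lo, le_refl _, by simp, hlo⟩
  · obtain ⟨m0, hm0, hmax⟩ := N.exists_max_image a hN
    refine ⟨max lo (a m0), le_max_left _ _, ?_, ?_⟩
    · intro m hm; exact (hmax m hm).trans (le_max_right _ _)
    · intro o ho; exact max_le (hlo o ho) (h m0 hm0 o ho)

lemma ratio_le {a b c d : ℝ} (hb : b < 0) (hd : 0 < d) (h : 0 ≤ d * a - b * c) : a / b ≤ c / d := by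
  have hb' := hb.ne
  have hd' := hd.ne'
  have : a / b - c / d = (d * a - b * c) / (b * d) := by field_simp
  have h2 : (d * a - b * c) / (b * d) ≤ 0 :=
    div_nonpos_of_nonneg_of_nonpos h (mul_neg_of_neg_of_pos hb hd).le
  linarith

include B in
lemma eval_rep (L : E 9 →L[ℝ] ℝ) (v : E 9) : L v = ∑ u, (l u v + κ u) * L (φ (c u)) := by
  conv_lhs => rw [← B.rep v]
  rw [map_sum]
  apply Finset.sum_congr rfl
  intro u _
  simp

include hR B in
lemma cell_z {j : Fin 9} (hN : ∃ m, (mu φ x l κ) m < 0) (hy : (mu φ x l κ) (x + off j) ≠ 0) :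
    ∃ m o, (mu φ x l κ) m < 0 ∧ 0 < (mu φ x l κ) o ∧ (mu φ x l κ) o * (be φ x l κ) j m - (mu φ x l κ) m * (be φ x l κ) j o < 0 := by
  by_contra hcon
  push Not at hcon
  obtain ⟨m0, hm0⟩ := hN
  let N : Finset (Fin 11) := Finset.univ.filter (fun u => (mu φ x l κ) u < 0)
  let O : Finset (Fin 11) := Finset.univ.filter (fun u => 0 < (mu φ x l κ) u)
  have hNO : ∀ m ∈ N, ∀ o ∈ O, (be φ x l κ) j m / (mu φ x l κ) m ≤ (be φ x l κ) j o / (mu φ x l κ) o := by
    intro m hm o ho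
    have hm' : (mu φ x l κ) m < 0 := by simpa [N] using hm
    have ho' : 0 < (mu φ x l κ) o := by simpa [O] using ho
    exact ratio_le hm' ho' (hcon m o hm' ho')
  obtain ⟨s, _, hsN, hsO⟩ := exists_s (fun u => (be φ x l κ) j u / (mu φ x l κ) u) N O ((be φ x l κ) j m0 / (mu φ x l κ) m0)
    (fun o ho => hNO m0 (by simp [N, hm0]) o ho) hNO
  have hγ : ∀ u, 0 ≤ (be φ x l κ) j u - s * (mu φ x l κ) u := by
    intro u
    rcases lt_trichotomy ((mu φ x l κ) u) 0 with h | h | h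
    · have := hsN u (by simp [N, h])
      rw [div_le_iff_of_neg h] at this
      linarith
    · rw [h]
      by_cases hux : u = x
      · rw [hux, be_x B]; simp
      · by_contra hneg
        push Not at hneg
        have h2 : u = x + off j := z_mem hR B hux h.ge (by simpa using hneg)
        rw [h2] at h
        exact hy h
    · have := hsO u (by simp [O, h])
      rw [le_div_iff₀ h] at this
      linarith
  obtain ⟨L, hL1, hL2⟩ := hR.Ed (w x j) (z x) (by rw [adj_wz])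
  have hlt : ∀ u, L (φ (c u)) - L (φ (w x j)) < 0 := by
    intro u
    have := hL2 (c u) (by simp) (by simp)
    linarith
  have e1 := eval_rep B L (φ (w x j))
  have e2 := eval_rep B L (φ (z x))
  have s1 := B.rep1 (φ (w x j))
  have s2 := B.rep1 (φ (z x))
  have hsum : ∑ u, ((be φ x l κ) j u - s * (mu φ x l κ) u) * (L (φ (c u)) - L (φ (w x j))) = 0 := by
    have h1 : ∑ u, ((be φ x l κ) j u - s * (mu φ x l κ) u) * (L (φ (c u)) - L (φ (w x j)))
        = (∑ u, (be φ x l κ) j u * L (φ (c u))) - s * (∑ u, (mu φ x l κ) u * L (φ (c u)))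
          - (∑ u, (be φ x l κ) j u) * L (φ (w x j)) + s * (∑ u, (mu φ x l κ) u) * L (φ (w x j)) := by
      simp only [Finset.mul_sum, Finset.sum_mul, ← Finset.sum_sub_distrib, ← Finset.sum_add_distrib]
      apply Finset.sum_congr rfl
      intro u _
      ring
    have h2 : (∑ u, (be φ x l κ) j u * L (φ (c u))) = L (φ (w x j)) := e1.symm
    have h3 : (∑ u, (mu φ x l κ) u * L (φ (c u))) = L (φ (z x)) := e2.symm
    have h4 : (∑ u, (be φ x l κ) j u) = 1 := s1
    have h5 : (∑ u, (mu φ x l κ) u) = 1 := s2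
    rw [h1, h2, h3, h4, h5, ← hL1]
    ring
  have hzero : ∀ u, (be φ x l κ) j u - s * (mu φ x l κ) u = 0 := by
    have := (Finset.sum_eq_zero_iff_of_nonpos (s := Finset.univ)
      (f := fun u => ((be φ x l κ) j u - s * (mu φ x l κ) u) * (L (φ (c u)) - L (φ (w x j))))
      (fun u _ => mul_nonpos_of_nonneg_of_nonpos (hγ u) (hlt u).le)).1 hsum
    intro u
    have h2 := this u (Finset.mem_univ u)
    rcases mul_eq_zero.1 h2 with h3 | h3
    · exact h3
    · exact absurd h3 (hlt u).ne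
  have hs1 : s = 1 := by
    have h4 : (∑ u, (be φ x l κ) j u) = 1 := s1
    have h5 : (∑ u, (mu φ x l κ) u) = 1 := s2
    have : ∑ u, ((be φ x l κ) j u - s * (mu φ x l κ) u) = 0 := Finset.sum_eq_zero (fun u _ => hzero u)
    rw [Finset.sum_sub_distrib, ← Finset.mul_sum, h4, h5] at this
    linarith
  have heq : φ (w x j) = φ (z x) := by
    rw [← B.rep (φ (w x j)), ← B.rep (φ (z x))]
    apply Finset.sum_congr rfl
    intro u _
    have h3 := hzero u
    rw [hs1] at h3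
    have h4 : (be φ x l κ) j u = (mu φ x l κ) u := by linarith
    have h5 : l u (φ (w x j)) + κ u = l u (φ (z x)) + κ u := h4
    rw [h5]
  have := hR.inj heq
  injection this

include hR B in
lemma cell_c {j : Fin 9} (u0 : Fin 11) (hu0 : u0 ≠ x) (hu0y : u0 ≠ x + off j) (hy : (mu φ x l κ) (x + off j) ≠ 0) :
    (∃ m o, m ≠ u0 ∧ o ≠ u0 ∧ (mu φ x l κ) m < 0 ∧ 0 < (mu φ x l κ) o ∧ (mu φ x l κ) o * (be φ x l κ) j m - (mu φ x l κ) m * (be φ x l κ) j o < 0) ∨
      ∃ o, o ≠ u0 ∧ 0 < (mu φ x l κ) o ∧ (be φ x l κ) j o < 0 := by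
  by_contra hcon
  push Not at hcon
  obtain ⟨hc1, hc2⟩ := hcon
  let N : Finset (Fin 11) := Finset.univ.filter (fun u => (mu φ x l κ) u < 0 ∧ u ≠ u0)
  let O : Finset (Fin 11) := Finset.univ.filter (fun u => 0 < (mu φ x l κ) u ∧ u ≠ u0)
  have hNO : ∀ m ∈ N, ∀ o ∈ O, (be φ x l κ) j m / (mu φ x l κ) m ≤ (be φ x l κ) j o / (mu φ x l κ) o := by
    intro m hm o ho
    have hm' : (mu φ x l κ) m < 0 ∧ m ≠ u0 := by simpa [N] using hm
    have ho' : 0 < (mu φ x l κ) o ∧ o ≠ u0 := by simpa [O] using ho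
    exact ratio_le hm'.1 ho'.1 (hc1 m o hm'.2 ho'.2 hm'.1 ho'.1)
  have hO0 : ∀ o ∈ O, 0 ≤ (be φ x l κ) j o / (mu φ x l κ) o := by
    intro o ho
    have ho' : 0 < (mu φ x l κ) o ∧ o ≠ u0 := by simpa [O] using ho
    exact div_nonneg (hc2 o ho'.2 ho'.1) ho'.1.le
  obtain ⟨s, hs0, hsN, hsO⟩ := exists_s (fun u => (be φ x l κ) j u / (mu φ x l κ) u) N O 0 hO0 hNO
  have hγ : ∀ u, u ≠ u0 → 0 ≤ (be φ x l κ) j u - s * (mu φ x l κ) u := by
    intro u huu
    rcases lt_trichotomy ((mu φ x l κ) u) 0 with h | h | h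
    · have := hsN u (by simp [N, h, huu])
      rw [div_le_iff_of_neg h] at this
      linarith
    · rw [h]
      by_cases hux : u = x
      · rw [hux, be_x B]; simp
      · by_contra hneg
        push Not at hneg
        have h2 : u = x + off j := z_mem hR B hux h.ge (by simpa using hneg)
        rw [h2] at h
        exact hy h
    · have := hsO u (by simp [O, h, huu])
      rw [le_div_iff₀ h] at this
      linarith
  obtain ⟨L, hL1, hL2⟩ := hR.Ed (w x j) (c u0) (by rw [adj_wc]; exact ⟨hu0, hu0y⟩)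
  have hlt : ∀ u, u ≠ u0 → L (φ (c u)) - L (φ (w x j)) < 0 := by
    intro u hu
    have := hL2 (c u) (by simp) (by simpa using hu)
    linarith
  have hle : ∀ u, L (φ (c u)) - L (φ (w x j)) ≤ 0 := by
    intro u
    by_cases hu : u = u0
    · rw [hu, hL1]; simp
    · exact (hlt u hu).le
  have hltz : L (φ (z x)) - L (φ (w x j)) < 0 := by
    have := hL2 (z x) (by simp) (by simp)
    linarith
  have e1 := eval_rep B L (φ (w x j))
  have e2 := eval_rep B L (φ (z x))
  have s1 := B.rep1 (φ (w x j))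
  have s2 := B.rep1 (φ (z x))
  have h4 : (∑ u, (be φ x l κ) j u) = 1 := s1
  have h5 : (∑ u, (mu φ x l κ) u) = 1 := s2
  have hsum : ∑ u, ((be φ x l κ) j u - s * (mu φ x l κ) u) * (L (φ (c u)) - L (φ (w x j)))
      = - (s * (L (φ (z x)) - L (φ (w x j)))) := by
    have h1 : ∑ u, ((be φ x l κ) j u - s * (mu φ x l κ) u) * (L (φ (c u)) - L (φ (w x j)))
        = (∑ u, (be φ x l κ) j u * L (φ (c u))) - s * (∑ u, (mu φ x l κ) u * L (φ (c u)))
          - (∑ u, (be φ x l κ) j u) * L (φ (w x j)) + s * (∑ u, (mu φ x l κ) u) * L (φ (w x j)) := by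
      simp only [Finset.mul_sum, Finset.sum_mul, ← Finset.sum_sub_distrib, ← Finset.sum_add_distrib]
      apply Finset.sum_congr rfl
      intro u _
      ring
    have h2 : (∑ u, (be φ x l κ) j u * L (φ (c u))) = L (φ (w x j)) := e1.symm
    have h3 : (∑ u, (mu φ x l κ) u * L (φ (c u))) = L (φ (z x)) := e2.symm
    rw [h1, h2, h3, h4, h5]
    ring
  have hterm : ∀ u ∈ Finset.univ, ((be φ x l κ) j u - s * (mu φ x l κ) u) * (L (φ (c u)) - L (φ (w x j))) ≤ 0 := by
    intro u _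
    by_cases hu : u = u0
    · rw [hu, hL1]; simp
    · exact mul_nonpos_of_nonneg_of_nonpos (hγ u hu) (hle u)
  have hs : s = 0 := by
    have h1 := Finset.sum_nonpos hterm
    rw [hsum] at h1
    by_contra hne
    have : 0 < s := lt_of_le_of_ne hs0 (Ne.symm hne)
    nlinarith
  have hzero : ∀ u, u ≠ u0 → (be φ x l κ) j u = 0 := by
    have h0 : ∑ u, ((be φ x l κ) j u - s * (mu φ x l κ) u) * (L (φ (c u)) - L (φ (w x j))) = 0 := by rw [hsum, hs]; simp
    have := (Finset.sum_eq_zero_iff_of_nonpos hterm).1 h0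
    intro u hu
    have h2 := this u (Finset.mem_univ u)
    rcases mul_eq_zero.1 h2 with h3 | h3
    · rw [hs] at h3; simpa using h3
    · exact absurd h3 (hlt u hu).ne
  have hone : (be φ x l κ) j u0 = 1 := by
    rw [← h4]
    exact (Finset.sum_eq_single u0 (fun u _ hu => hzero u hu) (by simp)).symm
  have heq : φ (w x j) = φ (c u0) := by
    conv_lhs => rw [← B.rep (φ (w x j))]
    rw [Finset.sum_eq_single u0]
    · show (be φ x l κ) j u0 • φ (c u0) = φ (c u0)
      rw [hone, one_smul]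
    · intro u _ hu
      show (be φ x l κ) j u • φ (c u) = 0
      rw [hzero u hu, zero_smul]
    · simp
  have := hR.inj heq
  injection this

end gadget

end Pool.Agent.TH368.GK
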