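import Mathlib
import Pool.Agent.TH368.GKOwn

set_option autoImplicit false

namespace Pool.Agent.TH368.GK

open Set Filter Topology Vx

section gadget

variable {φ : Vx → E 9} {ν : Fin 11 → ℝ} {x : Fin 11} {l : Fin 11 → (E 9 →L[ℝ] ℝ)} {κ : Fin 11 → ℝ}


lemma exists_mu_neg (hR : Real9 9 GG φ) (B : Bary φ ν x l κ) : ∃ m, (mu φ x l κ) m < 0 := by
  by_contra hcon
  push Not at hcon
  obtain ⟨L, hL⟩ := hR.V (z x)
  have e2 := eval_rep B L (φ (z x))
  have h5 : (∑ u, (mu φ x l κ) u) = 1 := B.rep1 (φ (z x))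
  have hex : ∃ u, 0 < (mu φ x l κ) u := by
    by_contra h
    push Not at h
    have : ∑ u, (mu φ x l κ) u ≤ 0 := Finset.sum_nonpos (fun u _ => h u)
    linarith
  obtain ⟨u0, hu0⟩ := hex
  have h1 : ∑ u, (mu φ x l κ) u * L (φ (c u)) < ∑ u, (mu φ x l κ) u * L (φ (z x)) := by
    apply Finset.sum_lt_sum
    · intro u _
      exact mul_le_mul_of_nonneg_left (hL (c u) (by simp)).le (hcon u)
    · exact ⟨u0, Finset.mem_univ _, mul_lt_mul_of_pos_left (hL (c u0) (by simp)) hu0⟩
  rw [← Finset.sum_mul, h5, one_mul] at h1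
  have h2 : L (φ (z x)) = ∑ u, (mu φ x l κ) u * L (φ (c u)) := e2
  linarith

lemma exists_mu_pos (B : Bary φ ν x l κ) : ∃ o, 0 < (mu φ x l κ) o := by
  by_contra h
  push Not at h
  have h5 : (∑ u, (mu φ x l κ) u) = 1 := B.rep1 (φ (z x))
  have : ∑ u, (mu φ x l κ) u ≤ 0 := Finset.sum_nonpos (fun u _ => h u)
  linarith

/-- the set of core facets through `c x` beyond which the gadget at `x` reaches -/
def IsOwn (φ : Vx → E 9) (x : Fin 11) (l : Fin 11 → (E 9 →L[ℝ] ℝ)) (κ : Fin 11 → ℝ) (y : Fin 11) : Prop :=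
  y ≠ x ∧ ∃ v ∈ AA x, l y (φ v) + κ y < 0

open Classical in
noncomputable def Own (φ : Vx → E 9) (x : Fin 11) (l : Fin 11 → (E 9 →L[ℝ] ℝ)) (κ : Fin 11 → ℝ) : Finset (Fin 11) :=
  Finset.univ.filter (IsOwn φ x l κ)

lemma mem_own {y : Fin 11} : y ∈ Own φ x l κ ↔ y ≠ x ∧ ∃ v ∈ AA x, l y (φ v) + κ y < 0 := by
  simp [Own, IsOwn]

lemma exists_j (x y : Fin 11) (hy : y ≠ x) (hy4 : y ≠ x + 4) : ∃ j, x + off j = y := by
  have h1 : y - x ≠ 0 := sub_ne_zero.2 hy
  have h2 : y - x ≠ 4 := by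
    intro h
    apply hy4
    exact eq_add_of_sub_eq' h
  obtain ⟨j, hj⟩ := off_surj (y - x) h1 h2
  exact ⟨j, by rw [hj]; exact add_sub_cancel x y⟩

lemma two_elem {α : Type*} {m1 m2 a b d : α} (ha : a = m1 ∨ a = m2) (hb : b = m1 ∨ b = m2)
    (hd : d = m1 ∨ d = m2) (h1 : a ≠ b) (h2 : d ≠ b) : a = d := by
  rcases ha with rfl | rfl <;> rcases hb with rfl | rfl <;> rcases hd with rfl | rfl <;>
    first | rfl | exact absurd rfl h1 | exact absurd rfl h2

theorem own_card (hR : Real9 9 GG φ) (B : Bary φ ν x l κ) : 3 ≤ (Own φ x l κ).card := by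
  classical
  by_contra hcard
  push Not at hcard
  obtain ⟨m1, hm1⟩ := exists_mu_neg hR B
  obtain ⟨o0, ho0⟩ := exists_mu_pos B
  have hnex : ∀ m, (mu φ x l κ) m < 0 → m ≠ x := by rintro m hm rfl; rw [mu_x B] at hm; exact lt_irrefl _ hm
  have hpex : ∀ m, 0 < (mu φ x l κ) m → m ≠ x := by rintro m hm rfl; rw [mu_x B] at hm; exact lt_irrefl _ hm
  have ha : ∀ m, (mu φ x l κ) m < 0 → m ∈ Own φ x l κ := fun m hm => mem_own.2 ⟨hnex m hm, z x, Or.inl rfl, hm⟩
  have hb : ∀ j o, o ≠ x → (be φ x l κ) j o < 0 → o ∈ Own φ x l κ :=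
    fun j o hox ho => mem_own.2 ⟨hox, w x j, Or.inr ⟨j, rfl⟩, ho⟩
  have hsmall : ∀ a b d, a ∈ Own φ x l κ → b ∈ Own φ x l κ → d ∈ Own φ x l κ → a ≠ b → a ≠ d → b ≠ d → False := by
    intro a b d ha hb hd hab had hbd
    have h1 : ({a, b, d} : Finset (Fin 11)) ⊆ Own φ x l κ := by
      intro t ht
      simp only [Finset.mem_insert, Finset.mem_singleton] at ht
      rcases ht with rfl | rfl | rfl <;> assumption
    have h2 := Finset.card_le_card h1
    have h3 : ({a, b, d} : Finset (Fin 11)).card = 3 := Finset.card_eq_three.2 ⟨a, b, d, hab, had, hbd, rfl⟩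
    omega
  have hne_no : ∀ {m o : Fin 11}, (mu φ x l κ) m < 0 → 0 < (mu φ x l κ) o → m ≠ o := by
    rintro m o hm ho rfl; linarith
  -- basic consequence: for o positive and j its index, there is a cell (m, o)
  have hcz_pos : ∀ {j : Fin 9} {o : Fin 11}, x + off j = o → 0 < (mu φ x l κ) o →
      ∃ m, (mu φ x l κ) m < 0 ∧ (mu φ x l κ) o * (be φ x l κ) j m - (mu φ x l κ) m * (be φ x l κ) j o < 0 := by
    intro j o hj ho
    obtain ⟨m, o', hm, ho', hcell⟩ := cell_z hR B (j := j) ⟨m1, hm1⟩ (by rw [hj]; exact ho.ne')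
    rcases cell_mem hR B hm ho' hcell with h | h
    · rw [hj] at h; subst h; linarith
    · rw [hj] at h; subst h; exact ⟨m, hm, hcell⟩
  have hcz_neg : ∀ {j : Fin 9} {m : Fin 11}, x + off j = m → (mu φ x l κ) m < 0 →
      ∃ o, 0 < (mu φ x l κ) o ∧ (mu φ x l κ) o * (be φ x l κ) j m - (mu φ x l κ) m * (be φ x l κ) j o < 0 := by
    intro j m hj hm
    obtain ⟨m', o', hm', ho', hcell⟩ := cell_z hR B (j := j) ⟨m1, hm1⟩ (by rw [hj]; exact hm.ne)
    rcases cell_mem hR B hm' ho' hcell with h | h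
    · rw [hj] at h; subst h; exact ⟨o', ho', hcell⟩
    · rw [hj] at h; subst h; linarith
  -- for m negative with index j: two different cells
  have hcc_neg : ∀ {j : Fin 9} {m o1 : Fin 11}, x + off j = m → (mu φ x l κ) m < 0 → 0 < (mu φ x l κ) o1 →
      ∃ o, o ≠ o1 ∧ 0 < (mu φ x l κ) o ∧ (mu φ x l κ) o * (be φ x l κ) j m - (mu φ x l κ) m * (be φ x l κ) j o < 0 := by
    intro j m o1 hj hm ho1
    rcases cell_c hR B (j := j) o1 (hpex o1 ho1) (by rw [hj]; exact (hne_no hm ho1).symm)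
      (by rw [hj]; exact hm.ne) with ⟨m', o', _, ho'1, hm', ho', hcell⟩ | ⟨o', _, ho', hneg⟩
    · rcases cell_mem hR B hm' ho' hcell with h | h
      · rw [hj] at h; subst h; exact ⟨o', ho'1, ho', hcell⟩
      · rw [hj] at h; subst h; linarith
    · have := z_mem hR B (hpex o' ho') ho'.le hneg
      rw [hj] at this; subst this; linarith
  by_cases hA : ∃ m2, m2 ≠ m1 ∧ (mu φ x l κ) m2 < 0
  · obtain ⟨m2, hm21, hm2⟩ := hA
    have hneg12 : ∀ m, (mu φ x l κ) m < 0 → m = m1 ∨ m = m2 := by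
      intro m hm
      by_contra h
      push Not at h
      exact hsmall m m1 m2 (ha m hm) (ha m1 hm1) (ha m2 hm2) h.1 h.2 hm21.symm
    have hbe : ∀ j o, 0 < (mu φ x l κ) o → 0 ≤ (be φ x l κ) j o := by
      intro j o ho
      by_contra h
      push Not at h
      exact hsmall o m1 m2 (hb j o (hpex o ho) h) (ha m1 hm1) (ha m2 hm2)
        (hne_no hm1 ho).symm (hne_no hm2 ho).symm hm21.symm
    -- each positive o with index owns both cells
    have hboth : ∀ {j : Fin 9} {o : Fin 11}, x + off j = o → 0 < (mu φ x l κ) o → ∀ m, (mu φ x l κ) m < 0 →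
        (mu φ x l κ) o * (be φ x l κ) j m - (mu φ x l κ) m * (be φ x l κ) j o < 0 := by
      intro j o hj ho m hm
      obtain ⟨m', hm', hcell⟩ := hcz_pos hj ho
      by_cases hmm : m' = m
      · subst hmm; exact hcell
      · rcases cell_c hR B (j := j) m' (hnex m' hm') (by rw [hj]; exact hne_no hm' ho)
          (by rw [hj]; exact ho.ne') with ⟨m'', o', hm''1, _, hm'', ho', hcell'⟩ | ⟨o', _, ho', hneg⟩
        · rcases cell_mem hR B hm'' ho' hcell' with h | h
          · rw [hj] at h; subst h; linarith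
          · rw [hj] at h; subst h
            have : m'' = m := two_elem (hneg12 m'' hm'') (hneg12 m' hm') (hneg12 m hm) hm''1 (Ne.symm hmm)
            subst this; exact hcell'
        · have := hbe j o' ho'; linarith
    -- choose m among m1, m2 having an index
    have hm : ∃ m, (mu φ x l κ) m < 0 ∧ m ≠ x + 4 := by
      by_cases h : m1 = x + 4
      · exact ⟨m2, hm2, fun h' => hm21 (by rw [h', h])⟩
      · exact ⟨m1, hm1, h⟩
    obtain ⟨m, hmneg, hm4⟩ := hm
    obtain ⟨j, hj⟩ := exists_j x m (hnex m hmneg) hm4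
    obtain ⟨o1, ho1, hcell1⟩ := hcz_neg hj hmneg
    obtain ⟨o2, ho21, ho2, hcell2⟩ := hcc_neg hj hmneg ho1
    have : ∃ o, 0 < (mu φ x l κ) o ∧ o ≠ x + 4 ∧ (mu φ x l κ) o * (be φ x l κ) j m - (mu φ x l κ) m * (be φ x l κ) j o < 0 := by
      by_cases h : o1 = x + 4
      · exact ⟨o2, ho2, fun h' => ho21 (by rw [h', h]), hcell2⟩
      · exact ⟨o1, ho1, h, hcell1⟩
    obtain ⟨o, ho, ho4, hcell⟩ := this
    obtain ⟨i, hi⟩ := exists_j x o (hpex o ho) ho4
    have hij : i ≠ j := by
      rintro rfl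
      rw [hi] at hj
      exact hne_no hmneg ho hj.symm
    exact cell_disj hR B hij hmneg ho (hboth hi ho m hmneg) hcell
  · push Not at hA
    have hneg1 : ∀ m, (mu φ x l κ) m < 0 → m = m1 := by
      intro m hm
      by_contra h
      have := hA m h
      linarith
    -- positive o with an index : owns the cell (m1,o) and o ∈ Own
    have hcell1 : ∀ {j : Fin 9} {o : Fin 11}, x + off j = o → 0 < (mu φ x l κ) o →
        (mu φ x l κ) o * (be φ x l κ) j m1 - (mu φ x l κ) m1 * (be φ x l κ) j o < 0 := by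
      intro j o hj ho
      obtain ⟨m', hm', hcell⟩ := hcz_pos hj ho
      rw [hneg1 m' hm'] at hcell
      exact hcell
    have hown : ∀ o, o ≠ x + 4 → 0 < (mu φ x l κ) o → o ∈ Own φ x l κ := by
      intro o ho4 ho
      obtain ⟨j, hj⟩ := exists_j x o (hpex o ho) ho4
      rcases cell_c hR B (j := j) m1 (hnex m1 hm1) (by rw [hj]; exact hne_no hm1 ho)
          (by rw [hj]; exact ho.ne') with ⟨m'', o', hm''1, _, hm'', ho', hcell'⟩ | ⟨o', _, ho', hneg⟩
      · exact absurd (hneg1 m'' hm'') hm''1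
      · have := z_mem hR B (hpex o' ho') ho'.le hneg
        rw [hj] at this
        subst this
        exact hb j _ (hpex _ ho) hneg
    by_cases hm14 : m1 = x + 4
    · -- all positive indices are in Own, hence at most one
      have hone : ∀ o, 0 < (mu φ x l κ) o → o = o0 := by
        intro o ho
        by_contra h
        have h1 : o ≠ x + 4 := by rw [← hm14]; exact (hne_no hm1 ho).symm
        have h2 : o0 ≠ x + 4 := by rw [← hm14]; exact (hne_no hm1 ho0).symm
        exact hsmall o o0 m1 (hown o h1 ho) (hown o0 h2 ho0) (ha m1 hm1) h (hne_no hm1 ho).symm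
          (hne_no hm1 ho0).symm
      have hother : ∀ u, u ≠ m1 → u ≠ o0 → (mu φ x l κ) u = 0 := by
        intro u h1 h2
        rcases lt_trichotomy ((mu φ x l κ) u) 0 with h | h | h
        · exact absurd (hneg1 u h) h1
        · exact h
        · exact absurd (hone u h) h2
      obtain ⟨L, hL⟩ := hR.V (c o0)
      have hz := hL (z x) (by simp)
      have hc1 := hL (c m1) (by simpa using (hne_no hm1 ho0))
      have e2 : L (φ (z x)) = ∑ u, (mu φ x l κ) u * L (φ (c u)) := eval_rep B L (φ (z x))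
      have s2 : (∑ u, (mu φ x l κ) u) = 1 := B.rep1 (φ (z x))
      have hm1o : m1 ≠ o0 := hne_no hm1 ho0
      have e3 : ∑ u, (mu φ x l κ) u * L (φ (c u)) = (mu φ x l κ) m1 * L (φ (c m1)) + (mu φ x l κ) o0 * L (φ (c o0)) := by
        rw [← Finset.sum_subset (Finset.subset_univ ({m1, o0} : Finset (Fin 11)))]
        · rw [Finset.sum_pair hm1o]
        · intro u _ hu
          simp only [Finset.mem_insert, Finset.mem_singleton, not_or] at hu
          rw [hother u hu.1 hu.2]; simp
      have s3 : ∑ u, (mu φ x l κ) u = (mu φ x l κ) m1 + (mu φ x l κ) o0 := by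
        rw [← Finset.sum_subset (Finset.subset_univ ({m1, o0} : Finset (Fin 11)))]
        · rw [Finset.sum_pair hm1o]
        · intro u _ hu
          simp only [Finset.mem_insert, Finset.mem_singleton, not_or] at hu
          exact hother u hu.1 hu.2
      rw [s2] at s3
      rw [e3] at e2
      have h6 : (mu φ x l κ) m1 * L (φ (c o0)) < (mu φ x l κ) m1 * L (φ (c m1)) := mul_lt_mul_of_neg_left hc1 hm1
      have h7 : ((mu φ x l κ) m1 + (mu φ x l κ) o0) * L (φ (c o0)) = L (φ (c o0)) := by rw [← s3, one_mul]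
      nlinarith
    · obtain ⟨j, hj⟩ := exists_j x m1 (hnex m1 hm1) hm14
      obtain ⟨o1, ho1, hcell1'⟩ := hcz_neg hj hm1
      obtain ⟨o2, ho21, ho2, hcell2'⟩ := hcc_neg hj hm1 ho1
      have : ∃ o, 0 < (mu φ x l κ) o ∧ o ≠ x + 4 ∧ (mu φ x l κ) o * (be φ x l κ) j m1 - (mu φ x l κ) m1 * (be φ x l κ) j o < 0 := by
        by_cases h : o1 = x + 4
        · exact ⟨o2, ho2, fun h' => ho21 (by rw [h', h]), hcell2'⟩
        · exact ⟨o1, ho1, h, hcell1'⟩
      obtain ⟨o, ho, ho4, hcell⟩ := this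
      obtain ⟨i, hi⟩ := exists_j x o (hpex o ho) ho4
      have hij : i ≠ j := by
        rintro rfl
        rw [hi] at hj
        exact hne_no hm1 ho hj.symm
      exact cell_disj hR B hij hm1 ho (hcell1 hi ho) hcell

end gadget

lemma own_excl {φ : Vx → E 9} {ν : Fin 11 → ℝ} (hR : Real9 9 GG φ) {x y : Fin 11}
    {l l' : Fin 11 → (E 9 →L[ℝ] ℝ)} {κ κ' : Fin 11 → ℝ} (B : Bary φ ν x l κ) (B' : Bary φ ν y l' κ')
    (h1 : y ∈ Own φ x l κ) (h2 : x ∈ Own φ y l' κ') : False := by
  obtain ⟨hyx, v, hv, hneg⟩ := mem_own.1 h1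
  obtain ⟨hxy, v', hv', hneg'⟩ := mem_own.1 h2
  have hs := own_sign hR B hv hyx hneg
  have hs' := own_sign hR B' hv' hxy hneg'
  have hprop : ∀ p, l' x p + κ' x = (- ν x / ν y) * (l y p + κ y) := by
    intro p
    have e1 : l' x p = ∑ u, (l u p + κ u) * l' x (φ (c u)) := eval_rep B (l' x) p
    have e2 : κ' x = ∑ u, (l u p + κ u) * κ' x := by rw [← Finset.sum_mul, B.rep1, one_mul]
    have e3 : l' x p + κ' x = ∑ u, (l u p + κ u) * (l' x (φ (c u)) + κ' x) := by
      conv_lhs => rw [e1, e2]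
      rw [← Finset.sum_add_distrib]
      apply Finset.sum_congr rfl
      intro u _; ring
    rw [e3, Finset.sum_eq_single y]
    · rw [B'.hpx x hxy]; ring
    · intro u _ huy
      by_cases hux : u = x
      · subst hux; rw [B.hx]; simp
      · rw [B'.h0 x u huy hux]; simp
    · simp
  have hpos : 0 < - ν x / ν y := by
    have : - ν x / ν y = - (ν x / ν y) := by ring
    rw [this]; linarith
  have hneg2 : l y (φ v') + κ y < 0 := by
    rw [hprop] at hneg'
    by_contra h
    push Not at h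
    have := mul_nonneg hpos.le h
    linarith
  have hcore : ∀ u, 0 ≤ l y (φ (c u)) + κ y := by
    intro u
    by_cases hux : u = x
    · subst hux; rw [B.hpx y hyx]
      have : - ν y / ν u = - (ν y / ν u) := by ring
      rw [this]; linarith
    · exact B.nonneg y u hux
  apply gadget_sep hR hxy hv hv' (-(l y))
  · intro u; have := hcore u; simp; linarith
  · intro u; have := hcore u; simp; linarith

theorem no_real9 (φ : Vx → E 9) (hR : Real9 9 GG φ) : False := by
  classical
  obtain ⟨ν, hν0, hνL, hν⟩ := exists_nu hR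
  have hB : ∀ x, ∃ l κ, ν x ≠ 0 → Bary φ ν x l κ := by
    intro x
    by_cases hx : ν x = 0
    · exact ⟨fun _ => 0, fun _ => 0, fun h => absurd hx h⟩
    · obtain ⟨l, κ, h⟩ := exists_bary hR hνL hν x hx
      exact ⟨l, κ, fun _ => h⟩
  choose l κ hB using hB
  let P : Finset (Fin 11) := Finset.univ.filter (fun u => 0 < ν u)
  let Q : Finset (Fin 11) := Finset.univ.filter (fun u => ν u < 0)
  let O : Fin 11 → Finset (Fin 11) := fun x => Own φ x (l x) (κ x)
  have hOP : ∀ p ∈ P, ∀ q ∈ O p, q ∈ Q := by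
    intro p hp q hq
    have hp' : 0 < ν p := by simpa [P] using hp
    obtain ⟨hqp, v, hv, hneg⟩ := mem_own.1 hq
    have := own_sign hR (hB p hp'.ne') hv hqp hneg
    have h2 : ν q < 0 := by
      by_contra h; push Not at h
      have := div_nonneg h hp'.le
      linarith
    simpa [Q] using h2
  have hOQ : ∀ q ∈ Q, ∀ p ∈ O q, p ∈ P := by
    intro q hq p hp
    have hq' : ν q < 0 := by simpa [Q] using hq
    obtain ⟨hqp, v, hv, hneg⟩ := mem_own.1 hp
    have := own_sign hR (hB q hq'.ne) hv hqp hneg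
    have h2 : 0 < ν p := by
      by_contra h; push Not at h
      have := div_nonneg_of_nonpos h hq'.le
      linarith
    simpa [P] using h2
  let A1 : Finset (Fin 11 × Fin 11) := (P.sigma O).image (fun s => (s.1, s.2))
  let A2 : Finset (Fin 11 × Fin 11) := (Q.sigma O).image (fun s => (s.2, s.1))
  have hA1card : A1.card = ∑ p ∈ P, (O p).card := by
    rw [Finset.card_image_of_injOn, Finset.card_sigma]
    rintro ⟨a, b⟩ _ ⟨a', b'⟩ _ h
    simp only [Prod.mk.injEq] at h
    obtain ⟨rfl, rfl⟩ := h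
    rfl
  have hA2card : A2.card = ∑ q ∈ Q, (O q).card := by
    rw [Finset.card_image_of_injOn, Finset.card_sigma]
    rintro ⟨a, b⟩ _ ⟨a', b'⟩ _ h
    simp only [Prod.mk.injEq] at h
    obtain ⟨rfl, rfl⟩ := h
    rfl
  have hA1sub : A1 ⊆ P ×ˢ Q := by
    rintro ⟨p, q⟩ h
    simp only [A1, Finset.mem_image, Finset.mem_sigma] at h
    obtain ⟨⟨a, b⟩, ⟨ha, hb⟩, heq⟩ := h
    simp only [Prod.mk.injEq] at heq
    obtain ⟨rfl, rfl⟩ := heq
    exact Finset.mem_product.2 ⟨ha, hOP _ ha _ hb⟩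
  have hA2sub : A2 ⊆ P ×ˢ Q := by
    rintro ⟨p, q⟩ h
    simp only [A2, Finset.mem_image, Finset.mem_sigma] at h
    obtain ⟨⟨a, b⟩, ⟨ha, hb⟩, heq⟩ := h
    simp only [Prod.mk.injEq] at heq
    obtain ⟨rfl, rfl⟩ := heq
    exact Finset.mem_product.2 ⟨hOQ _ ha _ hb, ha⟩
  have hdisj : Disjoint A1 A2 := by
    rw [Finset.disjoint_left]
    rintro ⟨p, q⟩ h1 h2
    simp only [A1, Finset.mem_image, Finset.mem_sigma] at h1
    obtain ⟨⟨a, b⟩, ⟨ha, hb⟩, heq⟩ := h1
    simp only [Prod.mk.injEq] at heq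
    obtain ⟨rfl, rfl⟩ := heq
    simp only [A2, Finset.mem_image, Finset.mem_sigma] at h2
    obtain ⟨⟨a', b'⟩, ⟨ha', hb'⟩, heq⟩ := h2
    simp only [Prod.mk.injEq] at heq
    obtain ⟨rfl, rfl⟩ := heq
    have hp' : 0 < ν b' := by simpa [P] using ha
    have hq' : ν a' < 0 := by simpa [Q] using ha'
    exact own_excl hR (hB b' hp'.ne') (hB a' hq'.ne) hb hb'
  have hcard : A1.card + A2.card ≤ P.card * Q.card := by
    rw [← Finset.card_union_of_disjoint hdisj, ← Finset.card_product]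
    exact Finset.card_le_card (Finset.union_subset hA1sub hA2sub)
  have h3P : 3 * P.card ≤ A1.card := by
    rw [hA1card]
    calc 3 * P.card = ∑ p ∈ P, 3 := by simp [mul_comm]
      _ ≤ _ := Finset.sum_le_sum (fun p hp => own_card hR (hB p (by
          have : 0 < ν p := by simpa [P] using hp
          exact this.ne')))
  have h3Q : 3 * Q.card ≤ A2.card := by
    rw [hA2card]
    calc 3 * Q.card = ∑ q ∈ Q, 3 := by simp [mul_comm]
      _ ≤ _ := Finset.sum_le_sum (fun q hq => own_card hR (hB q (by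
          have : ν q < 0 := by simpa [Q] using hq
          exact this.ne)))
  have hPQ : Disjoint P Q := by
    rw [Finset.disjoint_left]
    intro a ha hb
    have h1 : 0 < ν a := by simpa [P] using ha
    have h2 : ν a < 0 := by simpa [Q] using hb
    linarith
  have h11 : P.card + Q.card ≤ 11 := by
    rw [← Finset.card_union_of_disjoint hPQ]
    exact (Finset.card_le_univ _).trans (by simp)
  have hpos : 0 < P.card + Q.card := by
    by_contra h
    push Not at h
    have hP : P = ∅ := Finset.card_eq_zero.1 (by omega)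
    have hQ : Q = ∅ := Finset.card_eq_zero.1 (by omega)
    apply hν0
    ext u
    rcases lt_trichotomy (ν u) 0 with h' | h' | h'
    · have : u ∈ Q := by simpa [Q] using h'
      rw [hQ] at this; simp at this
    · exact h'
    · have : u ∈ P := by simpa [P] using h'
      rw [hP] at this; simp at this
  have hfin : 3 * P.card + 3 * Q.card ≤ P.card * Q.card := by omega
  generalize P.card = a at hfin h11 hpos
  generalize Q.card = b at hfin h11 hpos
  have ha : a ≤ 11 := by omega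
  interval_cases a <;> omega

end Pool.Agent.TH368.GK
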