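import Pool.Agent.TH368.GKCore
import Pool.Agent.TH368.GKNon
import Pool.Agent.TH368.GKG8
import Pool.Agent.TH368.GKG10

set_option autoImplicit false

namespace Pool.Agent.TH368.GK

open Set

lemma d8eq1 : (fun c => (D8.e1 c : ℤ) - 7) = dd1 := by
  funext c; revert c; decide
lemma d8eq2 : (fun c => (D8.e2 c : ℤ) - 7) = dd2 := by
  funext c; revert c; decide
lemma d10eq1 : (fun c => (D10.e1 c : ℤ) - 7) = fun _ => 0 := by
  funext c; revert c; decide
lemma d10eq2 : (fun c => (D10.e2 c : ℤ) - 7) = fun _ => 0 := by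
  funext c; revert c; decide

theorem good8 : Good dd1 dd2 D8.aa := by
  have := D8.good
  rwa [d8eq1, d8eq2] at this

theorem good10 : Good (fun _ => 0) (fun _ => 0) D10.aa := by
  have := D10.good
  rwa [d10eq1, d10eq2] at this

noncomputable def P8 : Finset (E 8) := by
  classical
  exact Finset.image (ph q8 D8.aa) Finset.univ

noncomputable def P10 : Finset (E 10) := by
  classical
  exact Finset.image (ph q10 D10.aa) Finset.univ

lemma P8_coe : (P8 : Set (E 8)) = Set.range (ph q8 D8.aa) := by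
  classical
  simp [P8]

lemma P10_coe : (P10 : Set (E 10)) = Set.range (ph q10 D10.aa) := by
  classical
  simp [P10]

theorem P8_span : affineSpan ℝ (P8 : Set (E 8)) = ⊤ := by
  rw [P8_coe]; exact geo_span good8 core8

theorem P10_span : affineSpan ℝ (P10 : Set (E 10)) = ⊤ := by
  rw [P10_coe]; exact geo_span good10 core10

theorem P8_iso : Nonempty (Faces1 8 (convexHull ℝ (P8 : Set (E 8))) ≃o FG GG) := by
  rw [P8_coe]; exact geo_iso good8 core8

theorem P10_iso : Nonempty (Faces1 10 (convexHull ℝ (P10 : Set (E 10))) ≃o FG GG) := by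
  rw [P10_coe]; exact geo_iso good10 core10

theorem no_R9 (R : Finset (E 9)) (hspan : affineSpan ℝ (R : Set (E 9)) = ⊤)
    (h : Nonempty (Faces1 9 (convexHull ℝ (R : Set (E 9))) ≃o FG GG)) : False := by
  obtain ⟨e⟩ := h
  have : Nonempty Vx := ⟨.c 0⟩
  obtain ⟨φ, hφ⟩ := real_of_iso GG R hspan e.symm
  exact no_real9 φ hφ

end Pool.Agent.TH368.GK
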