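import Pool.Agent.TH336.ER.Stm
import Pool.Agent.TH336.OL.A1
import Pool.Agent.TH336.OL.A3

/-! Window: from the Gaussian averages to the lower bound on every ray in short intervals. -/

set_option autoImplicit false

open Complex MeasureTheory Set Filter Topology

namespace Pool.Agent.TH368.ER

open Pool.Agent.TH336.ER Pool.Agent.W188.QS Pool.Agent.W188.GP Pool.Agent.TH336.OL Pool.Agent.W188.MZ

/-- Gaussian integral in the centre -/
lemma gauss_le (D t a b : ℝ) (hD : 0 < D) (hab : a ≤ b) :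
    ∫ x in a..b, gg x D t ≤ √Real.pi * D := by
  have hpos : (0 : ℝ) < 1 / D ^ 2 := by positivity
  have e : (fun x => gg x D t) = fun x => Real.exp (-(1 / D ^ 2) * (x - t) ^ 2) := by
    funext x
    unfold gg
    congr 1
    field_simp
    ring
  have hint : Integrable (fun x : ℝ => Real.exp (-(1 / D ^ 2) * (x - t) ^ 2)) :=
    (integrable_exp_neg_mul_sq hpos).comp_sub_right t
  rw [intervalIntegral.integral_of_le hab, e]
  calc ∫ x in Ioc a b, Real.exp (-(1 / D ^ 2) * (x - t) ^ 2)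
      ≤ ∫ x : ℝ, Real.exp (-(1 / D ^ 2) * (x - t) ^ 2) := by
        apply setIntegral_le_integral hint
        exact Filter.Eventually.of_forall fun x => (Real.exp_pos _).le
    _ = ∫ x : ℝ, Real.exp (-(1 / D ^ 2) * x ^ 2) :=
        integral_sub_right_eq_self (fun x : ℝ => Real.exp (-(1 / D ^ 2) * x ^ 2)) t
    _ = √(Real.pi / (1 / D ^ 2)) := integral_gaussian _
    _ = √Real.pi * D := by
        rw [div_div_eq_mul_div, div_one, Real.sqrt_mul Real.pi_pos.le, Real.sqrt_sq hD.le]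

/-- number of sample points -/
lemma card_PP {c : ℂ} (hc : ‖c‖ = 1) (b : ℝ) (hb : 100 ≤ b) (S : Finset ℝ)
    (hS : ∀ t ∈ S, t ∈ PP c 1 ∧ t ≤ b) : (S.card : ℝ) ≤ Real.log b / 6 * (b - 100) + 1 := by
  obtain ⟨γ, hγ⟩ := pts_uniform a_tau a_line hc
  obtain ⟨h1, h2⟩ := hγ 1 le_rfl (fun _ => (1 : ℝ)) 100 b le_rfl hb
  rw [pow_one] at h1 h2
  have h3 := card_le a_tau (γ + (0 : ℕ) / (1 : ℕ)) 100 b b le_rfl hb le_rfl
  have h4 : (S.card : ℝ) ≤ ∑ᶠ t ∈ PP c 1 ∩ Ioc 100 b, (1 : ℝ) := by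
    rw [finsum_mem_eq_finite_toFinset_sum _ h1]
    rw [Finset.sum_const, nsmul_eq_mul, mul_one]
    have h5 : S ⊆ h1.toFinset := by
      intro t ht
      rw [Set.Finite.mem_toFinset]
      obtain ⟨e1, e2⟩ := hS t ht
      exact ⟨e1, e1.1, e2⟩
    exact_mod_cast Finset.card_le_card h5
  rw [h2] at h4
  rw [Finset.sum_range_one, Finset.sum_const, nsmul_eq_mul, mul_one] at h4
  linarith

/-- the positive part on the ray -/
noncomputable def RR (k : ℝ) (u : ℂ) (t : ℝ) : ℝ :=
  (max (riemannZeta (cp t) * (starRingEnd ℂ) u).re 0) ^ k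

lemma RR_nonneg (k : ℝ) (u : ℂ) (t : ℝ) : 0 ≤ RR k u t := Real.rpow_nonneg (le_max_right _ _) _

lemma RR_le {k : ℝ} (hk : 0 ≤ k) {u : ℂ} (hu : ‖u‖ = 1) (t : ℝ) : RR k u t ≤ ZZ t ^ k := by
  unfold RR
  apply Real.rpow_le_rpow (le_max_right _ _) _ hk
  apply max_le _ (norm_nonneg _)
  refine (Complex.re_le_norm _).trans (le_of_eq ?_)
  rw [norm_mul, RCLike.norm_conj, hu, mul_one]

lemma cc_eq {u : ℂ} (hu : ‖u‖ = 1) : (starRingEnd ℂ) u ^ 2 = cc u := by
  unfold cc
  rw [hu]
  congr 1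
  simp only [Complex.ofReal_one, div_one]
  rw [Complex.inv_def, Complex.normSq_eq_norm_sq, hu]
  simp

/-- the sum over the ray -/
lemma ray_sum {k : ℝ} (hk : 1 ≤ k) {u : ℂ} (hu : ‖u‖ = 1) (T U : ℝ) (hT : 100 ≤ T) (F : Finset ℝ)
    (hF : ∀ t, t ∈ F ↔ t ∈ PP ((starRingEnd ℂ) u ^ 2) 1 ∧ T < t ∧ t ≤ T + U) :
    ∑ t ∈ F, RR k u t ≤ ∑ᶠ t ∈ {t : ℝ | T < t ∧ t ≤ T + U ∧ ∃ r : ℝ, 0 < r ∧
          riemannZeta (1 / 2 + t * I) = r * u}, ‖riemannZeta (1 / 2 + t * I)‖ ^ k := by
  have hu0 : u ≠ 0 := by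
    intro h
    rw [h] at hu
    simp at hu
  have huu : u * (starRingEnd ℂ) u = 1 := by
    rw [Complex.mul_conj, Complex.normSq_eq_norm_sq, hu]
    simp
  rw [cc_eq hu] at hF
  have hsub : {t : ℝ | T < t ∧ t ≤ T + U ∧ ∃ r : ℝ, 0 < r ∧
      riemannZeta (1 / 2 + t * I) = r * u} ⊆ (F : Set ℝ) := by
    rintro t ⟨h1, h2, r, hr, h3⟩
    rw [Finset.mem_coe, hF]
    have h4 : t ∈ Pts u := ⟨by linarith, r, hr.ne', h3⟩
    exact ⟨(Pts_iff hu0 (Pts_ne hu0 h4)).1 h4, h1, h2⟩
  have hfin := (Finset.finite_toSet F).subset hsub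
  rw [finsum_mem_eq_finite_toFinset_sum _ hfin]
  have hsub2 : hfin.toFinset ⊆ F := by
    intro t ht
    rw [Set.Finite.mem_toFinset] at ht
    exact_mod_cast hsub ht
  have key : ∀ t ∈ F, t ∉ hfin.toFinset → RR k u t = 0 := by
    intro t ht hn
    rw [Set.Finite.mem_toFinset] at hn
    obtain ⟨h1, h2, h3⟩ := (hF t).1 ht
    unfold RR
    by_cases hz : z t = 0
    · have : riemannZeta (cp t) = 0 := hz
      rw [this, zero_mul, Complex.zero_re, max_self, Real.zero_rpow (by linarith)]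
    · obtain ⟨-, r, hr, h4⟩ := (Pts_iff hu0 hz).2 h1
      have h5 : riemannZeta (cp t) * (starRingEnd ℂ) u = r := by
        have : riemannZeta (cp t) = r * u := h4
        rw [this, mul_assoc, huu, mul_one]
      rw [h5, Complex.ofReal_re]
      rcases lt_or_gt_of_ne hr with h6 | h6
      · rw [max_eq_right h6.le, Real.zero_rpow (by linarith)]
      · exact absurd ⟨h2, h3, r, h6, h4⟩ hn
  rw [← Finset.sum_subset hsub2 key]
  refine le_of_eq (Finset.sum_congr rfl fun t ht => ?_)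
  rw [Set.Finite.mem_toFinset] at ht
  obtain ⟨h1, h2, r, hr, h3⟩ := ht
  unfold RR
  have h5 : riemannZeta (cp t) * (starRingEnd ℂ) u = r := by
    have : riemannZeta (cp t) = r * u := h3
    rw [this, mul_assoc, huu, mul_one]
  rw [h5, h3, Complex.ofReal_re, max_eq_left hr.le, norm_mul, hu, mul_one, Complex.norm_real,
    Real.norm_eq_abs, abs_of_pos hr]

/-- the far points contribute little -/
lemma far_sum {k : ℝ} (hk : 1 ≤ k) {u : ℂ} (hu : ‖u‖ = 1) (T U T' D C : ℝ) (hT : 1000 ≤ T)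
    (hU : 0 < U) (hT1 : T + U / 4 ≤ T') (hT2 : T' ≤ T + 3 * U / 4)
    (hC : 4 * (3 * k + 6) ≤ C) (hD : D = U / (C * √(Real.log T))) (S : Finset ℝ)
    (hS : ∀ t ∈ S, t ∈ PP ((starRingEnd ℂ) u ^ 2) 1 ∧ t ≤ 4 * T ∧ ¬ (T < t ∧ t ≤ T + U)) :
    ∑ t ∈ S, wg T' D t * RR k u t ≤ 1 := by
  have hT0 : (0 : ℝ) < T := by linarith
  have hL : 1 ≤ Real.log T := by
    rw [Real.le_log_iff_exp_le hT0]
    have := Real.exp_one_lt_d9
    linarith
  have hs : 0 < √(Real.log T) := Real.sqrt_pos.2 (by linarith)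
  have hss : √(Real.log T) ^ 2 = Real.log T := Real.sq_sqrt (by linarith)
  have hC0 : 0 < C := by linarith
  have hD0 : 0 < D := by rw [hD]; positivity
  have hcn : ‖(starRingEnd ℂ) u ^ 2‖ = 1 := by
    rw [norm_pow, RCLike.norm_conj, hu, one_pow]
  have h1 : ∀ t ∈ S, wg T' D t * RR k u t ≤
      2 * Real.pi * T ^ (-(3 * k + 6)) * T ^ (3 * k) := by
    intro t ht
    obtain ⟨e1, e2, e3⟩ := hS t ht
    have e4 : 100 < t := e1.1
    have e5 : ZZ t ≤ T ^ (3 : ℝ) := by
      refine (ZZ_le_sq e4.le).trans ?_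
      have : t ^ 2 ≤ (4 * T) ^ 2 := pow_le_pow_left₀ (by linarith) e2 2
      rw [show (3 : ℝ) = ((3 : ℕ) : ℝ) by norm_num, Real.rpow_natCast]
      nlinarith [sq_nonneg T]
    have e6 : RR k u t ≤ T ^ (3 * k) := by
      refine (RR_le (by linarith) hu t).trans ?_
      rw [Real.rpow_mul hT0.le]
      exact Real.rpow_le_rpow (norm_nonneg _) e5 (by linarith)
    have e7 : 1 ≤ lam t := (Pool.Agent.W338.QS.qs_line.1 t (by linarith)).2.2
    have e8 : gg T' D t ≤ T ^ (-(3 * k + 6)) := by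
      unfold gg
      rw [Real.rpow_def_of_pos hT0]
      apply Real.exp_le_exp.2
      have e9 : U / 4 ≤ |t - T'| := by
        rcases le_or_gt t T with h | h
        · rw [abs_of_nonpos (by linarith)]
          linarith
        · have : T + U < t := by
            by_contra hcon
            push Not at hcon
            exact e3 ⟨h, hcon⟩
          rw [abs_of_nonneg (by linarith)]
          linarith
      have e10 : C * √(Real.log T) / 4 ≤ |(t - T') / D| := by
        rw [abs_div, abs_of_pos hD0, le_div_iff₀ hD0]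
        refine le_trans (le_of_eq ?_) e9
        rw [hD]
        field_simp
      have e11 : (C * √(Real.log T) / 4) ^ 2 ≤ ((t - T') / D) ^ 2 := by
        rw [← sq_abs ((t - T') / D)]
        exact pow_le_pow_left₀ (by positivity) e10 2
      have e12 : (C * √(Real.log T) / 4) ^ 2 = C ^ 2 / 16 * Real.log T := by
        rw [div_pow, mul_pow, hss]
        ring
      have e13 : 3 * k + 6 ≤ C ^ 2 / 16 := by nlinarith
      have e14 : (3 * k + 6) * Real.log T ≤ C ^ 2 / 16 * Real.log T :=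
        mul_le_mul_of_nonneg_right e13 (by linarith)
      linarith
    unfold wg
    have e15 : 2 * Real.pi / lam t ≤ 2 * Real.pi := by
      rw [div_le_iff₀ (by linarith)]
      have := Real.pi_pos
      nlinarith
    have e16 : 0 ≤ 2 * Real.pi / lam t := by
      have := Real.pi_pos
      exact div_nonneg (by linarith) (by linarith)
    have e17 : 0 ≤ gg T' D t := (Real.exp_pos _).le
    have e18 : 2 * Real.pi / lam t * gg T' D t ≤ 2 * Real.pi * T ^ (-(3 * k + 6)) :=
      mul_le_mul e15 e8 e17 (by positivity)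
    exact mul_le_mul e18 e6 (RR_nonneg _ _ _) (by positivity)
  have h2 := Finset.sum_le_sum h1
  rw [Finset.sum_const, nsmul_eq_mul] at h2
  have h3 : (S.card : ℝ) ≤ T ^ (3 : ℝ) := by
    have e1 := card_PP hcn (4 * T) (by linarith) S (fun t ht => ⟨(hS t ht).1, (hS t ht).2.1⟩)
    have e2 : Real.log (4 * T) ≤ 4 * T := (Real.log_le_sub_one_of_pos (by linarith)).trans (by linarith)
    rw [show (3 : ℝ) = ((3 : ℕ) : ℝ) by norm_num, Real.rpow_natCast]
    have e3 : Real.log (4 * T) / 6 * (4 * T - 100) ≤ 4 * T / 6 * (4 * T - 100) :=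
      mul_le_mul_of_nonneg_right (by linarith) (by linarith)
    nlinarith [sq_nonneg T]
  have h4 : T ^ (3 : ℝ) * (2 * Real.pi * T ^ (-(3 * k + 6)) * T ^ (3 * k)) =
      2 * Real.pi * T ^ (-(3 : ℝ)) := by
    have : T ^ (3 : ℝ) * (2 * Real.pi * T ^ (-(3 * k + 6)) * T ^ (3 * k)) =
      2 * Real.pi * (T ^ (3 : ℝ) * T ^ (-(3 * k + 6)) * T ^ (3 * k)) := by ring
    rw [this, ← Real.rpow_add hT0, ← Real.rpow_add hT0]
    congr 2
    ring
  have h5 : (S.card : ℝ) * (2 * Real.pi * T ^ (-(3 * k + 6)) * T ^ (3 * k)) ≤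
      T ^ (3 : ℝ) * (2 * Real.pi * T ^ (-(3 * k + 6)) * T ^ (3 * k)) :=
    mul_le_mul_of_nonneg_right h3 (by positivity)
  rw [h4] at h5
  have h6 : 2 * Real.pi * T ^ (-(3 : ℝ)) ≤ 1 := by
    rw [Real.rpow_neg hT0.le, ← div_eq_mul_inv, div_le_one (by positivity),
      show (3 : ℝ) = ((3 : ℕ) : ℝ) by norm_num, Real.rpow_natCast]
    have := Real.pi_le_four
    nlinarith [sq_nonneg T]
  linarith

theorem window (k κ : ℝ) (hk : 1 ≤ k) (hκ : 0 ≤ κ) (h : StCentre k κ) : StRays k κ := by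
  obtain ⟨c₁, B, T₀, hc₁, hB, hcen⟩ := h
  obtain ⟨C, hCdef⟩ : ∃ C : ℝ, C = 2 * B + 4 * (3 * k + 6) := ⟨_, rfl⟩
  have hC1 : 2 * B ≤ C := by linarith
  have hC2 : 4 * (3 * k + 6) ≤ C := by linarith
  have hC38 : 38 ≤ C := by linarith
  have hC0 : 0 < C := by linarith
  have hpi := Real.pi_pos
  have hspi : 0 < √Real.pi := Real.sqrt_pos.2 hpi
  refine ⟨c₁ / (16 * Real.pi * √Real.pi * 2 ^ κ), 3,
    max T₀ (max 1000 (Real.exp (16 * C ^ 2 + 2 / c₁))), by positivity, ?_⟩
  intro T U hT hU hUT u hu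
  have hT0 : T₀ ≤ T := (le_max_left _ _).trans hT
  have hT1000 : 1000 ≤ T := ((le_max_left _ _).trans (le_max_right _ _)).trans hT
  have hTe : Real.exp (16 * C ^ 2 + 2 / c₁) ≤ T :=
    ((le_max_right _ _).trans (le_max_right _ _)).trans hT
  have hTpos : 0 < T := by linarith
  obtain ⟨L, hLdef⟩ : ∃ L : ℝ, L = Real.log T := ⟨_, rfl⟩
  have hL0 : 16 * C ^ 2 + 2 / c₁ ≤ L := by
    rw [hLdef, Real.le_log_iff_exp_le hTpos]
    exact hTe
  have h2c : 0 < 2 / c₁ := by positivity
  have hL1 : 16 * C ^ 2 ≤ L := by linarith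
  have hCC : (38 : ℝ) ^ 2 ≤ C ^ 2 := pow_le_pow_left₀ (by norm_num) hC38 2
  have hL2 : 2 / c₁ ≤ L := by linarith [sq_nonneg C]
  have hLbig : 1000 ≤ L := by linarith
  have hLC : C ≤ L := by
    have : C * 1 ≤ C * C := mul_le_mul_of_nonneg_left (by linarith) hC0.le
    linarith [sq_nonneg C, sq C]
  obtain ⟨s, hsdef⟩ : ∃ s : ℝ, s = √L := ⟨_, rfl⟩
  have hs2 : s ^ 2 = L := by rw [hsdef]; exact Real.sq_sqrt (by linarith)
  have hs0 : 0 ≤ s := by rw [hsdef]; exact Real.sqrt_nonneg _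
  have hsC : 4 * C ≤ s := by
    apply le_of_sq_le_sq _ hs0
    rw [hs2]
    linarith
  have hspos : 0 < s := by linarith
  have hU3 : L ^ 3 ≤ U := by
    rw [← hLdef, show (3 : ℝ) = ((3 : ℕ) : ℝ) by norm_num, Real.rpow_natCast] at hU
    exact hU
  have hUpos : 0 < U := lt_of_lt_of_le (by positivity) hU3
  obtain ⟨D, hDdef⟩ : ∃ D : ℝ, D = U / (C * s) := ⟨_, rfl⟩
  have hDpos : 0 < D := by rw [hDdef]; positivity
  have hDU : D * (C * s) = U := by
    rw [hDdef]
    field_simp
  have hD4 : 4 * L ^ 2 ≤ D := by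
    rw [hDdef, le_div_iff₀ (by positivity)]
    refine le_trans ?_ hU3
    rw [← hs2]
    have e1 : 4 * (s ^ 2) ^ 2 * (C * s) = (4 * C) * s ^ 5 := by ring
    have e2 : (s ^ 2) ^ 3 = s * s ^ 5 := by ring
    rw [e1, e2]
    exact mul_le_mul_of_nonneg_right hsC (by positivity)
  -- the finite set of sample points in the window
  have hcn : ‖(starRingEnd ℂ) u ^ 2‖ = 1 := by
    rw [norm_pow, RCLike.norm_conj, hu, one_pow]
  have hfin : ({t : ℝ | t ∈ PP ((starRingEnd ℂ) u ^ 2) 1 ∧ T < t ∧ t ≤ T + U}).Finite := by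
    have := a_line.2.2.2.2.2.2.2.2.2 ((starRingEnd ℂ) u ^ 2) 1 hcn le_rfl (T + U)
    exact this.subset fun t ht => ⟨ht.1, ht.2.2⟩
  obtain ⟨F, hF⟩ : ∃ F : Finset ℝ, ∀ t, t ∈ F ↔
      t ∈ PP ((starRingEnd ℂ) u ^ 2) 1 ∧ T < t ∧ t ≤ T + U :=
    ⟨hfin.toFinset, fun t => by rw [Set.Finite.mem_toFinset]; rfl⟩
  have hDL : L ≤ D := by
    have : L * 1 ≤ L * L := mul_le_mul_of_nonneg_left (by linarith) (by linarith)
    linarith [sq L]
  have hlogD1 : 1 ≤ Real.log D := by
    rw [Real.le_log_iff_exp_le hDpos]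
    have := Real.exp_one_lt_d9
    linarith
  have hlogDk : 1 ≤ Real.log D ^ κ := Real.one_le_rpow hlogD1 hκ
  have hbig : 1 ≤ c₁ / 2 * (D * Real.log D ^ κ) := by
    have e1 : 2 / c₁ ≤ D := hL2.trans hDL
    have e2 : 2 / c₁ ≤ D * Real.log D ^ κ := by
      have := mul_le_mul_of_nonneg_left hlogDk hDpos.le
      linarith
    have e3 : c₁ / 2 * (2 / c₁) = 1 := by field_simp
    rw [← e3]
    exact mul_le_mul_of_nonneg_left e2 (by positivity)
  have hwg0 : ∀ T' t : ℝ, t ∈ PP ((starRingEnd ℂ) u ^ 2) 1 → 0 ≤ wg T' D t := by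
    intro T' t ht
    have e4 : 100 < t := ht.1
    have e7 : 1 ≤ lam t := (Pool.Agent.W338.QS.qs_line.1 t (by linarith)).2.2
    unfold wg
    exact mul_nonneg (div_nonneg (by linarith) (by linarith)) (Real.exp_pos _).le
  -- the bound for every centre
  have hcl : ∀ T' : ℝ, T + U / 4 ≤ T' → T' ≤ T + 3 * U / 4 →
      c₁ / 2 * (D * Real.log D ^ κ) ≤ ∑ t ∈ F, wg T' D t * RR k u t := by
    intro T' h1 h2
    have hT'T : T ≤ T' := by linarith
    have hlog : Real.log T' ≤ 2 * L := by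
      have e1 : T' ≤ T ^ 2 := by
        have f1 : T * 2 ≤ T * T := mul_le_mul_of_nonneg_left (by linarith) hTpos.le
        rw [sq]
        linarith
      have e2 := Real.log_le_log (by linarith) e1
      rw [Real.log_pow] at e2
      rw [hLdef]
      exact_mod_cast e2
    have hlog0 : 0 ≤ Real.log T' := Real.log_nonneg (by linarith)
    have h3 : Real.log T' ^ 2 ≤ D := by
      refine le_trans ?_ hD4
      have f1 := pow_le_pow_left₀ hlog0 hlog 2
      have f2 : (2 * L) ^ 2 = 4 * L ^ 2 := by ring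
      linarith
    have h4 : B * D * √(Real.log T') ≤ T' := by
      have e1 : √(Real.log T') ≤ 2 * s := by
        rw [Real.sqrt_le_left (by linarith)]
        have : (2 * s) ^ 2 = 4 * L := by rw [mul_pow, hs2]; norm_num
        linarith
      have e2 : B * D * √(Real.log T') ≤ B * D * (2 * s) :=
        mul_le_mul_of_nonneg_left e1 (by positivity)
      have e3 : B * D * (2 * s) = 2 * B * (D * s) := by ring
      have e4 : 2 * B * (D * s) ≤ C * (D * s) :=
        mul_le_mul_of_nonneg_right hC1 (by positivity)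
      have e5 : C * (D * s) = U := by rw [← hDU]; ring
      linarith
    obtain ⟨α, β, S, hα, hβ, hSS, hsum⟩ := hcen u T' D hu (by linarith) h3 h4
    have hβ' := (abs_le.1 hβ).2
    have hsplit := Finset.sum_filter_add_sum_filter_not S (fun t => T < t ∧ t ≤ T + U)
      (fun t => wg T' D t * RR k u t)
    have h5 : ∑ t ∈ S with (T < t ∧ t ≤ T + U), wg T' D t * RR k u t ≤
        ∑ t ∈ F, wg T' D t * RR k u t := by
      apply Finset.sum_le_sum_of_subset_of_nonneg
      · intro t ht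
        rw [Finset.mem_filter] at ht
        rw [hF]
        exact ⟨((hSS t).1 ht.1).1, ht.2⟩
      · intro t ht _
        exact mul_nonneg (hwg0 T' t ((hF t).1 ht).1) (RR_nonneg _ _ _)
    have h6 : ∑ t ∈ S with ¬ (T < t ∧ t ≤ T + U), wg T' D t * RR k u t ≤ 1 := by
      apply far_sum hk hu T U T' D C hT1000 hUpos h1 h2 hC2
      · rw [← hLdef, ← hsdef]
        exact hDdef
      · intro t ht
        rw [Finset.mem_filter] at ht
        obtain ⟨e1, e2, e3⟩ := (hSS t).1 ht.1
        exact ⟨e1, by linarith, ht.2⟩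
    have h7 : c₁ * (D * Real.log D ^ κ) ≤ ∑ t ∈ S, wg T' D t * RR k u t := hsum
    linarith
  -- integrate over the centre
  obtain ⟨a, ha⟩ : ∃ a : ℝ, a = T + U / 4 := ⟨_, rfl⟩
  obtain ⟨b, hb⟩ : ∃ b : ℝ, b = T + 3 * U / 4 := ⟨_, rfl⟩
  have hab : a ≤ b := by rw [ha, hb]; linarith
  have hggc : ∀ t : ℝ, Continuous fun x : ℝ => gg x D t := by
    intro t
    unfold gg
    fun_prop
  have hcont : Continuous fun x : ℝ => ∑ t ∈ F, wg x D t * RR k u t := by
    apply continuous_finsetSum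
    intro t _
    unfold wg
    exact (continuous_const.mul (hggc t)).mul continuous_const
  have hI1 : (b - a) * (c₁ / 2 * (D * Real.log D ^ κ)) ≤
      ∫ x in a..b, ∑ t ∈ F, wg x D t * RR k u t := by
    have e1 : ∫ x in a..b, (c₁ / 2 * (D * Real.log D ^ κ)) =
        (b - a) * (c₁ / 2 * (D * Real.log D ^ κ)) := by
      rw [intervalIntegral.integral_const, smul_eq_mul]
    rw [← e1]
    apply intervalIntegral.integral_mono_on hab
    · exact intervalIntegrable_const
    · exact hcont.intervalIntegrable _ _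
    · intro x hx
      rw [mem_Icc, ha, hb] at hx
      exact hcl x hx.1 hx.2
  have hI2 : ∫ x in a..b, ∑ t ∈ F, wg x D t * RR k u t ≤
      ∑ t ∈ F, (4 * Real.pi / L) * RR k u t * (√Real.pi * D) := by
    rw [intervalIntegral.integral_finsetSum]
    · apply Finset.sum_le_sum
      intro t ht
      obtain ⟨e1, e2, e3⟩ := (hF t).1 ht
      have e4 : 100 < t := e1.1
      have e5 := (Pool.Agent.W338.QS.qs_line.1 t (by linarith)).2.1
      have e6 : L / 2 ≤ lam t := by
        have f1 := (abs_le.1 e5).1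
        have f2 : 14 / t ≤ 1 := by
          rw [div_le_one (by linarith)]
          linarith
        have f3 : Real.log (t / (2 * Real.pi)) = Real.log t - Real.log (2 * Real.pi) :=
          Real.log_div (by linarith) (by positivity)
        have f4 : Real.log (2 * Real.pi) ≤ 8 := by
          refine (Real.log_le_sub_one_of_pos (by positivity)).trans ?_
          have := Real.pi_le_four
          linarith
        have f5 : L ≤ Real.log t := by
          rw [hLdef]
          exact Real.log_le_log hTpos e2.le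
        linarith
      have e7 : ∫ x in a..b, wg x D t * RR k u t =
          2 * Real.pi / lam t * RR k u t * ∫ x in a..b, gg x D t := by
        rw [← intervalIntegral.integral_const_mul]
        congr 1
        funext x
        unfold wg
        ring
      rw [e7]
      have e8 : 2 * Real.pi / lam t ≤ 4 * Real.pi / L := by
        rw [div_le_div_iff₀ (by linarith) (by linarith)]
        have f1 := mul_le_mul_of_nonneg_left e6 (by positivity : 0 ≤ 4 * Real.pi)
        linarith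
      have e9 := gauss_le D t a b hDpos hab
      have e10 : 0 ≤ ∫ x in a..b, gg x D t :=
        intervalIntegral.integral_nonneg hab fun x _ => (Real.exp_pos _).le
      apply mul_le_mul _ e9 e10
      · exact mul_nonneg (by positivity) (RR_nonneg _ _ _)
      · exact mul_le_mul_of_nonneg_right e8 (RR_nonneg _ _ _)
    · intro t _
      apply Continuous.intervalIntegrable
      unfold wg
      exact (continuous_const.mul (hggc t)).mul continuous_const
  have hI3 : ∑ t ∈ F, (4 * Real.pi / L) * RR k u t * (√Real.pi * D) =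
      (4 * Real.pi / L) * (√Real.pi * D) * ∑ t ∈ F, RR k u t := by
    rw [Finset.mul_sum]
    apply Finset.sum_congr rfl
    intro t _
    ring
  have hbma : b - a = U / 2 := by rw [ha, hb]; ring
  rw [hbma] at hI1
  rw [hI3] at hI2
  have hI4 := hI1.trans hI2
  have hray := ray_sum hk hu T U (by linarith) F hF
  refine le_trans ?_ hray
  -- the final arithmetic
  have hlogU : Real.log U / 2 ≤ Real.log D := by
    have e1 : U ≤ D ^ 2 := by
      have f1 : D ^ 2 * (C * s) ^ 2 = U ^ 2 := by rw [← hDU]; ring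
      have f2 : (C * s) ^ 2 = C ^ 2 * L := by rw [mul_pow, hs2]
      rw [f2] at f1
      have f3 : C ^ 2 * L ≤ U := by
        refine le_trans ?_ hU3
        have g1 : C ^ 2 ≤ L ^ 2 := pow_le_pow_left₀ hC0.le hLC 2
        have g2 := mul_le_mul_of_nonneg_right g1 (by linarith : 0 ≤ L)
        have g3 : L ^ 2 * L = L ^ 3 := by ring
        linarith
      have f4 : 0 < C ^ 2 * L := by positivity
      by_contra hcon
      push Not at hcon
      have f5 : D ^ 2 * (C ^ 2 * L) < U * (C ^ 2 * L) := mul_lt_mul_of_pos_right hcon f4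
      have f6 : U * (C ^ 2 * L) ≤ U * U := mul_le_mul_of_nonneg_left f3 hUpos.le
      linarith [sq U]
    have e2 := Real.log_le_log hUpos e1
    rw [Real.log_pow] at e2
    push_cast at e2
    linarith
  have hlogU0 : 0 ≤ Real.log U := by
    apply Real.log_nonneg
    have : (1 : ℝ) ≤ L ^ 3 := one_le_pow₀ (by linarith)
    linarith
  have hk1 : Real.log U ^ κ / 2 ^ κ ≤ Real.log D ^ κ := by
    rw [← Real.div_rpow hlogU0 (by norm_num)]
    exact Real.rpow_le_rpow (by positivity) hlogU hκ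
  have h2k : (0 : ℝ) < 2 ^ κ := by positivity
  have hR0 : 0 ≤ ∑ t ∈ F, RR k u t := Finset.sum_nonneg fun t _ => RR_nonneg _ _ _
  have hfin1 : c₁ * U * L * Real.log D ^ κ ≤ 16 * Real.pi * √Real.pi * ∑ t ∈ F, RR k u t := by
    have e1 : U / 2 * (c₁ / 2 * (D * Real.log D ^ κ)) =
        (D / (4 * L)) * (c₁ * U * L * Real.log D ^ κ) := by
      field_simp
      ring
    have e2 : (4 * Real.pi / L) * (√Real.pi * D) * ∑ t ∈ F, RR k u t =
        (D / (4 * L)) * (16 * Real.pi * √Real.pi * ∑ t ∈ F, RR k u t) := by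
      field_simp
      ring
    rw [e1, e2] at hI4
    exact le_of_mul_le_mul_left hI4 (by positivity)
  rw [← hLdef]
  have hfin2 : c₁ * U * L * (Real.log U ^ κ / 2 ^ κ) ≤ c₁ * U * L * Real.log D ^ κ :=
    mul_le_mul_of_nonneg_left hk1 (by positivity)
  have hfin3 := hfin2.trans hfin1
  have e1 : c₁ / (16 * Real.pi * √Real.pi * 2 ^ κ) * (U * L * Real.log U ^ κ) =
      (c₁ * U * L * (Real.log U ^ κ / 2 ^ κ)) / (16 * Real.pi * √Real.pi) := by
    field_simp
  rw [e1, div_le_iff₀ (by positivity)]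
  linarith

end Pool.Agent.TH368.ER
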