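import Mathlib

set_option autoImplicit false

namespace Pool.Agent.TH368.GK

/-! ### the certificate checker (written with recursors so that the kernel evaluates it quickly) -/

abbrev BB : ℕ := 1099511627776

def dig (X : ℕ) : ℕ :=
  (X / 2582249878086908589655919172003011874329705792829223512830659356540647622016841194629645353280137831435903171972747493376) % 1099511627776

noncomputable def unl (k : ℕ) : ℕ → List ℕ :=
  Nat.rec (motive := fun _ => ℕ → List ℕ) (fun _ => [])
    (fun _ ih N => (N % 1099511627776) :: ih (N / 1099511627776)) k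

noncomputable def pk (l : List ℕ) : ℕ :=
  List.rec (motive := fun _ => ℕ) 0 (fun a _ ih => a + 1099511627776 * ih) l

noncomputable def allLt (b : ℕ) (l : List ℕ) : Bool :=
  List.rec (motive := fun _ => Bool) true (fun a _ ih => cond (Nat.blt a b) ih false) l

noncomputable def chkRows (N H i j : ℕ) (l : List (ℕ × ℕ × ℕ)) : ℕ → Bool :=
  List.rec (motive := fun _ => ℕ → Bool) (fun _ => true) (fun r _ ih k =>
    cond (cond (Nat.beq k i || Nat.beq k j) (Nat.beq (dig (N * r.1)) (r.2.1 + H))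
      (Nat.blt (dig (N * r.1)) (r.2.1 + H))) (ih (Nat.succ k)) false) l

noncomputable def edgeChk (D1 D2 ONES : ℕ) (rows : List (ℕ × ℕ × ℕ)) (i j N H : ℕ) : Bool :=
  cond (Nat.beq (pk (unl 11 N)) N)
    (cond (allLt 8388608 (unl 11 N))
      (cond (Nat.beq H (1024 * dig (N * ONES)))
        (cond (Nat.beq (dig (N * D1)) (7 * dig (N * ONES)))
          (cond (Nat.beq (dig (N * D2)) (7 * dig (N * ONES)))
            (chkRows N H i j rows 0) false) false) false) false) false

noncomputable def cmp (i : ℕ) (l : List ℕ) : List ℕ → ℕ → Bool :=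
  List.rec (motive := fun _ => List ℕ → ℕ → Bool) (fun _ _ => true)
    (fun a _ ih m k => List.rec (motive := fun _ => Bool) false
      (fun b bs _ => cond (cond (Nat.beq k i) (Nat.ble a b) (Nat.blt a b)) (ih bs (Nat.succ k)) false) m) l

noncomputable def neChk2 (D1 D2 ONES DC i Mu Mv Mz A B K p q : ℕ) : Bool :=
  cmp i (unl 11 (K * Mz + ((A + B) * 1024 + 7 * p + 7 * q) * ONES + DC))
    (unl 11 (A * Mu + B * Mv + p * D1 + q * D2 + (K * 1024 + 458752) * ONES)) 0

noncomputable def neChk (D1 D2 ONES DC i Mu Mv Mz cert : ℕ) : Bool :=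
  neChk2 D1 D2 ONES DC i Mu Mv Mz (cert % 65536) (cert / 65536 % 65536) (cert / 4294967296 % 65536)
    (cert / 281474976710656 % 65536) (cert / 18446744073709551616 % 65536)

/-- adjacency on tags, for `i < j` -/
def adjT (i j : ℕ) : Bool :=
  cond (Nat.blt j 11) true
    (cond (Nat.blt j 22) (cond (Nat.blt i 11) (!(Nat.beq (i + 11) j)) false)
      (cond (Nat.blt i 11)
        (cond (Nat.beq i ((j - 22) / 9)) false
          (!(Nat.beq i (((j - 22) / 9 + cond (Nat.blt ((j - 22) % 9) 3) ((j - 22) % 9 + 1) ((j - 22) % 9 + 2)) % 11))))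
        (Nat.beq i (11 + (j - 22) / 9))))

noncomputable def pairChk (D1 D2 ONES DC : ℕ) (rows : List (ℕ × ℕ × ℕ)) (i j Mu : ℕ) (r : ℕ × ℕ × ℕ)
    (c : ℕ × ℕ) : Bool :=
  cond (adjT i j) (edgeChk D1 D2 ONES rows i j c.1 c.2)
    (cond (Nat.blt j 11) false (neChk D1 D2 ONES DC i Mu r.1 r.2.2 c.1))

noncomputable def rowChk (D1 D2 ONES DC : ℕ) (rows : List (ℕ × ℕ × ℕ)) (i Mu : ℕ)
    (cs : List (ℕ × ℕ)) : List (ℕ × ℕ × ℕ) → ℕ → Bool :=
  List.rec (motive := fun _ => List (ℕ × ℕ × ℕ) → ℕ → Bool)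
    (fun tl _ => List.rec (motive := fun _ => Bool) true (fun _ _ _ => false) tl)
    (fun c _ ih tl j => List.rec (motive := fun _ => Bool) false
      (fun r rs _ => cond (pairChk D1 D2 ONES DC rows i j Mu r c) (ih rs (Nat.succ j)) false) tl) cs

noncomputable def allChk (D1 D2 ONES DC : ℕ) (rows : List (ℕ × ℕ × ℕ))
    (css : List (List (ℕ × ℕ))) : List (ℕ × ℕ × ℕ) → ℕ → Bool :=
  List.rec (motive := fun _ => List (ℕ × ℕ × ℕ) → ℕ → Bool) (fun _ _ => true)
    (fun cs _ ih tl i => List.rec (motive := fun _ => Bool) false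
      (fun r rs _ => cond (rowChk D1 D2 ONES DC rows i r.1 cs rs (Nat.succ i)) (ih rs (Nat.succ i)) false) tl) css

end Pool.Agent.TH368.GK
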