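import Pool.Agent.TH368.GKGeo

set_option autoImplicit false

namespace Pool.Agent.TH368.GK

open Set

lemma span_top {n : ℕ} (q : Fin 11 → E n) (c0 : Fin 11) (g : Fin n → Fin 11)
    (h : ∀ i, q (g i) - q c0 = EuclideanSpace.single i (1 : ℝ)) : affineSpan ℝ (Set.range q) = ⊤ := by
  have hne : (Set.range q).Nonempty := ⟨q c0, c0, rfl⟩
  rw [AffineSubspace.affineSpan_eq_top_iff_vectorSpan_eq_top_of_nonempty ℝ _ _ hne, eq_top_iff]
  intro x _
  have hx : x = ∑ i, x i • EuclideanSpace.single i (1 : ℝ) := by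
    ext k
    simp [Finset.sum_apply, Pi.single_apply]
  rw [hx]
  apply Submodule.sum_mem
  intro i _
  apply Submodule.smul_mem
  rw [← h i]
  exact vsub_mem_vectorSpan ℝ ⟨g i, rfl⟩ ⟨c0, rfl⟩

noncomputable def m8 : Fin 11 → Fin 8 → ℝ :=
  ![![0, 0, 0, 0, 0, 0, 0, 0],
    ![1, 0, 0, 0, 0, 0, 0, 0],
    ![0, 1, 0, 0, 0, 0, 0, 0],
    ![0, 0, 1, 0, 0, 0, 0, 0],
    ![0, 0, 0, 1, 0, 0, 0, 0],
    ![0, 0, 0, 0, 1, 0, 0, 0],
    ![0, 0, 0, 0, 0, 1, 0, 0],
    ![0, 0, 0, 0, 0, 0, 1, 0],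
    ![0, 0, 0, 0, 0, 0, 0, 1],
    ![52 / 32, 51 / 32, 43 / 32, 16 / 32, -14 / 32, -40 / 32, -55 / 32, -47 / 32],
    ![-60 / 32, -41 / 32, -17 / 32, 16 / 32, 42 / 32, 56 / 32, 53 / 32, 29 / 32]]

noncomputable def q8 (c : Fin 11) : E 8 := WithLp.toLp 2 (m8 c)

def dd1 : Fin 11 → ℤ := ![6, 5, 1, -3, -6, -7, -6, -3, 1, 5, 7]
def dd2 : Fin 11 → ℤ := ![2, 6, 7, 7, 4, 0, -4, -7, -7, -6, -2]

noncomputable def fun8 (v : Fin 8 → ℝ) : E 8 →L[ℝ] ℝ := ∑ i, v i • EuclideanSpace.proj i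

lemma fun8_apply (v : Fin 8 → ℝ) (c : Fin 11) : fun8 v (q8 c) = ∑ i, v i * m8 c i := by
  simp [fun8, q8]

theorem core8 : CoreOK 8 q8 dd1 dd2 := by
  constructor
  · ext i
    fin_cases i <;> simp [Fin.sum_univ_succ, dd1, q8, m8] <;> norm_num
  · ext i
    fin_cases i <;> simp [Fin.sum_univ_succ, dd2, q8, m8] <;> norm_num
  · intro h h1 h2
    refine ⟨fun8 ![h 1 - h 0, h 2 - h 0, h 3 - h 0, h 4 - h 0, h 5 - h 0, h 6 - h 0, h 7 - h 0, h 8 - h 0],
      - h 0, ?_⟩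
    intro c
    rw [fun8_apply]
    simp only [Fin.sum_univ_succ, dd1, dd2] at h1 h2
    simp at h1 h2
    fin_cases c <;> simp [Fin.sum_univ_succ, m8]
    all_goals first
      | linear_combination (1 / 16) * h1 + (7 / 32) * h2
      | linear_combination (-3 / 16) * h1 + (-5 / 32) * h2
      | ring
  · apply span_top q8 0 ![1, 2, 3, 4, 5, 6, 7, 8]
    intro i
    ext k
    fin_cases i <;> fin_cases k <;> simp [q8, m8]

noncomputable def m10 : Fin 11 → Fin 10 → ℝ := fun c i => if (c : ℕ) = i + 1 then 1 else 0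

noncomputable def q10 (c : Fin 11) : E 10 := WithLp.toLp 2 (m10 c)

noncomputable def fun10 (v : Fin 10 → ℝ) : E 10 →L[ℝ] ℝ := ∑ i, v i • EuclideanSpace.proj i

lemma fun10_apply (v : Fin 10 → ℝ) (c : Fin 11) : fun10 v (q10 c) = ∑ i, v i * m10 c i := by
  simp [fun10, q10]

theorem core10 : CoreOK 10 q10 (fun _ => 0) (fun _ => 0) := by
  constructor
  · simp
  · simp
  · intro h _ _
    refine ⟨fun10 (fun i => h i.succ - h 0), - h 0, ?_⟩
    intro c
    rw [fun10_apply]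
    refine Fin.cases ?_ (fun j => ?_) c
    · simp [m10]
    · simp only [m10, Fin.val_succ, add_left_inj]
      have : ∀ i : Fin 10, (h i.succ - h 0) * (if (j : ℕ) = i then (1 : ℝ) else 0)
          = if j = i then (h i.succ - h 0) else 0 := by
        intro i
        by_cases hji : j = i
        · rw [if_pos hji, if_pos (by rw [hji])]; ring
        · rw [if_neg hji, if_neg (fun h' => hji (Fin.ext h'))]; ring
      simp only [this]
      simp
      ring
  · apply span_top q10 0 Fin.succ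
    intro i
    ext k
    simp only [q10, m10, PiLp.sub_apply, Fin.val_succ, Fin.val_zero, add_left_inj, PiLp.single_apply,
      Fin.ext_iff]
    by_cases hik : (i : ℕ) = k
    · simp [hik]
    · simp [hik, Ne.symm hik]

end Pool.Agent.TH368.GK
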