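import Pool.Agent.TH368.GKSound2
import Pool.Agent.TH368.GKIso
import Pool.Agent.TH368.GKGraph

set_option autoImplicit false

namespace Pool.Agent.TH368.GK

open Set

/-- the tag of a vertex -/
def code : Vx → ℕ
  | .c x => x
  | .z x => 11 + x
  | .w x j => 22 + 9 * x + j

lemma code_lt : ∀ v : Vx, code v < 121 := by decide +kernel
lemma code_inj : ∀ u v : Vx, code u = code v → u = v := by decide +kernel
lemma code_adj : ∀ u v : Vx, code u < code v → adjB u v = adjT (code u) (code v) := by decide +kernel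

def nb1 : Vx → Vx
  | .c x => .c (x + 1)
  | .z x => .c (x + 1)
  | .w x _ => .z x
def nb2 : Vx → Vx
  | .c x => .c (x + 2)
  | .z x => .c (x + 2)
  | .w x _ => .c (x + 4)

lemma nb_spec : ∀ v : Vx, adjB v (nb1 v) = true ∧ adjB v (nb2 v) = true ∧ nb1 v ≠ nb2 v := by decide +kernel

structure CoreOK (n : ℕ) (q : Fin 11 → E n) (d1 d2 : Fin 11 → ℤ) : Prop where
  dep1 : ∑ c, (d1 c : ℝ) • q c = 0
  dep2 : ∑ c, (d2 c : ℝ) • q c = 0
  rep : ∀ h : Fin 11 → ℝ, ∑ c, h c * (d1 c : ℝ) = 0 → ∑ c, h c * (d2 c : ℝ) = 0 →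
    ∃ (f : E n →L[ℝ] ℝ) (b : ℝ), ∀ c, f (q c) = h c + b
  span : affineSpan ℝ (Set.range q) = ⊤

section
variable {n : ℕ} {q : Fin 11 → E n} {d1 d2 : Fin 11 → ℤ} {a : ℕ → Fin 11 → ℤ}

noncomputable def pt (q : Fin 11 → E n) (a : ℕ → Fin 11 → ℤ) (t : ℕ) : E n :=
  (1 / (∑ c, (a t c : ℝ))) • ∑ c, (a t c : ℝ) • q c

lemma pt_core (hG : Good d1 d2 a) (x : Fin 11) : pt q a x = q x := by
  unfold pt
  have h1 : ∀ c : Fin 11, (a x c : ℝ) = if c = x then 1 else 0 := by
    intro c; rw [hG.core x c]; split_ifs <;> norm_num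
  simp only [h1]
  simp

lemma f_pt (hG : Good d1 d2 a) (f : E n →L[ℝ] ℝ) (h : Fin 11 → ℝ) (b : ℝ) (hf : ∀ c, f (q c) = h c + b)
    (t : ℕ) (ht : t < 121) :
    f (pt q a t) = (∑ c, h c * (a t c : ℝ)) / (∑ c, (a t c : ℝ)) + b := by
  have hpos : (0 : ℝ) < ∑ c, (a t c : ℝ) := by exact_mod_cast hG.pos t ht
  unfold pt
  rw [map_smul, map_sum]
  simp only [map_smul, smul_eq_mul, hf]
  have : ∀ c, (a t c : ℝ) * (h c + b) = h c * (a t c : ℝ) + b * (a t c : ℝ) := fun c => by ring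
  simp only [this, Finset.sum_add_distrib, ← Finset.mul_sum]
  field_simp

lemma edge_f (hG : Good d1 d2 a) (hC : CoreOK n q d1 d2) (i j : ℕ) (hij : i < j) (hj : j < 121)
    (hadj : adjT i j = true) : ∃ l : E n →L[ℝ] ℝ, l (pt q a i) = l (pt q a j) ∧
      ∀ t < 121, t ≠ i → t ≠ j → l (pt q a t) < l (pt q a i) := by
  obtain ⟨h, h1, h2, h3, h4, h5⟩ := hG.edge i j hij hj hadj
  obtain ⟨f, b, hf⟩ := hC.rep (fun c => (h c : ℝ)) (by exact_mod_cast h1) (by exact_mod_cast h2)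
  have e1 : f (pt q a i) = b := by
    rw [f_pt hG f _ b hf i (by omega)]
    have : (∑ c, (h c : ℝ) * (a i c : ℝ)) = 0 := by exact_mod_cast h3
    rw [this]; simp
  have e2 : f (pt q a j) = b := by
    rw [f_pt hG f _ b hf j hj]
    have : (∑ c, (h c : ℝ) * (a j c : ℝ)) = 0 := by exact_mod_cast h4
    rw [this]; simp
  refine ⟨f, by rw [e1, e2], ?_⟩
  intro t ht hti htj
  rw [e1, f_pt hG f _ b hf t ht]
  have h6 : (∑ c, (h c : ℝ) * (a t c : ℝ)) < 0 := by exact_mod_cast h5 t ht hti htj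
  have hpos : (0 : ℝ) < ∑ c, (a t c : ℝ) := by exact_mod_cast hG.pos t ht
  have := div_neg_of_neg_of_pos h6 hpos
  linarith

lemma nonedge_f (hG : Good d1 d2 a) (hC : CoreOK n q d1 d2) (i j : ℕ) (hij : i < j) (hj : j < 121)
    (hadj : adjT i j = false) : ¬ ∃ l : E n →L[ℝ] ℝ, l (pt q a i) = l (pt q a j) ∧
      ∀ t < 121, t ≠ i → t ≠ j → l (pt q a t) < l (pt q a i) := by
  rintro ⟨f, hf1, hf2⟩
  obtain ⟨hj11, A, B, K, p, r, z, hz, hK, hc⟩ := hG.nonedge i j hij hj hadj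
  set M := f (pt q a i) with hM
  have hle : ∀ t < 121, f (pt q a t) ≤ M := by
    intro t ht
    by_cases h1 : t = i
    · rw [h1]
    · by_cases h2 : t = j
      · rw [h2, ← hf1]
      · exact (hf2 t ht h1 h2).le
  -- value of the functional
  have hval : ∀ t < 121, ∑ c, (a t c : ℝ) * (f (q c) - M) = (∑ c, (a t c : ℝ)) * (f (pt q a t) - M) := by
    intro t ht
    have hpos : (0 : ℝ) < ∑ c, (a t c : ℝ) := by exact_mod_cast hG.pos t ht
    have h1 := f_pt (q := q) hG f (fun c => f (q c)) 0 (fun c => by simp) t ht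
    rw [h1]
    have : ∀ c, (a t c : ℝ) * (f (q c) - M) = f (q c) * (a t c : ℝ) - M * (a t c : ℝ) := fun c => by ring
    simp only [this, Finset.sum_sub_distrib, ← Finset.mul_sum]
    field_simp
    ring
  have hi0 : ∑ c, (a i c : ℝ) * (f (q c) - M) = 0 := by
    rw [hval i (by omega), ← hM]; ring
  have hj0 : ∑ c, (a j c : ℝ) * (f (q c) - M) = 0 := by
    rw [hval j hj, ← hf1]; ring
  have hzle : ∑ c, (a z c : ℝ) * (f (q c) - M) ≤ 0 := by
    rw [hval z hz]
    have hpos : (0 : ℝ) < ∑ c, (a z c : ℝ) := by exact_mod_cast hG.pos z hz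
    have := hle z hz
    nlinarith
  have s1 : (∑ c, (d1 c : ℝ)) = 0 := by exact_mod_cast hG.s1
  have s2 : (∑ c, (d2 c : ℝ)) = 0 := by exact_mod_cast hG.s2
  have hd1 : ∑ c, (d1 c : ℝ) * (f (q c) - M) = 0 := by
    have h1 : f (∑ c, (d1 c : ℝ) • q c) = 0 := by rw [hC.dep1, map_zero]
    rw [map_sum] at h1
    simp only [map_smul, smul_eq_mul] at h1
    have : ∀ c, (d1 c : ℝ) * (f (q c) - M) = (d1 c : ℝ) * f (q c) - M * (d1 c : ℝ) := fun c => by ring
    simp only [this, Finset.sum_sub_distrib, ← Finset.mul_sum]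
    rw [h1, s1]; ring
  have hd2 : ∑ c, (d2 c : ℝ) * (f (q c) - M) = 0 := by
    have h1 : f (∑ c, (d2 c : ℝ) • q c) = 0 := by rw [hC.dep2, map_zero]
    rw [map_sum] at h1
    simp only [map_smul, smul_eq_mul] at h1
    have : ∀ c, (d2 c : ℝ) * (f (q c) - M) = (d2 c : ℝ) * f (q c) - M * (d2 c : ℝ) := fun c => by ring
    simp only [this, Finset.sum_sub_distrib, ← Finset.mul_sum]
    rw [h1, s2]; ring
  -- the remainder
  set R : Fin 11 → ℝ := fun c => (A : ℝ) * a i c + B * a j c + p * d1 c + r * d2 c - K * a z c with hR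
  have hR0 : ∀ c, 0 ≤ R c := by
    intro c
    have := (hc c).1
    have : (K : ℝ) * a z c ≤ A * a i c + B * a j c + p * d1 c + r * d2 c := by exact_mod_cast this
    simp only [hR]; linarith
  have hRp : ∀ c : Fin 11, (c : ℕ) ≠ i → 0 < R c := by
    intro c hci
    have := (hc c).2 hci
    have : (K : ℝ) * a z c < A * a i c + B * a j c + p * d1 c + r * d2 c := by exact_mod_cast this
    simp only [hR]; linarith
  have hsum : ∑ c, R c * (f (q c) - M) = - (K * ∑ c, (a z c : ℝ) * (f (q c) - M)) := by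
    have : ∀ c, R c * (f (q c) - M) = A * ((a i c : ℝ) * (f (q c) - M)) + B * ((a j c : ℝ) * (f (q c) - M))
        + p * ((d1 c : ℝ) * (f (q c) - M)) + r * ((d2 c : ℝ) * (f (q c) - M))
        - K * ((a z c : ℝ) * (f (q c) - M)) := fun c => by simp only [hR]; ring
    simp only [this, Finset.sum_add_distrib, Finset.sum_sub_distrib, ← Finset.mul_sum]
    rw [hi0, hj0, hd1, hd2]; ring
  have hqle : ∀ c : Fin 11, f (q c) ≤ M := by
    intro c
    rw [← pt_core (q := q) hG c]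
    exact hle c (by have := c.isLt; omega)
  have hqlt : ∀ c : Fin 11, (c : ℕ) ≠ i → f (q c) < M := by
    intro c hci
    have h1 := hf2 c (by have := c.isLt; omega) hci (by have := c.isLt; omega)
    rwa [pt_core hG c] at h1
  have hneg : ∑ c, R c * (f (q c) - M) < 0 := by
    obtain ⟨c0, hc0⟩ : ∃ c0 : Fin 11, (c0 : ℕ) ≠ i := by
      by_cases h0 : i = 0
      · exact ⟨1, by rw [h0]; decide⟩
      · exact ⟨0, fun h => h0 (by rw [← h]; rfl)⟩
    have h1 : ∀ c ∈ Finset.univ, R c * (f (q c) - M) ≤ 0 := by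
      intro c _
      have := hR0 c
      have := hqle c
      nlinarith
    have h2 : R c0 * (f (q c0) - M) < 0 := by
      have := hRp c0 hc0
      have := hqlt c0 hc0
      nlinarith
    calc ∑ c, R c * (f (q c) - M) < ∑ c : Fin 11, (0 : ℝ) :=
          Finset.sum_lt_sum h1 ⟨c0, Finset.mem_univ _, h2⟩
      _ = 0 := by simp
  have hKr : (0 : ℝ) ≤ K := by exact_mod_cast hK
  have : 0 ≤ - ((K : ℝ) * ∑ c, (a z c : ℝ) * (f (q c) - M)) := by nlinarith
  rw [hsum] at hneg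
  linarith

noncomputable def ph (q : Fin 11 → E n) (a : ℕ → Fin 11 → ℤ) (v : Vx) : E n := pt q a (code v)

lemma exists_code (t : ℕ) (ht : t < 121) : ∃ v : Vx, code v = t := by
  have h : ∀ t : Fin 121, ∃ v : Vx, code v = t := by decide +kernel
  exact h ⟨t, ht⟩

lemma Ed_ph (hG : Good d1 d2 a) (hC : CoreOK n q d1 d2) (u v : Vx) (h : GG.Adj u v) :
    ∃ l : E n →L[ℝ] ℝ, l (ph q a u) = l (ph q a v) ∧
      ∀ t, t ≠ u → t ≠ v → l (ph q a t) < l (ph q a u) := by
  have hne : code u ≠ code v := fun h' => h.ne (code_inj u v h')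
  rcases lt_or_gt_of_ne hne with hlt | hlt
  · have hadj : adjT (code u) (code v) = true := by rw [← code_adj u v hlt]; exact h
    obtain ⟨l, h1, h2⟩ := edge_f hG hC _ _ hlt (code_lt v) hadj
    exact ⟨l, h1, fun t htu htv => h2 _ (code_lt t) (fun h' => htu (code_inj _ _ h'))
      (fun h' => htv (code_inj _ _ h'))⟩
  · have hadj : adjT (code v) (code u) = true := by rw [← code_adj v u hlt]; exact h.symm
    obtain ⟨l, h1, h2⟩ := edge_f hG hC _ _ hlt (code_lt u) hadj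
    refine ⟨l, h1.symm, fun t htu htv => ?_⟩
    have := h2 _ (code_lt t) (fun h' => htv (code_inj _ _ h')) (fun h' => htu (code_inj _ _ h'))
    rw [h1] at this
    exact this

lemma NE_ph (hG : Good d1 d2 a) (hC : CoreOK n q d1 d2) (u v : Vx) (huv : u ≠ v) (h : ¬ GG.Adj u v) :
    ¬ ∃ l : E n →L[ℝ] ℝ, l (ph q a u) = l (ph q a v) ∧
      ∀ t, t ≠ u → t ≠ v → l (ph q a t) < l (ph q a u) := by
  have hne : code u ≠ code v := fun h' => huv (code_inj u v h')
  rintro ⟨l, h1, h2⟩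
  rcases lt_or_gt_of_ne hne with hlt | hlt
  · have hadj : adjT (code u) (code v) = false := by
      rw [← code_adj u v hlt, ← Bool.not_eq_true]; exact h
    apply nonedge_f hG hC _ _ hlt (code_lt v) hadj
    refine ⟨l, h1, fun t ht htu htv => ?_⟩
    obtain ⟨w, rfl⟩ := exists_code t ht
    exact h2 w (fun h' => htu (by rw [h'])) (fun h' => htv (by rw [h']))
  · have hadj : adjT (code v) (code u) = false := by
      rw [← code_adj v u hlt, ← Bool.not_eq_true]; exact fun h' => h (GG.adj_symm h')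
    apply nonedge_f hG hC _ _ hlt (code_lt u) hadj
    refine ⟨l, h1.symm, fun t ht htu htv => ?_⟩
    obtain ⟨w, rfl⟩ := exists_code t ht
    have := h2 w (fun h' => htv (by rw [h'])) (fun h' => htu (by rw [h']))
    have h1' : l (pt q a (code u)) = l (pt q a (code v)) := h1
    rw [← h1']
    exact this

lemma V_ph (hG : Good d1 d2 a) (hC : CoreOK n q d1 d2) (v : Vx) :
    ∃ l : E n →L[ℝ] ℝ, ∀ t, t ≠ v → l (ph q a t) < l (ph q a v) := by
  obtain ⟨n1, n2, n3⟩ := nb_spec v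
  obtain ⟨l1, h1, h1'⟩ := Ed_ph hG hC v (nb1 v) n1
  obtain ⟨l2, h2, h2'⟩ := Ed_ph hG hC v (nb2 v) n2
  refine ⟨l1 + l2, fun t ht => ?_⟩
  simp only [add_apply]
  by_cases ht1 : t = nb1 v
  · have a1 : l1 (ph q a t) = l1 (ph q a v) := by rw [ht1, h1]
    have a2 : l2 (ph q a t) < l2 (ph q a v) := h2' t ht (fun h' => n3 (by rw [← ht1, h']))
    linarith
  · have a1 : l1 (ph q a t) < l1 (ph q a v) := h1' t ht ht1
    have a2 : l2 (ph q a t) ≤ l2 (ph q a v) := by
      by_cases ht2 : t = nb2 v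
      · rw [ht2, h2]
      · exact (h2' t ht ht2).le
    linarith

theorem geo_iso (hG : Good d1 d2 a) (hC : CoreOK n q d1 d2) :
    Nonempty (Faces1 n (convexHull ℝ (Set.range (ph q a))) ≃o FG GG) :=
  faces_iso GG (ph q a) (V_ph hG hC) (Ed_ph hG hC) (NE_ph hG hC)

theorem geo_span (hG : Good d1 d2 a) (hC : CoreOK n q d1 d2) :
    affineSpan ℝ (Set.range (ph q a)) = ⊤ := by
  rw [eq_top_iff, ← hC.span]
  apply affineSpan_mono
  rintro _ ⟨c, rfl⟩
  exact ⟨.c c, pt_core hG c⟩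

end

end Pool.Agent.TH368.GK
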