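import Pool.Agent.TH368.GKCheck

set_option autoImplicit false

namespace Pool.Agent.TH368.GK

lemma cond_false_eq_true {a b : Bool} (h : cond a b false = true) : a = true ∧ b = true := by
  cases a <;> simp_all

/-! ### digits -/

lemma unl_succ (k N : ℕ) : unl (k + 1) N = (N % 1099511627776) :: unl k (N / 1099511627776) := rfl
lemma pk_nil : pk [] = 0 := rfl
lemma pk_cons (a : ℕ) (l : List ℕ) : pk (a :: l) = a + 1099511627776 * pk l := rfl
lemma allLt_cons (b a : ℕ) (l : List ℕ) : allLt b (a :: l) = cond (Nat.blt a b) (allLt b l) false := rfl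

lemma allLt_sound (b : ℕ) : ∀ l : List ℕ, allLt b l = true → ∀ x ∈ l, x < b := by
  intro l
  induction l with
  | nil => intro _ x hx; cases hx
  | cons a l ih =>
    intro h x hx
    rw [allLt_cons] at h
    obtain ⟨h1, h2⟩ := cond_false_eq_true h
    rcases List.mem_cons.1 hx with rfl | hx
    · simpa [Nat.blt_eq] using h1
    · exact ih h2 x hx

lemma unl_eq (k : ℕ) : ∀ N : ℕ, unl k N = List.ofFn (fun c : Fin k => N / 1099511627776 ^ (c : ℕ) % 1099511627776) := by
  induction k with
  | zero => intro N; rfl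
  | succ k ih =>
    intro N
    rw [unl_succ, ih, List.ofFn_succ]
    congr 1
    · simp
    · congr 1
      funext c
      rw [Nat.div_div_eq_div_mul, Fin.val_succ, pow_succ, mul_comm]

lemma pk_ofFn : ∀ (k : ℕ) (f : Fin k → ℕ), pk (List.ofFn f) = ∑ c, f c * 1099511627776 ^ (c : ℕ) := by
  intro k
  induction k with
  | zero => intro f; simp [pk_nil]
  | succ k ih =>
    intro f
    rw [List.ofFn_succ, pk_cons, ih, Fin.sum_univ_succ, Finset.mul_sum]
    simp only [Fin.val_zero, pow_zero, mul_one, Fin.val_succ, pow_succ]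
    congr 1
    apply Finset.sum_congr rfl
    intro c _
    ring

lemma unl_pk : ∀ l : List ℕ, (∀ x ∈ l, x < 1099511627776) → unl l.length (pk l) = l := by
  intro l
  induction l with
  | nil => intro _; rfl
  | cons a l ih =>
    intro h
    have ha : a < 1099511627776 := h a (by simp)
    rw [List.length_cons, unl_succ, pk_cons]
    congr 1
    · rw [Nat.add_mul_mod_self_left, Nat.mod_eq_of_lt ha]
    · rw [Nat.add_mul_div_left _ _ (by norm_num), Nat.div_eq_of_lt ha, zero_add]
      exact ih (fun x hx => h x (by simp [hx]))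

lemma unl_sum (f : Fin 11 → ℕ) (h : ∀ c, f c < 1099511627776) :
    unl 11 (∑ c, f c * 1099511627776 ^ (c : ℕ)) = List.ofFn f := by
  have := unl_pk (List.ofFn f) (by
    intro x hx
    rw [List.mem_ofFn] at hx
    obtain ⟨c, rfl⟩ := hx
    exact h c)
  rwa [List.length_ofFn, pk_ofFn] at this

/-- the digits -/
def dg (N : ℕ) (c : Fin 11) : ℕ := N / 1099511627776 ^ (c : ℕ) % 1099511627776

lemma unl_dg (N : ℕ) : unl 11 N = List.ofFn (dg N) := unl_eq 11 N

lemma sum_dg {N : ℕ} (h : pk (unl 11 N) = N) : ∑ c, dg N c * 1099511627776 ^ (c : ℕ) = N := by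
  rw [← pk_ofFn, ← unl_dg, h]

lemma dg_lt {N b : ℕ} (h : allLt b (unl 11 N) = true) (c : Fin 11) : dg N c < b := by
  apply allLt_sound b _ h
  rw [unl_dg, List.mem_ofFn]
  exact ⟨c, rfl⟩

lemma dg_sum (f : Fin 11 → ℕ) (h : ∀ c, f c < 1099511627776) (c : Fin 11) :
    dg (∑ c, f c * 1099511627776 ^ (c : ℕ)) c = f c := by
  have h1 := unl_sum f h
  rw [unl_dg] at h1
  exact congrFun (List.ofFn_injective h1) c

/-! ### the middle digit of a product -/

lemma tri : (∑ c : Fin 11, ∑ d : Fin 11, if (d : ℕ) < c then (17179869184 : ℕ) * 1099511627776 ^ 9 else 0)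
    < 1099511627776 ^ 10 := by
  decide +kernel

lemma dig_mul (g a : Fin 11 → ℕ) (hg : ∀ c, g c < 8388608) (ha : ∀ c, a c < 2048) :
    dig ((∑ c : Fin 11, g c * 1099511627776 ^ (10 - (c : ℕ))) * (∑ c : Fin 11, a c * 1099511627776 ^ (c : ℕ)))
      = ∑ c, g c * a c := by
  set B : ℕ := 1099511627776 with hB
  have hexp : (∑ c : Fin 11, g c * B ^ (10 - (c : ℕ))) * (∑ c : Fin 11, a c * B ^ (c : ℕ))
      = (∑ c : Fin 11, ∑ d : Fin 11, if (d : ℕ) < c then g c * a d * B ^ (10 - (c : ℕ) + d) else 0)
      + (∑ c : Fin 11, ∑ d : Fin 11, if d = c then g c * a d * B ^ (10 - (c : ℕ) + d) else 0)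
      + (∑ c : Fin 11, ∑ d : Fin 11, if (c : ℕ) < d then g c * a d * B ^ (10 - (c : ℕ) + d) else 0) := by
    rw [Finset.sum_mul_sum, ← Finset.sum_add_distrib, ← Finset.sum_add_distrib]
    apply Finset.sum_congr rfl
    intro c _
    rw [← Finset.sum_add_distrib, ← Finset.sum_add_distrib]
    apply Finset.sum_congr rfl
    intro d _
    rcases lt_trichotomy (d : ℕ) (c : ℕ) with h | h | h
    · have h1 : ¬ (d = c) := fun h' => by rw [h'] at h; exact lt_irrefl _ h
      have h2 : ¬ ((c : ℕ) < d) := by omega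
      rw [if_pos h, if_neg h1, if_neg h2, pow_add]; ring
    · have h1 : d = c := Fin.ext h
      have h2 : ¬ ((c : ℕ) < d) := by omega
      have h3 : ¬ ((d : ℕ) < c) := by omega
      rw [if_neg h3, if_pos h1, if_neg h2, pow_add]; ring
    · have h1 : ¬ (d = c) := fun h' => by rw [h'] at h; exact lt_irrefl _ h
      have h2 : ¬ ((d : ℕ) < c) := by omega
      rw [if_neg h2, if_neg h1, if_pos h, pow_add]; ring
  have hmid : (∑ c : Fin 11, ∑ d : Fin 11, if d = c then g c * a d * B ^ (10 - (c : ℕ) + d) else 0)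
      = (∑ c, g c * a c) * B ^ 10 := by
    rw [Finset.sum_mul]
    apply Finset.sum_congr rfl
    intro c _
    rw [Finset.sum_ite_eq' Finset.univ c, if_pos (Finset.mem_univ c)]
    have : 10 - (c : ℕ) + c = 10 := by have := c.isLt; omega
    rw [this]
  have hhigh : B ^ 11 ∣ (∑ c : Fin 11, ∑ d : Fin 11, if (c : ℕ) < d then g c * a d * B ^ (10 - (c : ℕ) + d) else 0) := by
    apply Finset.dvd_sum
    intro c _
    apply Finset.dvd_sum
    intro d _
    split_ifs with h
    · apply Dvd.dvd.mul_left
      apply pow_dvd_pow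
      have := c.isLt
      omega
    · exact dvd_zero _
  have hpr : ∀ c d, g c * a d ≤ 17179869184 := by
    intro c d
    calc g c * a d ≤ 8388608 * 2048 := Nat.mul_le_mul (hg c).le (ha d).le
      _ = 17179869184 := by norm_num
  have hlow : (∑ c : Fin 11, ∑ d : Fin 11, if (d : ℕ) < c then g c * a d * B ^ (10 - (c : ℕ) + d) else 0) < B ^ 10 := by
    refine lt_of_le_of_lt ?_ tri
    apply Finset.sum_le_sum
    intro c _
    apply Finset.sum_le_sum
    intro d _
    split_ifs with h
    · apply Nat.mul_le_mul (hpr c d)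
      apply Nat.pow_le_pow_right (by norm_num)
      have := c.isLt
      omega
    · exact le_refl _
  have hsum : (∑ c, g c * a c) < B := by
    calc (∑ c, g c * a c) ≤ ∑ c : Fin 11, 17179869184 := Finset.sum_le_sum (fun c _ => hpr c c)
      _ = 11 * 17179869184 := by simp
      _ < B := by norm_num [hB]
  obtain ⟨t, ht⟩ := hhigh
  rw [hexp, hmid, ht]
  set L := (∑ c : Fin 11, ∑ d : Fin 11, if (d : ℕ) < c then g c * a d * B ^ (10 - (c : ℕ) + d) else 0) with hL
  set S := ∑ c, g c * a c with hS
  have e : L + S * B ^ 10 + B ^ 11 * t = L + B ^ 10 * (S + B * t) := by ring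
  rw [e]
  have hd : (2582249878086908589655919172003011874329705792829223512830659356540647622016841194629645353280137831435903171972747493376 : ℕ) = B ^ 10 := by
    norm_num [hB]
  unfold dig
  rw [hd, Nat.add_mul_div_left _ _ (by positivity), Nat.div_eq_of_lt hlow, zero_add,
    Nat.add_mul_mod_self_left, Nat.mod_eq_of_lt hsum]

/-! ### soundness of the loops -/

section
variable (D1 D2 ONES DC : ℕ) (rows : List (ℕ × ℕ × ℕ))

lemma chkRows_cons (N H i j : ℕ) (r : ℕ × ℕ × ℕ) (l : List (ℕ × ℕ × ℕ)) (k : ℕ) :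
    chkRows N H i j (r :: l) k =
    cond (cond (Nat.beq k i || Nat.beq k j) (Nat.beq (dig (N * r.1)) (r.2.1 + H))
      (Nat.blt (dig (N * r.1)) (r.2.1 + H))) (chkRows N H i j l (k + 1)) false := rfl

lemma chkRows_sound (N H i j : ℕ) : ∀ (l : List (ℕ × ℕ × ℕ)) (k : ℕ), chkRows N H i j l k = true →
    ∀ m r, l[m]? = some r → ((k + m = i ∨ k + m = j) → dig (N * r.1) = r.2.1 + H) ∧
      (k + m ≠ i → k + m ≠ j → dig (N * r.1) < r.2.1 + H) := by
  intro l
  induction l with
  | nil => intro k _ m r h; simp at h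
  | cons r0 l ih =>
    intro k h m r hm
    rw [chkRows_cons] at h
    obtain ⟨h1, h2⟩ := cond_false_eq_true h
    rcases m with _ | m
    · simp only [List.getElem?_cons_zero, Option.some.injEq] at hm
      subst hm
      simp only [add_zero]
      constructor
      · intro hk
        have : (Nat.beq k i || Nat.beq k j) = true := by
          rcases hk with hk | hk <;> simp [hk]
        rw [this] at h1
        simpa [Nat.beq_eq] using h1
      · intro hk1 hk2
        have : (Nat.beq k i || Nat.beq k j) = false := by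
          have e1 : Nat.beq k i = false := by
            rw [← Bool.not_eq_true, Nat.beq_eq]; exact hk1
          have e2 : Nat.beq k j = false := by
            rw [← Bool.not_eq_true, Nat.beq_eq]; exact hk2
          simp [e1, e2]
        rw [this] at h1
        simpa [Nat.blt_eq] using h1
    · simp only [List.getElem?_cons_succ] at hm
      have := ih (k + 1) h2 m r hm
      have e : k + 1 + m = k + (m + 1) := by ring
      rw [e] at this
      exact this

lemma cmp_cons (i a b k : ℕ) (l m : List ℕ) :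
    cmp i (a :: l) (b :: m) k = cond (cond (Nat.beq k i) (Nat.ble a b) (Nat.blt a b)) (cmp i l m (k + 1)) false := rfl
lemma cmp_cons_nil (i a k : ℕ) (l : List ℕ) : cmp i (a :: l) [] k = false := rfl

lemma cmp_sound (i : ℕ) : ∀ (l m : List ℕ) (k : ℕ), cmp i l m k = true →
    ∀ t a b, l[t]? = some a → m[t]? = some b → a ≤ b ∧ (k + t ≠ i → a < b) := by
  intro l
  induction l with
  | nil => intro m k _ t a b h; simp at h
  | cons a0 l ih =>
    intro m k h t a b ha hb
    rcases m with _ | ⟨b0, m⟩
    · simp at hb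
    rw [cmp_cons] at h
    obtain ⟨h1, h2⟩ := cond_false_eq_true h
    rcases t with _ | t
    · simp only [List.getElem?_cons_zero, Option.some.injEq] at ha hb
      subst ha; subst hb
      simp only [add_zero]
      by_cases hk : k = i
      · have : Nat.beq k i = true := by rw [Nat.beq_eq]; exact hk
        rw [this] at h1
        simp only [cond_true, Nat.ble_eq] at h1
        exact ⟨h1, fun h => absurd hk h⟩
      · have : Nat.beq k i = false := by rw [← Bool.not_eq_true, Nat.beq_eq]; exact hk
        rw [this] at h1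
        simp only [cond_false, Nat.blt_eq] at h1
        exact ⟨h1.le, fun _ => h1⟩
    · simp only [List.getElem?_cons_succ] at ha hb
      have := ih m (k + 1) h2 t a b ha hb
      have e : k + 1 + t = k + (t + 1) := by ring
      rw [e] at this
      exact this

lemma rowChk_nil_cons (i Mu : ℕ) (r : ℕ × ℕ × ℕ) (tl : List (ℕ × ℕ × ℕ)) (j : ℕ) :
    rowChk D1 D2 ONES DC rows i Mu [] (r :: tl) j = false := rfl
lemma rowChk_cons_nil (i Mu : ℕ) (c : ℕ × ℕ) (cs : List (ℕ × ℕ)) (j : ℕ) :
    rowChk D1 D2 ONES DC rows i Mu (c :: cs) [] j = false := rfl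
lemma rowChk_cons (i Mu : ℕ) (c : ℕ × ℕ) (cs : List (ℕ × ℕ)) (r : ℕ × ℕ × ℕ) (tl : List (ℕ × ℕ × ℕ)) (j : ℕ) :
    rowChk D1 D2 ONES DC rows i Mu (c :: cs) (r :: tl) j =
      cond (pairChk D1 D2 ONES DC rows i j Mu r c) (rowChk D1 D2 ONES DC rows i Mu cs tl (j + 1)) false := rfl

lemma rowChk_sound (i Mu : ℕ) : ∀ (cs : List (ℕ × ℕ)) (tl : List (ℕ × ℕ × ℕ)) (j : ℕ),
    rowChk D1 D2 ONES DC rows i Mu cs tl j = true → ∀ m r, tl[m]? = some r →
      ∃ c, pairChk D1 D2 ONES DC rows i (j + m) Mu r c = true := by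
  intro cs
  induction cs with
  | nil =>
    intro tl j h m r hm
    rcases tl with _ | ⟨r0, tl⟩
    · simp at hm
    · rw [rowChk_nil_cons] at h; exact absurd h (by simp)
  | cons c cs ih =>
    intro tl j h m r hm
    rcases tl with _ | ⟨r0, tl⟩
    · simp at hm
    · rw [rowChk_cons] at h
      obtain ⟨h1, h2⟩ := cond_false_eq_true h
      rcases m with _ | m
      · simp only [List.getElem?_cons_zero, Option.some.injEq] at hm
        subst hm
        exact ⟨c, h1⟩
      · simp only [List.getElem?_cons_succ] at hm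
        have := ih tl (j + 1) h2 m r hm
        have e : j + 1 + m = j + (m + 1) := by ring
        rw [e] at this
        exact this

lemma allChk_cons_nil (cs : List (ℕ × ℕ)) (css : List (List (ℕ × ℕ))) (i : ℕ) :
    allChk D1 D2 ONES DC rows (cs :: css) [] i = false := rfl
lemma allChk_cons (cs : List (ℕ × ℕ)) (css : List (List (ℕ × ℕ))) (r : ℕ × ℕ × ℕ) (tl : List (ℕ × ℕ × ℕ)) (i : ℕ) :
    allChk D1 D2 ONES DC rows (cs :: css) (r :: tl) i =
      cond (rowChk D1 D2 ONES DC rows i r.1 cs tl (i + 1)) (allChk D1 D2 ONES DC rows css tl (i + 1)) false := rfl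

lemma allChk_sound : ∀ (css : List (List (ℕ × ℕ))) (tl : List (ℕ × ℕ × ℕ)) (i : ℕ),
    allChk D1 D2 ONES DC rows css tl i = true → ∀ k < css.length, ∀ r, tl[k]? = some r →
      ∀ m r', tl[k + 1 + m]? = some r' →
      ∃ c, pairChk D1 D2 ONES DC rows (i + k) (i + k + 1 + m) r.1 r' c = true := by
  intro css
  induction css with
  | nil => intro tl i _ k hk; simp at hk
  | cons cs css ih =>
    intro tl i h k hk r hr m r' hr'
    rcases tl with _ | ⟨r0, tl⟩
    · rw [allChk_cons_nil] at h; exact absurd h (by simp)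
    rw [allChk_cons] at h
    obtain ⟨h1, h2⟩ := cond_false_eq_true h
    rcases k with _ | k
    · simp only [List.getElem?_cons_zero, Option.some.injEq] at hr
      subst hr
      have hr'' : tl[m]? = some r' := by
        have e : 0 + 1 + m = m + 1 := by ring
        rw [e, List.getElem?_cons_succ] at hr'
        exact hr'
      obtain ⟨c, hc⟩ := rowChk_sound D1 D2 ONES DC rows i r0.1 cs tl (i + 1) h1 m r' hr''
      exact ⟨c, by simpa using hc⟩
    · simp only [List.getElem?_cons_succ] at hr
      have hr'' : tl[k + 1 + m]? = some r' := by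
        have e : k + 1 + 1 + m = (k + 1 + m) + 1 := by ring
        rw [e, List.getElem?_cons_succ] at hr'
        exact hr'
      obtain ⟨c, hc⟩ := ih tl (i + 1) h2 k (by simpa using hk) r hr m r' hr''
      refine ⟨c, ?_⟩
      have e1 : i + 1 + k = i + (k + 1) := by ring
      rw [e1] at hc
      exact hc

lemma block_sound (css : List (List (ℕ × ℕ))) (lo len : ℕ)
    (h : allChk D1 D2 ONES DC rows css (List.drop lo rows) lo = true) (hl : css.length = len)
    (i : ℕ) (h1 : lo ≤ i) (h2 : i < lo + len) (j : ℕ) (hij : i < j) (r r' : ℕ × ℕ × ℕ)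
    (hr : rows[i]? = some r) (hr' : rows[j]? = some r') :
    ∃ c, pairChk D1 D2 ONES DC rows i j r.1 r' c = true := by
  have := allChk_sound D1 D2 ONES DC rows css (List.drop lo rows) lo h (i - lo) (by omega) r
    (by rw [List.getElem?_drop]; rw [← hr]; congr 1; omega) (j - i - 1) r'
    (by rw [List.getElem?_drop]; rw [← hr']; congr 1; omega)
  obtain ⟨c, hc⟩ := this
  refine ⟨c, ?_⟩
  have e1 : lo + (i - lo) = i := by omega
  have e2 : i + 1 + (j - i - 1) = j := by omega
  rw [e1, e2] at hc
  exact hc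

end

end Pool.Agent.TH368.GK
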