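import Pool.Agent.TH368.GKSound

set_option autoImplicit false

namespace Pool.Agent.TH368.GK

/-- the integer data needed by the geometric part -/
structure Good (d1 d2 : Fin 11 → ℤ) (a : ℕ → Fin 11 → ℤ) : Prop where
  s1 : ∑ c, d1 c = 0
  s2 : ∑ c, d2 c = 0
  core : ∀ x c : Fin 11, a x c = if c = x then 1 else 0
  pos : ∀ t < 121, 0 < ∑ c, a t c
  edge : ∀ i j, i < j → j < 121 → adjT i j = true → ∃ h : Fin 11 → ℤ,
    ∑ c, h c * d1 c = 0 ∧ ∑ c, h c * d2 c = 0 ∧ ∑ c, h c * a i c = 0 ∧ ∑ c, h c * a j c = 0 ∧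
    ∀ t < 121, t ≠ i → t ≠ j → ∑ c, h c * a t c < 0
  nonedge : ∀ i j, i < j → j < 121 → adjT i j = false → 11 ≤ j ∧ ∃ A B K p q : ℤ, ∃ z < 121, 0 ≤ K ∧
    ∀ c : Fin 11, K * a z c ≤ A * a i c + B * a j c + p * d1 c + q * d2 c ∧
      ((c : ℕ) ≠ i → K * a z c < A * a i c + B * a j c + p * d1 c + q * d2 c)

attribute [local irreducible] dg

lemma rev_sum (N : ℕ) (h : pk (unl 11 N) = N) :
    N = ∑ c : Fin 11, dg N (Fin.rev c) * 1099511627776 ^ (10 - (c : ℕ)) := by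
  conv_lhs => rw [← sum_dg h]
  rw [← Equiv.sum_comp Fin.revPerm]
  have h2 : ∀ c : Fin 11, ((Fin.rev c : Fin 11) : ℕ) = 10 - (c : ℕ) := by
    intro c; rw [Fin.val_rev]; omega
  simp only [Fin.revPerm_apply, h2]

section
variable {D1 D2 ONES DC : ℕ} {rows : List (ℕ × ℕ × ℕ)} {e1 e2 : Fin 11 → ℕ}

lemma cmp_ofFn (i : ℕ) (f g : Fin 11 → ℕ) (h : cmp i (List.ofFn f) (List.ofFn g) 0 = true) (c : Fin 11) :
    f c ≤ g c ∧ ((c : ℕ) ≠ i → f c < g c) := by
  have hf : (List.ofFn f)[(c : ℕ)]? = some (f c) := by rw [List.getElem?_ofFn, dif_pos c.isLt]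
  have hg : (List.ofFn g)[(c : ℕ)]? = some (g c) := by rw [List.getElem?_ofFn, dif_pos c.isLt]
  have := cmp_sound i _ _ 0 h (c : ℕ) _ _ hf hg
  rwa [zero_add] at this

lemma edge_sound (he1 : ∀ c, e1 c < 2048) (he2 : ∀ c, e2 c < 2048)
    (hD1 : D1 = ∑ c : Fin 11, e1 c * 1099511627776 ^ (c : ℕ))
    (hD2 : D2 = ∑ c : Fin 11, e2 c * 1099511627776 ^ (c : ℕ))
    (hO : ONES = ∑ c : Fin 11, 1 * 1099511627776 ^ (c : ℕ))
    (hs1 : ∑ c, e1 c = 77) (hs2 : ∑ c, e2 c = 77)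
    (hrow : ∀ r ∈ rows, pk (unl 11 r.1) = r.1 ∧ allLt 2048 (unl 11 r.1) = true ∧
      r.2.1 + 4194304 * 11264 = 4194304 * ∑ c, dg r.1 c)
    (i j N H : ℕ) (h : edgeChk D1 D2 ONES rows i j N H = true) :
    ∃ h : Fin 11 → ℤ, ∑ c, h c * ((e1 c : ℤ) - 7) = 0 ∧ ∑ c, h c * ((e2 c : ℤ) - 7) = 0 ∧
      ∀ m r, rows[m]? = some r → ((m = i ∨ m = j) → ∑ c, h c * ((dg r.1 c : ℤ) - 1024) = 0) ∧
        (m ≠ i → m ≠ j → ∑ c, h c * ((dg r.1 c : ℤ) - 1024) < 0) := by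
  unfold edgeChk at h
  obtain ⟨h1, h⟩ := cond_false_eq_true h
  obtain ⟨h2, h⟩ := cond_false_eq_true h
  obtain ⟨h3, h⟩ := cond_false_eq_true h
  obtain ⟨h4, h⟩ := cond_false_eq_true h
  obtain ⟨h5, h⟩ := cond_false_eq_true h
  rw [Nat.beq_eq] at h1 h3 h4 h5
  set g : Fin 11 → ℕ := fun c => dg N (Fin.rev c) with hg
  have hNs : N = ∑ c : Fin 11, g c * 1099511627776 ^ (10 - (c : ℕ)) := rev_sum N h1
  have hglt : ∀ c, g c < 8388608 := fun c => dg_lt h2 (Fin.rev c)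
  have k1 : dig (N * ONES) = ∑ c, g c * 1 := by
    rw [hNs, hO]
    exact dig_mul g (fun _ => 1) hglt (fun _ => by norm_num)
  have k2 : dig (N * D1) = ∑ c, g c * e1 c := by
    rw [hNs, hD1]
    exact dig_mul g e1 hglt he1
  have k3 : dig (N * D2) = ∑ c, g c * e2 c := by
    rw [hNs, hD2]
    exact dig_mul g e2 hglt he2
  have k4 : ∀ r ∈ rows, dig (N * r.1) = ∑ c, g c * dg r.1 c := by
    intro r hr
    obtain ⟨q1, q2, q3⟩ := hrow r hr
    conv_lhs => rw [hNs, ← sum_dg q1]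
    exact dig_mul g (dg r.1) hglt (fun c => dg_lt q2 c)
  rw [k2, k1] at h4
  rw [k3, k1] at h5
  rw [k1] at h3
  have z1 : (∑ c, (g c : ℤ) * (e1 c : ℤ)) = 7 * ∑ c, (g c : ℤ) * 1 := by exact_mod_cast h4
  have z2 : (∑ c, (g c : ℤ) * (e2 c : ℤ)) = 7 * ∑ c, (g c : ℤ) * 1 := by exact_mod_cast h5
  have z3 : (H : ℤ) = 1024 * ∑ c, (g c : ℤ) * 1 := by exact_mod_cast h3
  have w1 : (∑ c, (e1 c : ℤ)) = 77 := by exact_mod_cast hs1
  have w2 : (∑ c, (e2 c : ℤ)) = 77 := by exact_mod_cast hs2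
  refine ⟨fun c => (g c : ℤ) - 4194304, ?_, ?_, ?_⟩
  · have : ∀ c, ((g c : ℤ) - 4194304) * ((e1 c : ℤ) - 7) = (g c : ℤ) * e1 c - 7 * ((g c : ℤ) * 1)
        - 4194304 * (e1 c : ℤ) + 4194304 * 7 := fun c => by ring
    simp only [this, Finset.sum_add_distrib, Finset.sum_sub_distrib, ← Finset.mul_sum]
    rw [z1, w1]
    simp
  · have : ∀ c, ((g c : ℤ) - 4194304) * ((e2 c : ℤ) - 7) = (g c : ℤ) * e2 c - 7 * ((g c : ℤ) * 1)
        - 4194304 * (e2 c : ℤ) + 4194304 * 7 := fun c => by ring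
    simp only [this, Finset.sum_add_distrib, Finset.sum_sub_distrib, ← Finset.mul_sum]
    rw [z2, w2]
    simp
  · intro m r hm
    have hr : r ∈ rows := List.mem_of_getElem? hm
    obtain ⟨q1, q2, q3⟩ := hrow r hr
    have z5 : (r.2.1 : ℤ) + 4194304 * 11264 = 4194304 * ∑ c, (dg r.1 c : ℤ) := by exact_mod_cast q3
    have key : (∑ c, ((g c : ℤ) - 4194304) * ((dg r.1 c : ℤ) - 1024))
        = (dig (N * r.1) : ℤ) - (H : ℤ) - (r.2.1 : ℤ) := by
      have : ∀ c, ((g c : ℤ) - 4194304) * ((dg r.1 c : ℤ) - 1024) = (g c : ℤ) * (dg r.1 c : ℤ)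
          - 1024 * ((g c : ℤ) * 1) - 4194304 * (dg r.1 c : ℤ) + 4194304 * 1024 := fun c => by ring
      simp only [this, Finset.sum_add_distrib, Finset.sum_sub_distrib, ← Finset.mul_sum]
      rw [k4 r hr, z3]
      push_cast
      have hc : (∑ c : Fin 11, (1024 : ℤ)) = 11264 := by simp
      rw [hc]
      linarith
    obtain ⟨s1, s2⟩ := chkRows_sound N H i j rows 0 h m r hm
    rw [zero_add] at s1 s2
    constructor
    · intro hmij
      have := s1 hmij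
      rw [key]
      have : (dig (N * r.1) : ℤ) = (r.2.1 : ℤ) + (H : ℤ) := by exact_mod_cast this
      linarith
    · intro hmi hmj
      have := s2 hmi hmj
      rw [key]
      have : (dig (N * r.1) : ℤ) < (r.2.1 : ℤ) + (H : ℤ) := by exact_mod_cast this
      linarith

lemma ne_sound (he1 : ∀ c, e1 c < 2048) (he2 : ∀ c, e2 c < 2048)
    (hD1 : D1 = ∑ c : Fin 11, e1 c * 1099511627776 ^ (c : ℕ))
    (hD2 : D2 = ∑ c : Fin 11, e2 c * 1099511627776 ^ (c : ℕ))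
    (hO : ONES = ∑ c : Fin 11, 1 * 1099511627776 ^ (c : ℕ))
    (hDC : DC = ∑ c : Fin 11, (32768 * (e1 c + e2 c)) * 1099511627776 ^ (c : ℕ))
    (hrow : ∀ r ∈ rows, pk (unl 11 r.1) = r.1 ∧ allLt 2048 (unl 11 r.1) = true ∧
      r.2.1 + 4194304 * 11264 = 4194304 * ∑ c, dg r.1 c)
    (i : ℕ) (ru rv rz : ℕ × ℕ × ℕ) (hu : ru ∈ rows) (hv : rv ∈ rows) (hz : rz ∈ rows) (cert : ℕ)
    (h : neChk D1 D2 ONES DC i ru.1 rv.1 rz.1 cert = true) :
    ∃ A B K p q : ℤ, 0 ≤ K ∧ ∀ c : Fin 11,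
      K * ((dg rz.1 c : ℤ) - 1024) ≤ A * ((dg ru.1 c : ℤ) - 1024) + B * ((dg rv.1 c : ℤ) - 1024) +
        p * ((e1 c : ℤ) - 7) + q * ((e2 c : ℤ) - 7) ∧
      ((c : ℕ) ≠ i → K * ((dg rz.1 c : ℤ) - 1024) < A * ((dg ru.1 c : ℤ) - 1024) +
        B * ((dg rv.1 c : ℤ) - 1024) + p * ((e1 c : ℤ) - 7) + q * ((e2 c : ℤ) - 7)) := by
  unfold neChk neChk2 at h
  generalize hA : cert % 65536 = A at h
  generalize hB : cert / 65536 % 65536 = B at h
  generalize hK : cert / 4294967296 % 65536 = K at h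
  generalize hp : cert / 281474976710656 % 65536 = p at h
  generalize hq : cert / 18446744073709551616 % 65536 = q at h
  have bA : A ≤ 65535 := by omega
  have bB : B ≤ 65535 := by omega
  have bK : K ≤ 65535 := by omega
  have bp : p ≤ 65535 := by omega
  have bq : q ≤ 65535 := by omega
  obtain ⟨u1, u2, -⟩ := hrow ru hu
  obtain ⟨v1, v2, -⟩ := hrow rv hv
  obtain ⟨z1, z2, -⟩ := hrow rz hz
  have bm : ∀ x y : ℕ, x ≤ 65535 → y < 2048 → x * y ≤ 65535 * 2048 :=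
    fun x y hx hy => Nat.mul_le_mul hx hy.le
  have eX : A * ru.1 + B * rv.1 + p * D1 + q * D2 + (K * 1024 + 458752) * ONES
      = ∑ c : Fin 11, (A * dg ru.1 c + B * dg rv.1 c + p * e1 c + q * e2 c + (K * 1024 + 458752)) *
        1099511627776 ^ (c : ℕ) := by
    conv_lhs => rw [← sum_dg u1, ← sum_dg v1, hD1, hD2, hO]
    simp only [Finset.mul_sum, ← Finset.sum_add_distrib]
    apply Finset.sum_congr rfl
    intro c _
    ring
  have eY : K * rz.1 + ((A + B) * 1024 + 7 * p + 7 * q) * ONES + DC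
      = ∑ c : Fin 11, (K * dg rz.1 c + ((A + B) * 1024 + 7 * p + 7 * q) + 32768 * (e1 c + e2 c)) *
        1099511627776 ^ (c : ℕ) := by
    conv_lhs => rw [← sum_dg z1, hDC, hO]
    simp only [Finset.mul_sum, ← Finset.sum_add_distrib]
    apply Finset.sum_congr rfl
    intro c _
    ring
  have bY : ∀ c, K * dg rz.1 c + ((A + B) * 1024 + 7 * p + 7 * q) + 32768 * (e1 c + e2 c) < 1099511627776 := by
    intro c
    have t1 := bm K (dg rz.1 c) bK (dg_lt z2 c)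
    have t2 := he1 c
    have t3 := he2 c
    generalize K * dg rz.1 c = x1 at *
    generalize e1 c = x2 at *
    generalize e2 c = x3 at *
    omega
  have bX : ∀ c, A * dg ru.1 c + B * dg rv.1 c + p * e1 c + q * e2 c + (K * 1024 + 458752) < 1099511627776 := by
    intro c
    have t1 := bm A (dg ru.1 c) bA (dg_lt u2 c)
    have t2 := bm B (dg rv.1 c) bB (dg_lt v2 c)
    have t3 := bm p (e1 c) bp (he1 c)
    have t4 := bm q (e2 c) bq (he2 c)
    generalize A * dg ru.1 c = x1 at *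
    generalize B * dg rv.1 c = x2 at *
    generalize p * e1 c = x3 at *
    generalize q * e2 c = x4 at *
    omega
  rw [eX, eY, unl_sum _ bY, unl_sum _ bX] at h
  have hcmp : ∀ c : Fin 11, (K * dg rz.1 c + ((A + B) * 1024 + 7 * p + 7 * q) + 32768 * (e1 c + e2 c)
      ≤ A * dg ru.1 c + B * dg rv.1 c + p * e1 c + q * e2 c + (K * 1024 + 458752)) ∧
      ((c : ℕ) ≠ i → K * dg rz.1 c + ((A + B) * 1024 + 7 * p + 7 * q) + 32768 * (e1 c + e2 c)
      < A * dg ru.1 c + B * dg rv.1 c + p * e1 c + q * e2 c + (K * 1024 + 458752)) := fun c => cmp_ofFn i _ _ h c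
  clear h eX eY bX bY hD1 hD2 hO hDC u1 u2 v1 v2 z1 z2 hrow bm hA hB hK hp hq
  refine ⟨A, B, K, (p : ℤ) - 32768, (q : ℤ) - 32768, Int.natCast_nonneg K, ?_⟩
  intro c
  obtain ⟨c1, c2⟩ := hcmp c
  constructor
  · have c1' : ((K * dg rz.1 c + ((A + B) * 1024 + 7 * p + 7 * q) + 32768 * (e1 c + e2 c) : ℕ) : ℤ)
      ≤ ((A * dg ru.1 c + B * dg rv.1 c + p * e1 c + q * e2 c + (K * 1024 + 458752) : ℕ) : ℤ) := by exact_mod_cast c1
    push_cast at c1'
    linarith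
  · intro hc
    have c2' : ((K * dg rz.1 c + ((A + B) * 1024 + 7 * p + 7 * q) + 32768 * (e1 c + e2 c) : ℕ) : ℤ)
      < ((A * dg ru.1 c + B * dg rv.1 c + p * e1 c + q * e2 c + (K * 1024 + 458752) : ℕ) : ℤ) := by exact_mod_cast c2 hc
    push_cast at c2'
    linarith

theorem good_of (he1 : ∀ c, e1 c < 2048) (he2 : ∀ c, e2 c < 2048)
    (hD1 : D1 = ∑ c : Fin 11, e1 c * 1099511627776 ^ (c : ℕ))
    (hD2 : D2 = ∑ c : Fin 11, e2 c * 1099511627776 ^ (c : ℕ))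
    (hO : ONES = ∑ c : Fin 11, 1 * 1099511627776 ^ (c : ℕ))
    (hDC : DC = ∑ c : Fin 11, (32768 * (e1 c + e2 c)) * 1099511627776 ^ (c : ℕ))
    (hs1 : ∑ c, e1 c = 77) (hs2 : ∑ c, e2 c = 77)
    (hlen : rows.length = 121)
    (hrow : ∀ r ∈ rows, pk (unl 11 r.1) = r.1 ∧ allLt 2048 (unl 11 r.1) = true ∧
      r.2.1 + 4194304 * 11264 = 4194304 * ∑ c, dg r.1 c)
    (hpos : ∀ r ∈ rows, 11264 < ∑ c, dg r.1 c)
    (hz : ∀ r ∈ rows, ∃ r' ∈ rows, r.2.2 = r'.1)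
    (hcore : ∀ x c : Fin 11, dg (rows[(x : ℕ)]?.getD (0, 0, 0)).1 c = if c = x then 1025 else 1024)
    (hall : ∀ i j, i < j → ∀ r r', rows[i]? = some r → rows[j]? = some r' →
      ∃ c, pairChk D1 D2 ONES DC rows i j r.1 r' c = true) :
    Good (fun c => (e1 c : ℤ) - 7) (fun c => (e2 c : ℤ) - 7)
      (fun t c => (dg (rows[t]?.getD (0, 0, 0)).1 c : ℤ) - 1024) := by
  have hget : ∀ t < 121, ∃ r, rows[t]? = some r ∧ r ∈ rows := by
    intro t ht
    refine ⟨rows[t]'(by rw [hlen]; exact ht), List.getElem?_eq_getElem _, List.getElem_mem _⟩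
  constructor
  · simp only [Finset.sum_sub_distrib]
    have w1 : (∑ c, (e1 c : ℤ)) = 77 := by exact_mod_cast hs1
    rw [w1]; simp
  · simp only [Finset.sum_sub_distrib]
    have w1 : (∑ c, (e2 c : ℤ)) = 77 := by exact_mod_cast hs2
    rw [w1]; simp
  · intro x c
    simp only [hcore x c]
    split_ifs <;> norm_num
  · intro t ht
    obtain ⟨r, hr, hm⟩ := hget t ht
    simp only [hr, Option.getD_some, Finset.sum_sub_distrib]
    have := hpos r hm
    have : (11264 : ℤ) < ∑ c, (dg r.1 c : ℤ) := by exact_mod_cast this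
    simp only [Finset.sum_const, Finset.card_univ, Fintype.card_fin, nsmul_eq_mul]
    norm_num
    linarith
  · intro i j hij hj hadj
    obtain ⟨ri, hri, hmi⟩ := hget i (by omega)
    obtain ⟨rj, hrj, hmj⟩ := hget j hj
    obtain ⟨c, hc⟩ := hall i j hij ri rj hri hrj
    unfold pairChk at hc
    rw [hadj, cond_true] at hc
    obtain ⟨h, h1, h2, h3⟩ := edge_sound he1 he2 hD1 hD2 hO hs1 hs2 hrow i j c.1 c.2 hc
    refine ⟨h, h1, h2, ?_, ?_, ?_⟩
    · simp only [hri, Option.getD_some]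
      exact (h3 i ri hri).1 (Or.inl rfl)
    · simp only [hrj, Option.getD_some]
      exact (h3 j rj hrj).1 (Or.inr rfl)
    · intro t ht hti htj
      obtain ⟨rt, hrt, hmt⟩ := hget t ht
      simp only [hrt, Option.getD_some]
      exact (h3 t rt hrt).2 hti htj
  · intro i j hij hj hadj
    obtain ⟨ri, hri, hmi⟩ := hget i (by omega)
    obtain ⟨rj, hrj, hmj⟩ := hget j hj
    obtain ⟨c, hc⟩ := hall i j hij ri rj hri hrj
    unfold pairChk at hc
    rw [hadj, cond_false] at hc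
    cases hb : Nat.blt j 11 with
    | true => rw [hb, cond_true] at hc; exact absurd hc (by simp)
    | false =>
      rw [hb, cond_false] at hc
      have hj11 : 11 ≤ j := by
        have : ¬ (Nat.blt j 11 = true) := by rw [hb]; simp
        rw [Nat.blt_eq] at this
        omega
      refine ⟨hj11, ?_⟩
      obtain ⟨rz, hzm, hze⟩ := hz rj hmj
      rw [hze] at hc
      obtain ⟨A, B, K, p, q, hK, hcc⟩ := ne_sound he1 he2 hD1 hD2 hO hDC hrow i ri rj rz hmi hmj hzm c.1 hc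
      obtain ⟨z, hzlt, hzz⟩ := List.mem_iff_getElem.1 hzm
      refine ⟨A, B, K, p, q, z, by rw [← hlen]; exact hzlt, hK, ?_⟩
      have hrz : rows[z]? = some rz := by rw [List.getElem?_eq_getElem hzlt, hzz]
      simp only [hri, hrj, hrz, Option.getD_some]
      exact hcc

end

end Pool.Agent.TH368.GK
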